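import Mathlib

set_option autoImplicit false
open Filter Topology
open scoped InnerProductSpace ComplexConjugate

namespace Pool.Agent.H321R3.Riesz

variable {E : Type*} [NormedAddCommGroup E] [InnerProductSpace ℂ E] {K : Type*}

/-- a Riesz basis, with its constants -/
structure IsRiesz (e : K → E) (A B : ℝ) : Prop where
  A_pos : 0 < A
  lower : ∀ (s : Finset K) (c : K → ℂ), A * ∑ k ∈ s, ‖c k‖ ^ 2 ≤ ‖∑ k ∈ s, c k • e k‖ ^ 2
  upper : ∀ (s : Finset K) (c : K → ℂ), ‖∑ k ∈ s, c k • e k‖ ^ 2 ≤ B * ∑ k ∈ s, ‖c k‖ ^ 2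
  complete : ∀ h : E, (∀ k, ⟪h, e k⟫_ℂ = 0) → h = 0

variable {e : K → E} {A B : ℝ}

lemma IsRiesz.span_dense [CompleteSpace E] (h : IsRiesz e A B) :
    (Submodule.span ℂ (Set.range e)).topologicalClosure = ⊤ := by
  rw [Submodule.topologicalClosure_eq_top_iff, Submodule.eq_bot_iff]
  intro x hx
  refine h.complete x fun k => ?_
  rw [Submodule.mem_orthogonal'] at hx
  exact hx _ (Submodule.subset_span ⟨k, rfl⟩)

lemma mem_span_iff (e : K → E) (x : E) (hx : x ∈ Submodule.span ℂ (Set.range e)) :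
    ∃ (s : Finset K) (c : K → ℂ), (∀ k, k ∉ s → c k = 0) ∧ x = ∑ k ∈ s, c k • e k := by
  rw [Finsupp.mem_span_range_iff_exists_finsupp] at hx
  obtain ⟨c, hc⟩ := hx
  refine ⟨c.support, c, fun k hk => by simpa using hk, ?_⟩
  rw [← hc, Finsupp.sum]

/-- existence of the dual vector -/
lemma IsRiesz.exists_dual [CompleteSpace E] [DecidableEq K] (h : IsRiesz e A B) (k0 : K) :
    ∃ g' : E, ∀ k, ⟪g', e k⟫_ℂ = if k = k0 then 1 else 0 := by
  set W : Submodule ℂ E := (Submodule.span ℂ (e '' {k | k ≠ k0})).topologicalClosure with hW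
  have hWc : IsClosed (W : Set E) := Submodule.isClosed_topologicalClosure _
  have : CompleteSpace W := hWc.completeSpace_coe
  set p : E := e k0 - W.starProjection (e k0) with hp
  have hp1 : p ∈ Wᗮ := Submodule.sub_starProjection_mem_orthogonal _
  have hp2 : ∀ k, k ≠ k0 → ⟪p, e k⟫_ℂ = 0 := by
    intro k hk
    rw [Submodule.mem_orthogonal'] at hp1
    exact hp1 _ (Submodule.le_topologicalClosure _ (Submodule.subset_span ⟨k, hk, rfl⟩))
  have hp3 : ⟪p, e k0⟫_ℂ = ((‖p‖ ^ 2 : ℝ) : ℂ) := by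
    have h1 : e k0 = p + W.starProjection (e k0) := by rw [hp]; abel
    have h2 : ⟪p, W.starProjection (e k0)⟫_ℂ = 0 := by
      rw [Submodule.mem_orthogonal'] at hp1
      exact hp1 _ (Submodule.starProjection_apply_mem _ _)
    conv_lhs => rw [h1]
    rw [inner_add_right, h2, add_zero, inner_self_eq_norm_sq_to_K]
    norm_cast
  have hpne : p ≠ 0 := by
    intro h0
    have h1 : e k0 ∈ W := by
      have : e k0 = W.starProjection (e k0) := by rw [← sub_eq_zero]; exact h0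
      rw [this]
      exact Submodule.starProjection_apply_mem _ _
    have h2 : e k0 ∈ closure ((Submodule.span ℂ (e '' {k | k ≠ k0}) : Submodule ℂ E) : Set E) := h1
    rw [Metric.mem_closure_iff] at h2
    obtain ⟨w, hw, hd⟩ := h2 (Real.sqrt A) (Real.sqrt_pos.2 h.A_pos)
    have hw' : w ∈ Submodule.span ℂ (e '' {k | k ≠ k0}) := hw
    rw [Finsupp.mem_span_image_iff_linearCombination] at hw'
    obtain ⟨l, hl, hlw⟩ := hw'
    have hl0 : k0 ∉ l.support := by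
      intro hmem
      rw [Finsupp.mem_supported] at hl
      exact hl hmem rfl
    have h3 : e k0 - w = ∑ k ∈ insert k0 l.support, (if k = k0 then 1 else - l k) • e k := by
      rw [Finset.sum_insert hl0, if_pos rfl, one_smul, ← hlw, Finsupp.linearCombination_apply,
        Finsupp.sum, sub_eq_add_neg, ← Finset.sum_neg_distrib]
      congr 1
      refine Finset.sum_congr rfl fun k hk => ?_
      rw [if_neg (show k ≠ k0 from fun hkk => hl0 (hkk ▸ hk)), neg_smul]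
    have h4 := h.lower (insert k0 l.support) (fun k => if k = k0 then 1 else - l k)
    rw [← h3, Finset.sum_insert hl0, if_pos rfl, norm_one] at h4
    have h5 : 0 ≤ ∑ x ∈ l.support, ‖(if x = k0 then 1 else - l x : ℂ)‖ ^ 2 :=
      Finset.sum_nonneg fun _ _ => by positivity
    rw [dist_eq_norm] at hd
    have h6 : ‖e k0 - w‖ ^ 2 < A := by
      have := Real.sq_sqrt h.A_pos.le
      nlinarith [norm_nonneg (e k0 - w), Real.sqrt_nonneg A]
    have := h.A_pos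
    nlinarith
  refine ⟨((‖p‖ ^ 2 : ℝ) : ℂ)⁻¹ • p, fun k => ?_⟩
  rw [inner_smul_left]
  split_ifs with hk
  · rw [hk, hp3, map_inv₀, Complex.conj_ofReal, inv_mul_cancel₀]
    have : ‖p‖ ≠ 0 := norm_ne_zero_iff.2 hpne
    exact_mod_cast pow_ne_zero 2 this
  · rw [hp2 k hk, mul_zero]

/-- Bessel bound for the dual -/
lemma IsRiesz.bessel_dual [CompleteSpace E] [DecidableEq K] (h : IsRiesz e A B) {e' : K → E}
    (hb : ∀ k l, ⟪e' k, e l⟫_ℂ = if k = l then 1 else 0) (s : Finset K) (f : E) :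
    ∑ k ∈ s, ‖⟪e' k, f⟫_ℂ‖ ^ 2 ≤ A⁻¹ * ‖f‖ ^ 2 := by
  have hcl : IsClosed {f : E | ∑ k ∈ s, ‖⟪e' k, f⟫_ℂ‖ ^ 2 ≤ A⁻¹ * ‖f‖ ^ 2} :=
    isClosed_le (by fun_prop) (by fun_prop)
  have hsub : ((Submodule.span ℂ (Set.range e) : Submodule ℂ E) : Set E) ⊆
      {f : E | ∑ k ∈ s, ‖⟪e' k, f⟫_ℂ‖ ^ 2 ≤ A⁻¹ * ‖f‖ ^ 2} := by
    intro x hx
    obtain ⟨t, c, hc, rfl⟩ := mem_span_iff e x hx
    show ∑ k ∈ s, ‖⟪e' k, ∑ k ∈ t, c k • e k⟫_ℂ‖ ^ 2 ≤ A⁻¹ * ‖∑ k ∈ t, c k • e k‖ ^ 2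
    have h1 : ∀ k, ⟪e' k, ∑ k ∈ t, c k • e k⟫_ℂ = c k := by
      intro k
      rw [inner_sum]
      simp only [inner_smul_right, hb, mul_ite, mul_one, mul_zero]
      rw [Finset.sum_ite_eq]
      split_ifs with hk
      · rfl
      · exact (hc k hk).symm
    simp only [h1]
    have h2 : ∑ k ∈ s, ‖c k‖ ^ 2 ≤ ∑ k ∈ t, ‖c k‖ ^ 2 := by
      calc ∑ k ∈ s, ‖c k‖ ^ 2 ≤ ∑ k ∈ s ∪ t, ‖c k‖ ^ 2 :=
            Finset.sum_le_sum_of_subset_of_nonneg Finset.subset_union_left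
              (fun _ _ _ => by positivity)
        _ = ∑ k ∈ t, ‖c k‖ ^ 2 := by
            symm
            refine Finset.sum_subset Finset.subset_union_right fun k _ hk => ?_
            rw [hc k hk]
            simp
    have h3 := h.lower t c
    have hA := h.A_pos
    rw [inv_mul_eq_div, le_div_iff₀ hA]
    nlinarith
  have hx : f ∈ closure ((Submodule.span ℂ (Set.range e) : Submodule ℂ E) : Set E) := by
    have : f ∈ (Submodule.span ℂ (Set.range e)).topologicalClosure := by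
      rw [h.span_dense]; trivial
    exact this
  exact closure_minimal hsub hcl hx

lemma IsRiesz.bessel (h : IsRiesz e A B) (hB : 0 ≤ B) (s : Finset K) (f : E) :
    ∑ k ∈ s, ‖⟪e k, f⟫_ℂ‖ ^ 2 ≤ B * ‖f‖ ^ 2 := by
  set S := ∑ k ∈ s, ‖⟪e k, f⟫_ℂ‖ ^ 2 with hS
  have hS0 : 0 ≤ S := Finset.sum_nonneg fun _ _ => by positivity
  have h1 := h.upper s (fun k => ⟪e k, f⟫_ℂ)
  have h2 : ⟪∑ k ∈ s, ⟪e k, f⟫_ℂ • e k, f⟫_ℂ = ((S : ℝ) : ℂ) := by
    rw [sum_inner, hS]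
    push_cast
    refine Finset.sum_congr rfl fun k _ => ?_
    rw [inner_smul_left, ← Complex.conj_mul']
  have h3 : S ≤ ‖∑ k ∈ s, ⟪e k, f⟫_ℂ • e k‖ * ‖f‖ := by
    have := norm_inner_le_norm (𝕜 := ℂ) (∑ k ∈ s, ⟪e k, f⟫_ℂ • e k) f
    rw [h2, Complex.norm_real, Real.norm_of_nonneg hS0] at this
    exact this
  have h4 : S ^ 2 ≤ (B * S) * ‖f‖ ^ 2 := by
    calc S ^ 2 ≤ (‖∑ k ∈ s, ⟪e k, f⟫_ℂ • e k‖ * ‖f‖) ^ 2 := by gcongr
      _ = ‖∑ k ∈ s, ⟪e k, f⟫_ℂ • e k‖ ^ 2 * ‖f‖ ^ 2 := by ring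
      _ ≤ _ := by gcongr
  by_cases hS' : S = 0
  · rw [hS']; positivity
  · have hS1 : 0 < S := lt_of_le_of_ne hS0 (Ne.symm hS')
    have : S * S ≤ S * (B * ‖f‖ ^ 2) := by nlinarith
    exact le_of_mul_le_mul_left this hS1

/-- the expansion in a Riesz basis -/
lemma IsRiesz.expand [CompleteSpace E] [DecidableEq K] (h : IsRiesz e A B) (hB : 0 ≤ B) {e' : K → E}
    (hb : ∀ k l, ⟪e' k, e l⟫_ℂ = if k = l then 1 else 0) (f : E) :
    HasSum (fun k => ⟪e' k, f⟫_ℂ • e k) f := by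
  have hA := h.A_pos
  set C : ℝ := Real.sqrt (B * A⁻¹) with hC
  have hC0 : 0 ≤ C := Real.sqrt_nonneg _
  have hP : ∀ (s : Finset K) (x : E), ‖∑ k ∈ s, ⟪e' k, x⟫_ℂ • e k‖ ≤ C * ‖x‖ := by
    intro s x
    have h1 := h.upper s (fun k => ⟪e' k, x⟫_ℂ)
    have h2 := h.bessel_dual hb s x
    have h3 : ‖∑ k ∈ s, ⟪e' k, x⟫_ℂ • e k‖ ^ 2 ≤ (C * ‖x‖) ^ 2 := by
      rw [mul_pow, hC, Real.sq_sqrt (by positivity)]
      calc _ ≤ B * ∑ k ∈ s, ‖⟪e' k, x⟫_ℂ‖ ^ 2 := h1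
        _ ≤ B * (A⁻¹ * ‖x‖ ^ 2) := by gcongr
        _ = _ := by ring
    exact (pow_le_pow_iff_left₀ (norm_nonneg _) (by positivity) two_ne_zero).1 h3
  rw [HasSum, SummationFilter.unconditional_filter, Metric.tendsto_atTop]
  intro ε hε
  have hx : f ∈ closure ((Submodule.span ℂ (Set.range e) : Submodule ℂ E) : Set E) := by
    have : f ∈ (Submodule.span ℂ (Set.range e)).topologicalClosure := by
      rw [h.span_dense]; trivial
    exact this
  rw [Metric.mem_closure_iff] at hx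
  obtain ⟨w, hw, hd⟩ := hx (ε / (C + 1)) (by positivity)
  obtain ⟨t, c, hc, hwe⟩ := mem_span_iff e w hw
  refine ⟨t, fun s hs => ?_⟩
  have h1 : ∀ k, ⟪e' k, w⟫_ℂ = c k := by
    intro k
    rw [hwe, inner_sum]
    simp only [inner_smul_right, hb, mul_ite, mul_one, mul_zero]
    rw [Finset.sum_ite_eq]
    split_ifs with hk
    · rfl
    · exact (hc k hk).symm
  have h2 : ∑ k ∈ s, ⟪e' k, w⟫_ℂ • e k = w := by
    simp only [h1]
    rw [hwe]
    symm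
    refine Finset.sum_subset hs fun k _ hk => ?_
    rw [hc k hk, zero_smul]
  have h3 : ∑ k ∈ s, ⟪e' k, f⟫_ℂ • e k - f = ∑ k ∈ s, ⟪e' k, f - w⟫_ℂ • e k - (f - w) := by
    simp only [inner_sub_right, sub_smul, Finset.sum_sub_distrib]
    rw [h2]
    abel
  rw [dist_eq_norm, h3]
  rw [dist_eq_norm] at hd
  calc _ ≤ ‖∑ k ∈ s, ⟪e' k, f - w⟫_ℂ • e k‖ + ‖f - w‖ := norm_sub_le _ _
    _ ≤ C * ‖f - w‖ + ‖f - w‖ := by gcongr; exact hP s _
    _ = (C + 1) * ‖f - w‖ := by ring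
    _ < (C + 1) * (ε / (C + 1)) := by gcongr
    _ = ε := by field_simp

lemma IsRiesz.inner_expand [CompleteSpace E] [DecidableEq K] (h : IsRiesz e A B) (hB : 0 ≤ B)
    {e' : K → E} (hb : ∀ k l, ⟪e' k, e l⟫_ℂ = if k = l then 1 else 0) (f x : E) :
    HasSum (fun k => ⟪f, e' k⟫_ℂ * ⟪e k, x⟫_ℂ) ⟪f, x⟫_ℂ := by
  have h1 := (innerSLFlip ℂ x).hasSum (h.expand hB hb f)
  simpa [innerSLFlip_apply_apply, inner_smul_left, inner_conj_symm] using h1

/-- Cauchy-Schwarz for a convergent series -/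
lemma cs_hasSum {a b : K → ℂ} {x : ℂ} {α β : ℝ} (hx : HasSum (fun k => a k * b k) x)
    (hα : 0 ≤ α) (hβ : 0 ≤ β)
    (ha : ∀ s : Finset K, ∑ k ∈ s, ‖a k‖ ^ 2 ≤ α ^ 2)
    (hb : ∀ s : Finset K, ∑ k ∈ s, ‖b k‖ ^ 2 ≤ β ^ 2) : ‖x‖ ≤ α * β := by
  refine le_of_tendsto (hx.norm) (Eventually.of_forall fun s => ?_)
  refine (norm_sum_le _ _).trans ?_
  simp only [norm_mul]
  have h1 := Finset.sum_mul_sq_le_sq_mul_sq s (fun k => ‖a k‖) (fun k => ‖b k‖)
  refine (pow_le_pow_iff_left₀ (Finset.sum_nonneg fun _ _ => by positivity) (by positivity)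
    two_ne_zero).1 ?_
  calc _ ≤ _ := h1
    _ ≤ α ^ 2 * β ^ 2 := by
      gcongr
      · exact ha s
      · exact hb s
    _ = _ := by ring

end Pool.Agent.H321R3.Riesz
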