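import Mathlib
import Pool.Agent.H321R3.RieszAbs

set_option autoImplicit false
open Filter Topology
open scoped InnerProductSpace ComplexConjugate

namespace Pool.Agent.H321R3.Riesz

variable {E : Type*} [NormedAddCommGroup E] [InnerProductSpace ℂ E]
variable {G K : Type*} [AddCommGroup G] [AddCommGroup K]

/-- a projective unitary representation of an additive group -/
structure ProjRep (W : G → E →ₗᵢ[ℂ] E) (χ : G → G → ℂ) : Prop where
  norm_χ : ∀ z w, ‖χ z w‖ = 1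
  zero : ∀ f, W 0 f = f
  χ_zero_left : ∀ z, χ 0 z = 1
  χ_zero_right : ∀ z, χ z 0 = 1
  comp : ∀ z w f, W z (W w f) = χ z w • W (z + w) f

variable {W : G → E →ₗᵢ[ℂ] E} {χ : G → G → ℂ}

lemma ProjRep.χ_ne (h : ProjRep W χ) (z w : G) : χ z w ≠ 0 := by
  intro h0
  have := h.norm_χ z w
  rw [h0, norm_zero] at this
  exact zero_ne_one this

lemma ProjRep.conj_mul (h : ProjRep W χ) (z w : G) : conj (χ z w) * χ z w = 1 := by
  rw [Complex.conj_mul', h.norm_χ]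
  norm_num

/-- the adjoint up to a phase -/
lemma ProjRep.adj (h : ProjRep W χ) (z : G) (f x : E) :
    ⟪W z f, x⟫_ℂ = (χ z (-z))⁻¹ * ⟪f, W (-z) x⟫_ℂ := by
  have h1 : x = (χ z (-z))⁻¹ • W z (W (-z) x) := by
    rw [h.comp, add_neg_cancel, h.zero, smul_smul, inv_mul_cancel₀ (h.χ_ne _ _), one_smul]
  conv_lhs => rw [h1]
  rw [inner_smul_right, LinearIsometry.inner_map_map]

lemma ProjRep.comm (h : ProjRep W χ) (z w : G) (f : E) :
    W z (W w f) = (χ z w * (χ w z)⁻¹) • W w (W z f) := by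
  rw [h.comp, h.comp, smul_smul, add_comm w z, mul_assoc, inv_mul_cancel₀ (h.χ_ne _ _), mul_one]

variable {lam : K →+ G} {g g' : E} {A B : ℝ}

lemma ProjRep.biorth [DecidableEq K] (h : ProjRep W χ)
    (hg' : ∀ k, ⟪g', W (lam k) g⟫_ℂ = if k = 0 then 1 else 0) (k l : K) :
    ⟪W (lam k) g', W (lam l) g⟫_ℂ = if k = l then 1 else 0 := by
  have h1 : W (lam l) g = (χ (lam k) (lam (l - k)))⁻¹ • W (lam k) (W (lam (l - k)) g) := by
    rw [h.comp, ← map_add, add_sub_cancel, smul_smul, inv_mul_cancel₀ (h.χ_ne _ _), one_smul]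
  rw [h1, inner_smul_right, LinearIsometry.inner_map_map, hg']
  split_ifs with h2 h3 h3
  · have h4 : l = k := sub_eq_zero.1 h2
    rw [h4, sub_self, map_zero, h.χ_zero_right]
    norm_num
  · exact absurd (sub_eq_zero.1 h2).symm h3
  · exact absurd (sub_eq_zero.2 h3.symm) h2
  · rw [mul_zero]

/-- **The dual window depends in a Lipschitz way on the window**, along the group. -/
lemma ProjRep.lipschitz [CompleteSpace E] [DecidableEq K] (h : ProjRep W χ)
    (hr : IsRiesz (fun k => W (lam k) g) A B) (hB : 0 ≤ B)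
    (hg' : ∀ k, ⟪g', W (lam k) g⟫_ℂ = if k = 0 then 1 else 0) (u : G) :
    ‖W u g' - g'‖ ≤ A⁻¹ * ‖W u g - g‖ := by
  have hA := hr.A_pos
  have hb := h.biorth hg'
  set v := W u g' - g' with hv
  set w := g - W u g with hw
  have hex := hr.inner_expand hB (e' := fun k => W (lam k) g') hb v v
  have hα : ∀ s : Finset K, ∑ k ∈ s, ‖⟪v, W (lam k) g'⟫_ℂ‖ ^ 2 ≤ ((Real.sqrt A)⁻¹ * ‖v‖) ^ 2 := by
    intro s
    have := hr.bessel_dual (e' := fun k => W (lam k) g') hb s v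
    rw [mul_pow, inv_pow, Real.sq_sqrt hA.le]
    refine le_trans (le_of_eq ?_) this
    refine Finset.sum_congr rfl fun k _ => ?_
    rw [norm_inner_symm]
  have hkey : ∀ k, ‖⟪W (lam k) g, v⟫_ℂ‖ = ‖⟪W (lam (-k)) g', W (-u) w⟫_ℂ‖ := by
    intro k
    have e1 : ⟪W (lam k) g, g'⟫_ℂ = if k = 0 then 1 else 0 := by
      rw [← inner_conj_symm, hg']
      split_ifs <;> simp
    have e2 : ⟪W (lam k) (W u g), W u g'⟫_ℂ = if k = 0 then 1 else 0 := by
      rw [h.comm, inner_smul_left, LinearIsometry.inner_map_map, e1]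
      split_ifs with hk
      · rw [hk, map_zero, h.χ_zero_left, h.χ_zero_right]
        simp
      · rw [mul_zero]
    have e3 : ⟪W (lam k) g, v⟫_ℂ = ⟪W (lam k) w, W u g'⟫_ℂ := by
      rw [hv, hw, inner_sub_right, e1, map_sub, inner_sub_left, e2]
    rw [e3]
    have e4 : ‖⟪W (lam k) w, W u g'⟫_ℂ‖ = ‖⟪W (-u) (W (lam k) w), g'⟫_ℂ‖ := by
      rw [← inner_conj_symm, RCLike.norm_conj, h.adj, norm_mul, norm_inv, h.norm_χ, inv_one,
        one_mul, norm_inner_symm]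
    rw [e4, h.comm, inner_smul_left, norm_mul, RCLike.norm_conj, norm_mul, norm_inv, h.norm_χ,
      h.norm_χ, inv_one, one_mul, one_mul, h.adj, norm_mul, norm_inv, h.norm_χ, inv_one, one_mul,
      ← map_neg, norm_inner_symm]
  have hβ : ∀ s : Finset K, ∑ k ∈ s, ‖⟪W (lam k) g, v⟫_ℂ‖ ^ 2 ≤ ((Real.sqrt A)⁻¹ * ‖w‖) ^ 2 := by
    intro s
    simp only [hkey]
    have := hr.bessel_dual (e' := fun k => W (lam k) g') hb
      (s.map (Equiv.neg K).toEmbedding) (W (-u) w)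
    rw [Finset.sum_map] at this
    rw [mul_pow, inv_pow, Real.sq_sqrt hA.le]
    rw [LinearIsometry.norm_map] at this
    exact this
  have h1 := cs_hasSum hex (by positivity) (by positivity) hα hβ
  rw [inner_self_eq_norm_sq_to_K] at h1
  have h2 : ‖((‖v‖ : ℂ)) ^ 2‖ = ‖v‖ ^ 2 := by
    rw [norm_pow, Complex.norm_real, norm_norm]
  have h1' : ‖v‖ ^ 2 ≤ (Real.sqrt A)⁻¹ * ‖v‖ * ((Real.sqrt A)⁻¹ * ‖w‖) := by
    rw [← h2]; exact h1
  have h3 : (Real.sqrt A)⁻¹ * ‖v‖ * ((Real.sqrt A)⁻¹ * ‖w‖) = A⁻¹ * ‖w‖ * ‖v‖ := by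
    have : (Real.sqrt A)⁻¹ * (Real.sqrt A)⁻¹ = A⁻¹ := by
      rw [← mul_inv, Real.mul_self_sqrt hA.le]
    rw [← this]; ring
  rw [h3] at h1'
  have h4 : ‖w‖ = ‖W u g - g‖ := norm_sub_rev _ _
  rw [← h4]
  by_cases hv0 : ‖v‖ = 0
  · rw [hv0]; positivity
  · have hv1 : 0 < ‖v‖ := lt_of_le_of_ne (norm_nonneg _) (Ne.symm hv0)
    rw [sq] at h1'
    exact le_of_mul_le_mul_right h1' hv1

end Pool.Agent.H321R3.Riesz
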