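import Mathlib
import Pool.Agent.H321R3.RieszTF

set_option autoImplicit false
open Filter Topology
open scoped InnerProductSpace ComplexConjugate

namespace Pool.Agent.H321R3.Riesz

variable {E : Type*} [NormedAddCommGroup E] [InnerProductSpace ℂ E]
variable {G K : Type*} [AddCommGroup G] [AddCommGroup K]
variable {W : G → E →ₗᵢ[ℂ] E} {χ : G → G → ℂ}
variable {lam : K →+ G} {g g' : E} {A B : ℝ}

lemma ProjRep.χ_symm (h : ProjRep W χ) {f : E} (hf : f ≠ 0) (z : G) : χ z (-z) = χ (-z) z := by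
  have h1 : W z (W (-z) (W z f)) = χ z (-z) • W z f := by
    rw [h.comp, add_neg_cancel, h.zero]
  have h2 : W z (W (-z) (W z f)) = χ (-z) z • W z f := by
    rw [h.comp (-z) z f, neg_add_cancel, h.zero, map_smul]
  have h3 : W z f ≠ 0 := by
    intro h0
    apply hf
    rw [← norm_eq_zero, ← LinearIsometry.norm_map (W z), h0, norm_zero]
  have h4 : (χ z (-z) - χ (-z) z) • W z f = 0 := by
    rw [sub_smul, ← h1, ← h2, sub_self]
  rcases smul_eq_zero.1 h4 with h5 | h5
  · exact sub_eq_zero.1 h5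
  · exact absurd h5 h3

/-- Battle's argument, in a form which needs the second operator only through difference
quotients of `g`. -/
theorem ProjRep.battle [CompleteSpace E] [DecidableEq K] (h : ProjRep W χ)
    (hr : IsRiesz (fun k => W (lam k) g) A B) (hB : 0 ≤ B)
    (hg' : ∀ k, ⟪g', W (lam k) g⟫_ℂ = if k = 0 then 1 else 0)
    (G1 D1 : E) (hc1 : ∀ k, ⟪G1, W (lam k) g'⟫_ℂ = ⟪g, W (lam k) D1⟫_ℂ)
    (s : ℕ → ℝ) (hs0 : ∀ n, s n ≠ 0) (hs : Tendsto s atTop (𝓝 0)) (v : ℕ → G)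
    (hv : ∀ n, χ (v n) (-(v n)) = 1)
    (hc2 : ∀ n, ⟪G1, W (v n) g'⟫_ℂ - ⟪W (-(v n)) g, D1⟫_ℂ = (s n : ℂ) * ⟪W (-(v n)) g, g'⟫_ℂ)
    (C : ℝ) (hc3 : ∀ n, ‖W (-(v n)) g - g‖ ≤ C * |s n|)
    (hq : ∀ k, Tendsto (fun n => χ (-(v n)) (lam k) * (χ (lam k) (-(v n)))⁻¹) atTop (𝓝 1)) :
    False := by
  have hA := hr.A_pos
  have hb := h.biorth hg'
  have hgg : ⟪g, g'⟫_ℂ = 1 := by
    have := hg' 0
    rw [map_zero, h.zero, if_pos rfl] at this
    rw [← inner_conj_symm, this, map_one]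
  have hg0 : g ≠ 0 := by
    rintro rfl
    rw [inner_zero_left] at hgg
    exact zero_ne_one hgg
  set α : K → ℂ := fun k => ⟪G1, W (lam k) g'⟫_ℂ with hα
  set q : ℕ → K → ℂ := fun n k => χ (-(v n)) (lam k) * (χ (lam k) (-(v n)))⁻¹ with hqdef
  set y : ℕ → E := fun n => W (-(v n)) g - g with hy
  set β : ℕ → K → ℂ := fun n k => ⟪W (lam k) (y n), g'⟫_ℂ with hβ
  have hqn : ∀ n k, ‖q n k‖ = 1 := by
    intro n k
    rw [hqdef]
    simp only [norm_mul, norm_inv, h.norm_χ, inv_one, mul_one]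
  have e1 : ∀ k, ⟪W (lam k) g, g'⟫_ℂ = if k = 0 then 1 else 0 := by
    intro k
    rw [← inner_conj_symm, hg']
    split_ifs <;> simp
  -- first expansion
  have hx1 : ∀ n k, ⟪W (lam k) g, W (v n) g' - g'⟫_ℂ = conj (q n k) * β n k := by
    intro n k
    have e2 : ⟪W (lam k) g, W (v n) g'⟫_ℂ = conj (q n k) * ⟪W (lam k) (W (-(v n)) g), g'⟫_ℂ := by
      rw [← inner_conj_symm, h.adj, hv, inv_one, one_mul, inner_conj_symm, h.comm, inner_smul_left]
    have e3 : ⟪W (lam k) g, g'⟫_ℂ = conj (q n k) * ⟪W (lam k) g, g'⟫_ℂ := by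
      rw [e1]
      split_ifs with hk
      · rw [hqdef, hk]
        simp only [map_zero, h.χ_zero_left, h.χ_zero_right]
        simp
      · rw [mul_zero]
    rw [inner_sub_right, e2]
    conv_lhs => rw [e3]
    rw [← mul_sub, ← inner_sub_left, ← map_sub]
  have hH1 : ∀ n, HasSum (fun k => α k * (conj (q n k) * β n k)) ⟪G1, W (v n) g' - g'⟫_ℂ := by
    intro n
    have := hr.inner_expand hB (e' := fun k => W (lam k) g') hb G1 (W (v n) g' - g')
    simpa only [hx1] using this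
  -- second expansion
  have hH2 : ∀ n, HasSum (fun k => α k * β n k) ⟪y n, D1⟫_ℂ := by
    intro n
    have h1 := hr.inner_expand hB (e' := fun k => W (lam k) g') hb (y n) D1
    have h2 := (Equiv.neg K).hasSum_iff.2 h1
    convert h2 using 1
    funext k
    simp only [Function.comp, Equiv.neg_apply, map_neg]
    have e4 : β n k = (χ (lam k) (-(lam k)))⁻¹ * ⟪y n, W (-(lam k)) g'⟫_ℂ := by
      rw [hβ]; simp only; rw [h.adj]
    have e5 : ⟪W (-(lam k)) g, D1⟫_ℂ = (χ (-(lam k)) (lam k))⁻¹ * α k := by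
      rw [h.adj, neg_neg, hα]; simp only; rw [hc1]
    rw [e4, e5, h.χ_symm hg0 (lam k)]
    ring
  have hH3 : ∀ n, HasSum (fun k => (α k * (conj (q n k) - 1)) * β n k)
      ((s n : ℂ) * ⟪W (-(v n)) g, g'⟫_ℂ) := by
    intro n
    have h1 := (hH1 n).sub (hH2 n)
    have h2 : ⟪G1, W (v n) g' - g'⟫_ℂ - ⟪y n, D1⟫_ℂ = (s n : ℂ) * ⟪W (-(v n)) g, g'⟫_ℂ := by
      have h3 := hc1 0
      rw [map_zero, h.zero, h.zero] at h3
      rw [← hc2, hy]
      simp only
      rw [inner_sub_right, inner_sub_left, h3]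
      ring
    rw [h2] at h1
    have h3 : (fun k => (α k * (conj (q n k) - 1)) * β n k) =
        fun k => α k * (conj (q n k) * β n k) - α k * β n k := by
      funext k
      ring
    rw [h3]
    exact h1
  -- square summability of alpha
  have hαs : Summable (fun k => ‖α k‖ ^ 2) := by
    refine summable_of_sum_le (c := A⁻¹ * ‖G1‖ ^ 2) (fun _ => by positivity) fun t => ?_
    have := hr.bessel_dual (e' := fun k => W (lam k) g') hb t G1
    refine le_trans (le_of_eq ?_) this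
    refine Finset.sum_congr rfl fun k _ => ?_
    rw [hα]; simp only; rw [norm_inner_symm]
  have hqb : ∀ n k, ‖conj (q n k) - 1‖ ≤ 2 := by
    intro n k
    refine (norm_sub_le _ _).trans ?_
    rw [RCLike.norm_conj, hqn, norm_one]
    norm_num
  have hbd : ∀ n k, ‖α k * (conj (q n k) - 1)‖ ^ 2 ≤ 4 * ‖α k‖ ^ 2 := by
    intro n k
    rw [norm_mul, mul_pow]
    have : ‖conj (q n k) - 1‖ ^ 2 ≤ 2 ^ 2 := by
      gcongr
      exact hqb n k
    nlinarith [sq_nonneg ‖α k‖]
  have hTs : ∀ n, Summable (fun k => ‖α k * (conj (q n k) - 1)‖ ^ 2) := fun n =>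
    Summable.of_nonneg_of_le (fun _ => by positivity) (hbd n) (hαs.mul_left 4)
  set T : ℕ → ℝ := fun n => ∑' k, ‖α k * (conj (q n k) - 1)‖ ^ 2 with hT
  have hT0 : ∀ n, 0 ≤ T n := fun n => tsum_nonneg fun _ => by positivity
  have hTlim : Tendsto T atTop (𝓝 0) := by
    have := tendsto_tsum_of_dominated_convergence (𝓕 := atTop)
      (f := fun n k => ‖α k * (conj (q n k) - 1)‖ ^ 2) (g := fun _ => (0 : ℝ))
      (bound := fun k => 4 * ‖α k‖ ^ 2) (hαs.mul_left 4) (fun k => ?_)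
      (Eventually.of_forall fun n k => ?_)
    · rw [tsum_zero] at this
      exact this
    · have h1 : Tendsto (fun n => conj (q n k)) atTop (𝓝 (conj 1)) :=
        (Complex.continuous_conj.tendsto _).comp (hq k)
      rw [map_one] at h1
      have h2 := ((h1.sub_const 1).const_mul (α k)).norm.pow 2
      simpa using h2
    · rw [Real.norm_of_nonneg (by positivity)]
      exact hbd n k
  -- the estimate
  have hβs : ∀ n (t : Finset K), ∑ k ∈ t, ‖β n k‖ ^ 2 ≤ ((Real.sqrt A)⁻¹ * (C * |s n|)) ^ 2 := by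
    intro n t
    have h1 : ∀ k, ‖β n k‖ = ‖⟪W (lam (-k)) g', y n⟫_ℂ‖ := by
      intro k
      rw [hβ]
      simp only
      rw [h.adj, norm_mul, norm_inv, h.norm_χ, inv_one, one_mul, norm_inner_symm, map_neg]
    simp only [h1]
    have := hr.bessel_dual (e' := fun k => W (lam k) g') hb (t.map (Equiv.neg K).toEmbedding) (y n)
    rw [Finset.sum_map] at this
    rw [mul_pow, inv_pow, Real.sq_sqrt hA.le]
    refine le_trans this ?_
    have h2 : ‖y n‖ ^ 2 ≤ (C * |s n|) ^ 2 := by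
      have := hc3 n
      gcongr
    gcongr
  have hest : ∀ n, ‖⟪W (-(v n)) g, g'⟫_ℂ‖ ≤ Real.sqrt (T n) * ((Real.sqrt A)⁻¹ * C) := by
    intro n
    have hC0 : 0 ≤ C * |s n| := (norm_nonneg _).trans (hc3 n)
    have h1 := cs_hasSum (hH3 n) (Real.sqrt_nonneg (T n)) (by positivity)
      (fun t => by
        rw [Real.sq_sqrt (hT0 n)]
        exact (hTs n).sum_le_tsum t (fun _ _ => by positivity)) (hβs n)
    rw [norm_mul, Complex.norm_real, Real.norm_eq_abs] at h1
    have h2 : 0 < |s n| := abs_pos.2 (hs0 n)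
    have h3 : Real.sqrt (T n) * ((Real.sqrt A)⁻¹ * (C * |s n|)) =
      |s n| * (Real.sqrt (T n) * ((Real.sqrt A)⁻¹ * C)) := by ring
    rw [h3] at h1
    exact le_of_mul_le_mul_left h1 h2
  have hlim0 : Tendsto (fun n => ⟪W (-(v n)) g, g'⟫_ℂ) atTop (𝓝 0) := by
    rw [tendsto_zero_iff_norm_tendsto_zero]
    have h1 : Tendsto (fun n => Real.sqrt (T n) * ((Real.sqrt A)⁻¹ * C)) atTop (𝓝 0) := by
      have := ((Real.continuous_sqrt.tendsto 0).comp hTlim).mul_const ((Real.sqrt A)⁻¹ * C)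
      simpa using this
    exact squeeze_zero (fun _ => norm_nonneg _) hest h1
  have hlim1 : Tendsto (fun n => ⟪W (-(v n)) g, g'⟫_ℂ) atTop (𝓝 1) := by
    have h1 : Tendsto (fun n => W (-(v n)) g) atTop (𝓝 g) := by
      rw [tendsto_iff_norm_sub_tendsto_zero]
      have h2 : Tendsto (fun n => C * |s n|) atTop (𝓝 0) := by
        have := (hs.abs).const_mul C
        simpa using this
      exact squeeze_zero (fun _ => norm_nonneg _) hc3 h2
    have h2 := h1.inner (𝕜 := ℂ) (tendsto_const_nhds (x := g'))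
    rwa [hgg] at h2
  exact zero_ne_one (tendsto_nhds_unique hlim0 hlim1)

end Pool.Agent.H321R3.Riesz
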