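import Mathlib
import Pool.Agent.H321R3.RieszBattle

set_option autoImplicit false
open MeasureTheory Filter Topology Set
open scoped InnerProductSpace ComplexConjugate

namespace Pool.Agent.H321R3.TF

open Pool.Agent.H321R3.Riesz

variable {d : ℕ}

/-- the character `exp(2πi b·x)` -/
noncomputable def ph (b x : Fin d → ℝ) : ℂ :=
  Complex.exp (2 * (Real.pi : ℂ) * Complex.I * ((∑ j, b j * x j : ℝ) : ℂ))

lemma norm_ph (b x : Fin d → ℝ) : ‖ph b x‖ = 1 := by
  unfold ph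
  rw [show 2 * (Real.pi : ℂ) * Complex.I * ((∑ j, b j * x j : ℝ) : ℂ) =
    ((2 * Real.pi * (∑ j, b j * x j) : ℝ) : ℂ) * Complex.I by push_cast; ring]
  exact Complex.norm_exp_ofReal_mul_I _

lemma continuous_ph (b : Fin d → ℝ) : Continuous (ph b) := by
  unfold ph
  fun_prop

lemma ph_add_left (b c x : Fin d → ℝ) : ph (b + c) x = ph b x * ph c x := by
  unfold ph
  rw [← Complex.exp_add]
  congr 1
  rw [← mul_add]
  congr 1
  rw [← Complex.ofReal_add, ← Finset.sum_add_distrib]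
  congr 1
  refine Finset.sum_congr rfl fun j _ => ?_
  simp only [Pi.add_apply]
  ring

lemma ph_sub_right (b x y : Fin d → ℝ) : ph b (x - y) = ph b x * (ph b y)⁻¹ := by
  unfold ph
  rw [← Complex.exp_neg, ← Complex.exp_add]
  congr 1
  rw [← mul_neg, ← mul_add]
  congr 1
  rw [← sub_eq_add_neg, ← Complex.ofReal_sub, ← Finset.sum_sub_distrib]
  congr 1
  refine Finset.sum_congr rfl fun j _ => ?_
  simp only [Pi.sub_apply]
  ring

lemma ph_zero_left (x : Fin d → ℝ) : ph 0 x = 1 := by simp [ph]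
lemma ph_zero_right (b : Fin d → ℝ) : ph b 0 = 1 := by simp [ph]

/-- time-frequency shift of a function -/
noncomputable def Wf (z : (Fin d → ℝ) × (Fin d → ℝ)) (f : (Fin d → ℝ) → ℂ) :
    (Fin d → ℝ) → ℂ := fun x => ph z.2 x * f (x - z.1)

lemma memLp_Wf (z : (Fin d → ℝ) × (Fin d → ℝ)) {f : (Fin d → ℝ) → ℂ} (hf : MemLp f 2 volume) :
    MemLp (Wf z f) 2 volume := by
  have h1 : MemLp (fun x => f (x - z.1)) 2 volume :=
    hf.comp_measurePreserving (measurePreserving_sub_right volume z.1)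
  refine h1.mono ?_ (ae_of_all _ fun x => ?_)
  · exact (continuous_ph z.2).aestronglyMeasurable.mul h1.aestronglyMeasurable
  · rw [Wf, norm_mul, norm_ph, one_mul]

lemma eLpNorm_Wf (z : (Fin d → ℝ) × (Fin d → ℝ)) {f : (Fin d → ℝ) → ℂ} (hf : MemLp f 2 volume) :
    eLpNorm (Wf z f) 2 volume = eLpNorm f 2 volume := by
  rw [← eLpNorm_comp_measurePreserving hf.aestronglyMeasurable
    (measurePreserving_sub_right volume z.1)]
  refine eLpNorm_congr_norm_ae (ae_of_all _ fun x => ?_)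
  rw [Wf, norm_mul, norm_ph, one_mul]
  rfl

lemma Wf_congr (z : (Fin d → ℝ) × (Fin d → ℝ)) {f f' : (Fin d → ℝ) → ℂ}
    (h : f =ᵐ[volume] f') : Wf z f =ᵐ[volume] Wf z f' := by
  have h1 := (measurePreserving_sub_right (volume : Measure (Fin d → ℝ))
    z.1).quasiMeasurePreserving.ae_eq_comp h
  filter_upwards [h1] with x hx
  simp only [Function.comp] at hx
  rw [Wf, Wf, hx]

abbrev L2d (d : ℕ) : Type := Lp ℂ 2 (volume : Measure (Fin d → ℝ))

/-- the time-frequency shifts as linear isometries of `L²` -/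
noncomputable def W (z : (Fin d → ℝ) × (Fin d → ℝ)) : L2d d →ₗᵢ[ℂ] L2d d where
  toFun f := (memLp_Wf z (Lp.memLp f)).toLp _
  map_add' f g := by
    apply Lp.ext
    refine (MemLp.coeFn_toLp _).trans ?_
    refine (Wf_congr z (Lp.coeFn_add f g)).trans ?_
    filter_upwards [Lp.coeFn_add ((memLp_Wf z (Lp.memLp f)).toLp (Wf z f))
      ((memLp_Wf z (Lp.memLp g)).toLp (Wf z g)), (memLp_Wf z (Lp.memLp f)).coeFn_toLp,
      (memLp_Wf z (Lp.memLp g)).coeFn_toLp] with x h1 h2 h3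
    rw [h1, Pi.add_apply, h2, h3]
    simp only [Wf, Pi.add_apply]
    ring
  map_smul' c f := by
    apply Lp.ext
    refine (MemLp.coeFn_toLp _).trans ?_
    refine (Wf_congr z (Lp.coeFn_smul c f)).trans ?_
    filter_upwards [Lp.coeFn_smul c ((memLp_Wf z (Lp.memLp f)).toLp (Wf z f)),
      (memLp_Wf z (Lp.memLp f)).coeFn_toLp] with x h1 h2
    rw [RingHom.id_apply, h1, Pi.smul_apply, h2]
    simp only [Wf, Pi.smul_apply, smul_eq_mul]
    ring
  norm_map' f := by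
    show ‖(memLp_Wf z (Lp.memLp f)).toLp _‖ = ‖f‖
    rw [Lp.norm_toLp, eLpNorm_Wf z (Lp.memLp f), Lp.norm_def]

lemma W_coe (z : (Fin d → ℝ) × (Fin d → ℝ)) (f : L2d d) : W z f =ᵐ[volume] Wf z f :=
  (memLp_Wf z (Lp.memLp f)).coeFn_toLp

lemma W_toLp (z : (Fin d → ℝ) × (Fin d → ℝ)) {f : (Fin d → ℝ) → ℂ} (hf : MemLp f 2 volume) :
    W z (hf.toLp f) =ᵐ[volume] Wf z f :=
  (W_coe z _).trans (Wf_congr z hf.coeFn_toLp)

/-- the cocycle -/
noncomputable def χ (z w : (Fin d → ℝ) × (Fin d → ℝ)) : ℂ := (ph w.2 z.1)⁻¹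

lemma Wf_comp (z w : (Fin d → ℝ) × (Fin d → ℝ)) (f : (Fin d → ℝ) → ℂ) (x : Fin d → ℝ) :
    Wf z (Wf w f) x = χ z w * Wf (z + w) f x := by
  simp only [Wf, χ, Prod.snd_add, Prod.fst_add]
  rw [ph_sub_right, ph_add_left, sub_sub]
  ring

lemma projRep : ProjRep (W (d := d)) χ where
  norm_χ z w := by unfold χ; rw [norm_inv, norm_ph, inv_one]
  zero f := by
    apply Lp.ext
    filter_upwards [W_coe 0 f] with x hx
    rw [hx]
    simp [Wf, ph_zero_left]
  χ_zero_left z := by simp [χ, ph_zero_right]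
  χ_zero_right z := by simp [χ, ph_zero_left]
  comp z w f := by
    apply Lp.ext
    refine (W_coe z _).trans ((Wf_congr z (W_coe w f)).trans ?_)
    filter_upwards [Lp.coeFn_smul (χ z w) (W (z + w) f), W_coe (z + w) f] with x h1 h2
    rw [Wf_comp, h1, Pi.smul_apply, h2, smul_eq_mul]

lemma inner_eq (f g : L2d d) : ⟪f, g⟫_ℂ = ∫ x, conj (f x) * g x := by
  rw [L2.inner_def]
  refine integral_congr_ae (ae_of_all _ fun x => ?_)
  simp only [RCLike.inner_apply]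
  ring

lemma norm_sq_eq (f : L2d d) : ‖f‖ ^ 2 = ∫ x, ‖f x‖ ^ 2 := by
  have h1 : ((‖f‖ ^ 2 : ℝ) : ℂ) = ((∫ x, ‖f x‖ ^ 2 : ℝ) : ℂ) := by
    rw [← integral_complex_ofReal]
    have h2 := inner_self_eq_norm_sq_to_K (𝕜 := ℂ) f
    rw [inner_eq] at h2
    have h3 : ((‖f‖ : ℂ)) ^ 2 = ∫ x, conj (f x) * f x := h2.symm
    push_cast
    rw [h3]
    refine integral_congr_ae (ae_of_all _ fun x => ?_)
    simp only [Complex.conj_mul']
  exact_mod_cast h1

/-- multiplication by `x_j` against a time-frequency shift -/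
lemma X_comm (j : Fin d) (u v : L2d d) (Xu Xv : L2d d)
    (hu : Xu =ᵐ[volume] fun x => (x j : ℂ) * u x) (hv : Xv =ᵐ[volume] fun x => (x j : ℂ) * v x)
    (z : (Fin d → ℝ) × (Fin d → ℝ)) :
    ⟪Xu, W z v⟫_ℂ = ⟪u, W z Xv⟫_ℂ + (z.1 j : ℂ) * ⟪u, W z v⟫_ℂ := by
  have h1 : (z.1 j : ℂ) * ⟪u, W z v⟫_ℂ = ⟪u, (z.1 j : ℂ) • W z v⟫_ℂ := by rw [inner_smul_right]
  rw [h1, ← inner_add_right, inner_eq, inner_eq]
  refine integral_congr_ae ?_
  have h2 := Wf_congr z hv
  filter_upwards [hu, W_coe z v, W_coe z Xv, h2, Lp.coeFn_add (W z Xv) ((z.1 j : ℂ) • W z v),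
    Lp.coeFn_smul (z.1 j : ℂ) (W z v)] with x e1 e2 e3 e4 e5 e6
  rw [e1, e5, Pi.add_apply, e6, Pi.smul_apply, e3, e4, e2]
  simp only [Wf, map_mul, Complex.conj_ofReal, smul_eq_mul, Pi.sub_apply]
  push_cast
  ring

end Pool.Agent.H321R3.TF
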