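import Mathlib

set_option autoImplicit false
open MeasureTheory Filter Topology Set
open scoped InnerProductSpace ComplexConjugate

namespace Pool.Agent.H321R3.WD

variable {d : ℕ}

lemma hasDerivAt_shift (g ψ : (Fin d → ℝ) → ℂ) (hg : MemLp g 2 volume) (e : Fin d → ℝ)
    (hψ : ContDiff ℝ ((⊤ : ℕ∞) : WithTop ℕ∞) ψ) (hψc : HasCompactSupport ψ) (s0 : ℝ) :
    HasDerivAt (fun s : ℝ => ∫ x, g x * ψ (x - s • e))
      (∫ x, g x * (- fderiv ℝ ψ (x - s0 • e) e)) s0 := by
  have hψ1 : ContDiff ℝ 1 ψ := hψ.of_le (by exact_mod_cast le_top)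
  have hcont : Continuous ψ := hψ.continuous
  have hdc : Continuous (fderiv ℝ ψ) := hψ1.continuous_fderiv (by norm_num)
  have hdsupp : HasCompactSupport (fderiv ℝ ψ) := hψc.fderiv ℝ
  obtain ⟨M, hM⟩ := hdsupp.exists_bound_of_continuous hdc
  have hM0 : 0 ≤ M := (norm_nonneg _).trans (hM 0)
  -- the compact set
  set K : Set (Fin d → ℝ) := (fun p : (Fin d → ℝ) × ℝ => p.1 + p.2 • e) ''
    (tsupport ψ ×ˢ Metric.closedBall s0 1) with hK
  have hKc : IsCompact K := by
    refine IsCompact.image (IsCompact.prod hψc (isCompact_closedBall _ _)) (by fun_prop)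
  have hmem : ∀ s ∈ Metric.ball s0 1, ∀ x, x ∉ K → x - s • e ∉ tsupport ψ := by
    intro s hs x hx hx2
    exact hx ⟨(x - s • e, s), ⟨hx2, Metric.ball_subset_closedBall hs⟩, by simp⟩
  have hgK : Integrable g (volume.restrict K) := by
    have : IsFiniteMeasure (volume.restrict K : Measure (Fin d → ℝ)) :=
      ⟨by rw [Measure.restrict_apply_univ]; exact hKc.measure_lt_top⟩
    exact (hg.restrict K).integrable (by norm_num)
  have hind : Integrable (K.indicator g) volume := by
    rw [integrable_indicator_iff hKc.measurableSet]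
    exact hgK
  have hbi : Integrable (fun x => ‖K.indicator g x‖ * (M * ‖e‖)) volume := hind.norm.mul_const _
  have hgm := hg.aestronglyMeasurable
  have hs0 : s0 ∈ Metric.ball s0 1 := Metric.mem_ball_self one_pos
  have hzero : ∀ s ∈ Metric.ball s0 1, ∀ x, x ∉ K → fderiv ℝ ψ (x - s • e) = 0 := by
    intro s hs x hx
    by_contra hne
    exact hmem s hs x hx (support_fderiv_subset ℝ hne)
  refine (hasDerivAt_integral_of_dominated_loc_of_deriv_le (μ := volume)
    (F := fun (s : ℝ) x => g x * ψ (x - s • e))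
    (F' := fun (s : ℝ) x => g x * (- fderiv ℝ ψ (x - s • e) e))
    (bound := fun x => ‖K.indicator g x‖ * (M * ‖e‖))
    (s := Metric.ball s0 1) (Metric.ball_mem_nhds s0 one_pos) ?_ ?_ ?_ ?_ hbi ?_).2
  · exact Eventually.of_forall fun s => hgm.mul (by fun_prop : Continuous fun x => ψ (x - s • e)).aestronglyMeasurable
  · -- integrable F s0
    obtain ⟨N, hN⟩ := hψc.exists_bound_of_continuous hcont
    refine (hind.norm.mul_const N).mono'
      (hgm.mul (by fun_prop : Continuous fun x => ψ (x - s0 • e)).aestronglyMeasurable)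
      (ae_of_all _ fun x => ?_)
    by_cases hx : x ∈ K
    · rw [norm_mul, Set.indicator_of_mem hx]
      exact mul_le_mul_of_nonneg_left (hN _) (norm_nonneg _)
    · have : ψ (x - s0 • e) = 0 := image_eq_zero_of_notMem_tsupport (hmem s0 hs0 x hx)
      rw [this, mul_zero, norm_zero]
      exact mul_nonneg (norm_nonneg _) ((norm_nonneg _).trans (hN 0))
  · refine hgm.mul ?_
    exact (by fun_prop : Continuous fun x => - fderiv ℝ ψ (x - s0 • e) e).aestronglyMeasurable
  · refine ae_of_all _ fun x s hs => ?_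
    by_cases hx : x ∈ K
    · rw [norm_mul, Set.indicator_of_mem hx, norm_neg]
      refine mul_le_mul_of_nonneg_left ?_ (norm_nonneg _)
      refine (ContinuousLinearMap.le_opNorm _ _).trans ?_
      exact mul_le_mul_of_nonneg_right (hM _) (norm_nonneg _)
    · rw [hzero s hs x hx]
      simp only [zero_apply, neg_zero, mul_zero, norm_zero]
      positivity
  · refine ae_of_all _ fun x s hs => ?_
    have h1 : HasDerivAt (fun s : ℝ => x - s • e) (-e) s := by
      have := ((hasDerivAt_id s).smul_const e).const_sub x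
      simpa using this
    have h2 : HasFDerivAt ψ (fderiv ℝ ψ (x - s • e)) (x - s • e) :=
      (hψ1.differentiable (by norm_num) _).hasFDerivAt
    have h3 := h2.comp_hasDerivAt s h1
    rw [map_neg] at h3
    exact h3.const_mul (g x)

lemma shift_contDiff (ψ : (Fin d → ℝ) → ℂ) (a : Fin d → ℝ)
    (hψ : ContDiff ℝ ((⊤ : ℕ∞) : WithTop ℕ∞) ψ) :
    ContDiff ℝ ((⊤ : ℕ∞) : WithTop ℕ∞) (fun x => ψ (x - a)) :=
  hψ.comp (contDiff_id.sub contDiff_const)

lemma shift_supp (ψ : (Fin d → ℝ) → ℂ) (a : Fin d → ℝ) (hψc : HasCompactSupport ψ) :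
    HasCompactSupport (fun x => ψ (x - a)) :=
  hψc.comp_homeomorph (Homeomorph.subRight a)

lemma norm_integral_mul_le (u w : (Fin d → ℝ) → ℂ) (hu : MemLp u 2 volume) (hw : MemLp w 2 volume) :
    ‖∫ x, u x * w x‖ ≤ (eLpNorm u 2 volume).toReal * (eLpNorm w 2 volume).toReal := by
  have hw' : MemLp (fun x => conj (w x)) 2 volume := hw.star
  have h1 := norm_inner_le_norm (𝕜 := ℂ) (hw'.toLp _) (hu.toLp _)
  rw [L2.inner_def] at h1
  have h2 : ∫ a, ⟪(hw'.toLp (fun x => conj (w x)) : Lp ℂ 2 volume) a, (hu.toLp u : Lp ℂ 2 volume) a⟫_ℂ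
      = ∫ x, u x * w x := by
    refine integral_congr_ae ?_
    filter_upwards [hw'.coeFn_toLp, hu.coeFn_toLp] with x h3 h4
    rw [h3, h4, RCLike.inner_apply, RCLike.conj_conj]
  rw [h2, Lp.norm_toLp, Lp.norm_toLp, mul_comm] at h1
  have h3 : eLpNorm (fun x => conj (w x)) 2 volume = eLpNorm w 2 volume := by
    refine eLpNorm_congr_norm_ae (ae_of_all _ fun x => ?_)
    exact RCLike.norm_conj _
  rwa [h3] at h1

lemma eLpNorm_shift (w : (Fin d → ℝ) → ℂ) (hw : MemLp w 2 volume) (a : Fin d → ℝ) :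
    eLpNorm (fun x => w (x - a)) 2 volume = eLpNorm w 2 volume :=
  eLpNorm_comp_measurePreserving hw.aestronglyMeasurable (measurePreserving_sub_right volume a)

theorem shift_le (g h : (Fin d → ℝ) → ℂ) (hg : MemLp g 2 volume) (hh : MemLp h 2 volume)
    (e : Fin d → ℝ)
    (hw : ∀ φ : (Fin d → ℝ) → ℂ, ContDiff ℝ ((⊤ : ℕ∞) : WithTop ℕ∞) φ → HasCompactSupport φ →
      ∫ x, g x * fderiv ℝ φ x e = - ∫ x, h x * φ x)
    (ψ : (Fin d → ℝ) → ℂ) (hψ : ContDiff ℝ ((⊤ : ℕ∞) : WithTop ℕ∞) ψ) (hψc : HasCompactSupport ψ)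
    (s : ℝ) :
    ‖(∫ x, g x * ψ (x - s • e)) - ∫ x, g x * ψ x‖ ≤
      (eLpNorm h 2 volume).toReal * (eLpNorm ψ 2 volume).toReal * |s| := by
  set F : ℝ → ℂ := fun s => ∫ x, g x * ψ (x - s • e) with hF
  set C : ℝ := (eLpNorm h 2 volume).toReal * (eLpNorm ψ 2 volume).toReal with hC
  have hψ2 : MemLp ψ 2 volume := hψ.continuous.memLp_of_hasCompactSupport hψc
  have hder : ∀ s : ℝ, HasDerivAt F (∫ x, h x * ψ (x - s • e)) s := by
    intro s0
    have h1 := hasDerivAt_shift g ψ hg e hψ hψc s0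
    have h2 := hw (fun x => ψ (x - s0 • e)) (shift_contDiff ψ _ hψ) (shift_supp ψ _ hψc)
    have h3 : ∫ x, g x * (- fderiv ℝ ψ (x - s0 • e) e) = ∫ x, h x * ψ (x - s0 • e) := by
      have h4 : ∀ x, fderiv ℝ (fun x => ψ (x - s0 • e)) x e = fderiv ℝ ψ (x - s0 • e) e := by
        intro x
        rw [fderiv_comp_sub]
      simp only [h4] at h2
      simp only [mul_neg, integral_neg, h2, neg_neg]
    rw [h3] at h1
    exact h1
  have hbd : ∀ s : ℝ, ‖∫ x, h x * ψ (x - s • e)‖ ≤ C := by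
    intro s
    have := norm_integral_mul_le h (fun x => ψ (x - s • e)) hh
      (hψ2.comp_measurePreserving (measurePreserving_sub_right volume (s • e)))
    rwa [eLpNorm_shift ψ hψ2] at this
  have h0 : F 0 = ∫ x, g x * ψ x := by simp [hF]
  rw [← h0]
  show ‖F s - F 0‖ ≤ C * |s|
  have := Convex.norm_image_sub_le_of_norm_hasDerivWithin_le
    (f := F) (f' := fun s : ℝ => ∫ x, h x * ψ (x - s • e)) (C := C) (s := (univ : Set ℝ))
    (x := 0) (y := s)
    (fun x _ => (hder x).hasDerivWithinAt) (fun x _ => hbd x) convex_univ (mem_univ 0) (mem_univ s)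
  simpa using this

end Pool.Agent.H321R3.WD
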