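import Mathlib
import Pool.Agent.H321R3.TFRep
import Pool.Agent.H321R3.WeakDeriv

set_option autoImplicit false
open MeasureTheory Filter Topology Set
open scoped InnerProductSpace ComplexConjugate

namespace Pool.Agent.H321R3.BLT

open Pool.Agent.H321R3.Riesz Pool.Agent.H321R3.TF Pool.Agent.H321R3.WD

variable {d : ℕ}

/-- the lattice points -/
noncomputable def lam (M : Matrix (Fin d ⊕ Fin d) (Fin d ⊕ Fin d) ℝ) :
    (Fin d ⊕ Fin d → ℤ) →+ (Fin d → ℝ) × (Fin d → ℝ) where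
  toFun k := (fun i => Matrix.mulVec M (fun i => ((k i : ℤ) : ℝ)) (Sum.inl i),
    fun i => Matrix.mulVec M (fun i => ((k i : ℤ) : ℝ)) (Sum.inr i))
  map_zero' := by
    ext i <;> simp [Matrix.mulVec, dotProduct]
  map_add' k l := by
    ext i <;> simp [Matrix.mulVec, dotProduct, mul_add, Finset.sum_add_distrib]

lemma sum_coe (z : (Fin d ⊕ Fin d → ℤ) → (Fin d → ℝ) × (Fin d → ℝ)) {g : (Fin d → ℝ) → ℂ}
    (hg : MemLp g 2 volume) (s : Finset (Fin d ⊕ Fin d → ℤ)) (c : (Fin d ⊕ Fin d → ℤ) → ℂ) :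
    ((∑ k ∈ s, c k • W (z k) (hg.toLp g) : L2d d) : (Fin d → ℝ) → ℂ) =ᵐ[volume]
      fun x => ∑ k ∈ s, c k * Wf (z k) g x := by
  classical
  induction s using Finset.induction_on with
  | empty =>
    simp only [Finset.sum_empty]
    exact Lp.coeFn_zero _ _ _
  | insert a s ha ih =>
    rw [Finset.sum_insert ha]
    refine (Lp.coeFn_add _ _).trans ?_
    filter_upwards [ih, Lp.coeFn_smul (c a) (W (z a) (hg.toLp g)), W_toLp (z a) hg] with x h1 h2 h3
    rw [Pi.add_apply, h1, h2, Pi.smul_apply, h3, Finset.sum_insert ha, smul_eq_mul]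

lemma isRiesz (M : Matrix (Fin d ⊕ Fin d) (Fin d ⊕ Fin d) ℝ) {g : (Fin d → ℝ) → ℂ}
    (hg : MemLp g 2 volume)
    (hcomp : ∀ h : (Fin d → ℝ) → ℂ, MemLp h 2 volume →
      (∀ k : Fin d ⊕ Fin d → ℤ, ∫ x, conj (h x) * Wf (lam M k) g x = 0) → h =ᵐ[volume] 0)
    (A B : ℝ) (hA : 0 < A)
    (hAB : ∀ (s : Finset (Fin d ⊕ Fin d → ℤ)) (c : (Fin d ⊕ Fin d → ℤ) → ℂ),
      A * ∑ k ∈ s, ‖c k‖ ^ 2 ≤ ∫ x, ‖∑ k ∈ s, c k * Wf (lam M k) g x‖ ^ 2 ∧
      ∫ x, ‖∑ k ∈ s, c k * Wf (lam M k) g x‖ ^ 2 ≤ B * ∑ k ∈ s, ‖c k‖ ^ 2) :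
    IsRiesz (fun k => W (lam M k) (hg.toLp g)) A B := by
  have hn : ∀ (s : Finset (Fin d ⊕ Fin d → ℤ)) (c : (Fin d ⊕ Fin d → ℤ) → ℂ),
      ‖∑ k ∈ s, c k • W (lam M k) (hg.toLp g)‖ ^ 2 =
        ∫ x, ‖∑ k ∈ s, c k * Wf (lam M k) g x‖ ^ 2 := by
    intro s c
    rw [norm_sq_eq]
    refine integral_congr_ae ?_
    filter_upwards [sum_coe (lam M) hg s c] with x hx
    rw [hx]
  refine ⟨hA, fun s c => ?_, fun s c => ?_, fun h hh => ?_⟩
  · rw [hn]; exact (hAB s c).1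
  · rw [hn]; exact (hAB s c).2
  · have h1 := hcomp h (Lp.memLp h) (fun k => by
      have h2 := hh k
      rw [inner_eq] at h2
      rw [← h2]
      refine integral_congr_ae ?_
      filter_upwards [W_toLp (lam M k) hg] with x hx
      rw [hx])
    apply Lp.ext
    exact h1.trans (Lp.coeFn_zero _ _ _).symm

/-- modulation difference bound -/
lemma modulation_le (j : Fin d) (g : L2d d) (Xg : L2d d)
    (hX : Xg =ᵐ[volume] fun x => (x j : ℂ) * g x) (t : ℝ) :
    ‖W ((0 : Fin d → ℝ), Pi.single j t) g - g‖ ≤ 2 * Real.pi * |t| * ‖Xg‖ := by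
  have h1 : ‖W ((0 : Fin d → ℝ), Pi.single j t) g - g‖ ≤ ‖((2 * Real.pi * t : ℝ) : ℂ) • Xg‖ := by
    refine Lp.norm_le_norm_of_ae_le ?_
    filter_upwards [Lp.coeFn_sub (W ((0 : Fin d → ℝ), Pi.single j t) g) g,
      W_coe ((0 : Fin d → ℝ), Pi.single j t) g, Lp.coeFn_smul ((2 * Real.pi * t : ℝ) : ℂ) Xg, hX]
      with x e1 e2 e3 e4
    rw [e1, Pi.sub_apply, e2, e3, Pi.smul_apply, e4]
    simp only [Wf, sub_zero, smul_eq_mul]
    have e5 : ph (Pi.single j t) x = Complex.exp (Complex.I * ((2 * Real.pi * t * x j : ℝ) : ℂ)) := by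
      unfold ph
      congr 1
      have : ∑ i, (Pi.single j t : Fin d → ℝ) i * x i = t * x j := by
        rw [Finset.sum_eq_single j]
        · simp
        · intro b _ hb
          simp [hb]
        · simp
      rw [this]
      push_cast
      ring
    rw [e5]
    have e6 : Complex.exp (Complex.I * ((2 * Real.pi * t * x j : ℝ) : ℂ)) * g x - g x =
      (Complex.exp (Complex.I * ((2 * Real.pi * t * x j : ℝ) : ℂ)) - 1) * g x := by ring
    rw [e6, norm_mul, norm_mul, norm_mul, ← mul_assoc]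
    refine mul_le_mul_of_nonneg_right ?_ (norm_nonneg _)
    refine (Real.norm_exp_I_mul_ofReal_sub_one_le (x := 2 * Real.pi * t * x j)).trans ?_
    rw [norm_mul, Complex.norm_real, Complex.norm_real]
  refine h1.trans (le_of_eq ?_)
  rw [norm_smul, Complex.norm_real, Real.norm_eq_abs, abs_mul, abs_of_pos (by positivity : 0 < 2 * Real.pi)]

/-- Fatou: a Lipschitz orbit under modulations gives a finite moment -/
lemma moment_of_lipschitz (j : Fin d) (g : L2d d) (C : ℝ)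
    (hC : ∀ t : ℝ, ‖W ((0 : Fin d → ℝ), Pi.single j t) g - g‖ ≤ C * |t|) :
    MemLp (fun x : Fin d → ℝ => (x j : ℂ) * g x) 2 volume := by
  set t : ℕ → ℝ := fun n => 1 / ((n : ℝ) + 1) with ht
  have ht0 : ∀ n, 0 < t n := fun n => by positivity
  have htl : Tendsto t atTop (𝓝 0) := tendsto_one_div_add_atTop_nhds_zero_nat
  have htl' : Tendsto t atTop (𝓝[≠] 0) :=
    tendsto_nhdsWithin_iff.2 ⟨htl, Eventually.of_forall fun n => (ht0 n).ne'⟩
  set F : ℕ → (Fin d → ℝ) → ℂ := fun n x =>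
    (((t n)⁻¹ : ℝ) : ℂ) * (W ((0 : Fin d → ℝ), Pi.single j (t n)) g - g : L2d d) x with hF
  have hFm : ∀ n, AEStronglyMeasurable (F n) volume := fun n =>
    (Lp.aestronglyMeasurable _).const_mul _
  have hlim : ∀ᵐ x ∂(volume : Measure (Fin d → ℝ)), Tendsto (fun n => F n x) atTop
      (𝓝 ((2 * (Real.pi : ℂ) * Complex.I) * ((x j : ℂ) * g x))) := by
    have hall : ∀ᵐ x ∂(volume : Measure (Fin d → ℝ)), ∀ n,
        (W ((0 : Fin d → ℝ), Pi.single j (t n)) g - g : L2d d) x =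
          ph (Pi.single j (t n)) x * g x - g x := by
      rw [ae_all_iff]
      intro n
      filter_upwards [Lp.coeFn_sub (W ((0 : Fin d → ℝ), Pi.single j (t n)) g) g,
        W_coe ((0 : Fin d → ℝ), Pi.single j (t n)) g] with x e1 e2
      rw [e1, Pi.sub_apply, e2]
      simp [Wf]
    filter_upwards [hall] with x hx
    have e5 : ∀ s : ℝ, ph (Pi.single j s) x =
        Complex.exp ((s : ℂ) * (2 * (Real.pi : ℂ) * Complex.I * (x j : ℂ))) := by
      intro s
      unfold ph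
      congr 1
      have : ∑ i, (Pi.single j s : Fin d → ℝ) i * x i = s * x j := by
        rw [Finset.sum_eq_single j]
        · simp
        · intro b _ hb
          simp [hb]
        · simp
      rw [this]
      push_cast
      ring
    have hd : HasDerivAt (fun s : ℝ => Complex.exp ((s : ℂ) * (2 * (Real.pi : ℂ) * Complex.I * (x j : ℂ))))
        (2 * (Real.pi : ℂ) * Complex.I * (x j : ℂ)) 0 := by
      have h1 : HasDerivAt (fun s : ℝ => (s : ℂ) * (2 * (Real.pi : ℂ) * Complex.I * (x j : ℂ)))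
          (2 * (Real.pi : ℂ) * Complex.I * (x j : ℂ)) 0 := by
        have := (Complex.ofRealCLM.hasDerivAt (x := (0 : ℝ))).mul_const
          (2 * (Real.pi : ℂ) * Complex.I * (x j : ℂ))
        simpa using this
      have h2 := h1.cexp
      simpa using h2
    have hs := (hasDerivAt_iff_tendsto_slope_zero.1 hd).comp htl'
    have hs2 := hs.mul_const (g x)
    have e7 : 2 * (Real.pi : ℂ) * Complex.I * (x j : ℂ) * g x =
      (2 * (Real.pi : ℂ) * Complex.I) * ((x j : ℂ) * g x) := by ring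
    rw [e7] at hs2
    refine hs2.congr fun n => ?_
    simp only [hF, hx, e5, Function.comp, zero_add, Complex.ofReal_zero, zero_mul, Complex.exp_zero,
      Complex.real_smul]
    push_cast
    ring
  have hle := Lp.eLpNorm_lim_le_liminf_eLpNorm (p := 2) hFm _ hlim
  have hbd : ∀ n, eLpNorm (F n) 2 volume ≤ ENNReal.ofReal C := by
    intro n
    have h0 : F n = (((t n)⁻¹ : ℝ) : ℂ) •
        ((W ((0 : Fin d → ℝ), Pi.single j (t n)) g - g : L2d d) : (Fin d → ℝ) → ℂ) := by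
      funext x
      rw [Pi.smul_apply, smul_eq_mul]
    rw [h0, eLpNorm_const_smul]
    have h2 : eLpNorm (W ((0 : Fin d → ℝ), Pi.single j (t n)) g - g : L2d d) 2 volume =
        ENNReal.ofReal ‖W ((0 : Fin d → ℝ), Pi.single j (t n)) g - g‖ := by
      rw [Lp.norm_def, ENNReal.ofReal_toReal (Lp.eLpNorm_ne_top _)]
    rw [h2, ← ofReal_norm, ← ENNReal.ofReal_mul (norm_nonneg _)]
    refine ENNReal.ofReal_le_ofReal ?_
    rw [Complex.norm_real, Real.norm_eq_abs, abs_inv, abs_of_pos (ht0 n)]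
    have h3 := hC (t n)
    rw [abs_of_pos (ht0 n)] at h3
    rw [inv_mul_le_iff₀ (ht0 n)]
    linarith
  have hfin : eLpNorm (fun x : Fin d → ℝ =>
      (2 * (Real.pi : ℂ) * Complex.I) * ((x j : ℂ) * g x)) 2 volume < ⊤ := by
    refine lt_of_le_of_lt (hle.trans ?_) (ENNReal.ofReal_lt_top (r := C))
    refine liminf_le_of_le (by isBoundedDefault) fun b hb => ?_
    obtain ⟨n, hn⟩ := hb.exists
    exact hn.trans (hbd n)
  have hm : AEStronglyMeasurable (fun x : Fin d → ℝ => (x j : ℂ) * g x) volume :=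
    (by fun_prop : Continuous fun x : Fin d → ℝ => (x j : ℂ)).aestronglyMeasurable.mul
      (Lp.aestronglyMeasurable g)
  have hmem : MemLp (fun x : Fin d → ℝ => (2 * (Real.pi : ℂ) * Complex.I) * ((x j : ℂ) * g x)) 2
      volume := ⟨hm.const_mul _, hfin⟩
  have h2 := hmem.const_mul (2 * (Real.pi : ℂ) * Complex.I)⁻¹
  refine h2.congr_norm hm (ae_of_all _ fun x => ?_)
  have hne : (2 * (Real.pi : ℂ) * Complex.I) ≠ 0 := by
    simp [Real.pi_ne_zero]
  rw [← mul_assoc, inv_mul_cancel₀ hne, one_mul]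

/-- translation difference bound from a weak derivative -/
lemma translation_le (j : Fin d) {g h : (Fin d → ℝ) → ℂ} (hg : MemLp g 2 volume)
    (hh : MemLp h 2 volume)
    (hw : ∀ φ : (Fin d → ℝ) → ℂ, ContDiff ℝ ((⊤ : ℕ∞) : WithTop ℕ∞) φ → HasCompactSupport φ →
         ∫ x, g x * fderiv ℝ φ x (Pi.single j (1 : ℝ) : Fin d → ℝ) = - ∫ x, h x * φ x) (s : ℝ) :
    ‖W (-((Pi.single j s : Fin d → ℝ), (0 : Fin d → ℝ))) (hg.toLp g) - hg.toLp g‖ ≤
      (eLpNorm h 2 volume).toReal * |s| := by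
  set z : (Fin d → ℝ) × (Fin d → ℝ) := ((Pi.single j s : Fin d → ℝ), (0 : Fin d → ℝ)) with hz
  set y : L2d d := W (-z) (hg.toLp g) - hg.toLp g with hy
  set C : ℝ := (eLpNorm h 2 volume).toReal * |s| with hC
  have hC0 : 0 ≤ C := by positivity
  -- closedness
  have hcl : IsClosed {x : L2d d | ‖⟪x, y⟫_ℂ‖ ≤ C * ‖x‖} :=
    isClosed_le (by fun_prop) (by fun_prop)
  have hsub : {f : L2d d | ∃ (φ : (Fin d → ℝ) → ℂ), f =ᵐ[volume] φ ∧ HasCompactSupport φ ∧
      ContDiff ℝ ((⊤ : ℕ∞) : WithTop ℕ∞) φ} ⊆ {x : L2d d | ‖⟪x, y⟫_ℂ‖ ≤ C * ‖x‖} := by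
    rintro f ⟨φ, hfφ, hφc, hφ⟩
    show ‖⟪f, y⟫_ℂ‖ ≤ C * ‖f‖
    set ψ : (Fin d → ℝ) → ℂ := fun x => conj (φ x) with hψdef
    have hψ : ContDiff ℝ ((⊤ : ℕ∞) : WithTop ℕ∞) ψ :=
      Complex.conjCLE.contDiff.comp hφ
    have hψc : HasCompactSupport ψ := hφc.comp_left (map_zero _)
    have hψ2 : MemLp ψ 2 volume := hψ.continuous.memLp_of_hasCompactSupport hψc
    have h1 := shift_le g h hg hh (Pi.single j (1 : ℝ)) hw ψ hψ hψc s
    have h2 : eLpNorm ψ 2 volume = eLpNorm f 2 volume := by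
      refine eLpNorm_congr_norm_ae ?_
      filter_upwards [hfφ] with x hx
      rw [hx]
      exact RCLike.norm_conj _
    rw [h2, ← Lp.norm_def] at h1
    have h3 : ⟪f, y⟫_ℂ = (∫ x, g x * ψ (x - s • (Pi.single j (1 : ℝ) : Fin d → ℝ))) -
        ∫ x, g x * ψ x := by
      rw [hy, inner_sub_right, inner_eq, inner_eq]
      have e0 : s • (Pi.single j (1 : ℝ) : Fin d → ℝ) = z.1 := by
        rw [hz]
        ext i
        simp [Pi.single_apply]
      congr 1
      · rw [e0]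
        have e1 : ∫ x, conj (f x) * (W (-z) (hg.toLp g) : L2d d) x =
            ∫ x, (fun x => g x * ψ (x - z.1)) (x + z.1) := by
          refine integral_congr_ae ?_
          filter_upwards [hfφ, W_toLp (-z) hg] with x h4 h5
          rw [h4, h5]
          simp only [Wf, hz, Prod.fst_neg, Prod.snd_neg, neg_zero, ph_zero_left, one_mul,
            sub_neg_eq_add, add_sub_cancel_right, hψdef]
          ring
        rw [e1, integral_add_right_eq_self (fun x => g x * ψ (x - z.1))]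
      · refine integral_congr_ae ?_
        filter_upwards [hfφ, hg.coeFn_toLp] with x h4 h5
        rw [h4, h5]
        simp only [hψdef]
        ring
    rw [h3]
    refine h1.trans (le_of_eq ?_)
    rw [hC]
    ring
  have hden := Lp.dense_hasCompactSupport_contDiff (F := ℂ) (p := 2)
    (μ := (volume : Measure (Fin d → ℝ))) (by norm_num)
  have hall : ‖⟪y, y⟫_ℂ‖ ≤ C * ‖y‖ := closure_minimal hsub hcl (hden y)
  rw [inner_self_eq_norm_sq_to_K] at hall
  have h2 : ‖((‖y‖ : ℂ)) ^ 2‖ = ‖y‖ ^ 2 := by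
    rw [norm_pow, Complex.norm_real, norm_norm]
  have h3 : ‖y‖ ^ 2 ≤ C * ‖y‖ := by
    rw [← h2]; exact hall
  by_cases hy0 : ‖y‖ = 0
  · rw [hy0]; exact hC0
  · have hy1 : 0 < ‖y‖ := lt_of_le_of_ne (norm_nonneg _) (Ne.symm hy0)
    rw [sq] at h3
    exact le_of_mul_le_mul_right h3 hy1

end Pool.Agent.H321R3.BLT
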