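import Mathlib
import Pool.Agent.H321R3.BLT

set_option autoImplicit false
open MeasureTheory Filter Topology Set
open scoped InnerProductSpace ComplexConjugate

namespace Pool.Agent.H321R3.BLT

open Pool.Agent.H321R3.Riesz Pool.Agent.H321R3.TF Pool.Agent.H321R3.WD

variable {d : ℕ}

/-- The Balian-Low theorem for an arbitrary lattice, one coordinate at a time. -/
theorem balian_low (M : Matrix (Fin d ⊕ Fin d) (Fin d ⊕ Fin d) ℝ) (j : Fin d)
    {g : (Fin d → ℝ) → ℂ} (hg : MemLp g 2 volume)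
    (hcomp : ∀ h : (Fin d → ℝ) → ℂ, MemLp h 2 volume →
      (∀ k : Fin d ⊕ Fin d → ℤ, ∫ x, conj (h x) * Wf (lam M k) g x = 0) → h =ᵐ[volume] 0)
    (A B : ℝ) (hA : 0 < A) (hB : 0 < B)
    (hAB : ∀ (s : Finset (Fin d ⊕ Fin d → ℤ)) (c : (Fin d ⊕ Fin d → ℤ) → ℂ),
      A * ∑ k ∈ s, ‖c k‖ ^ 2 ≤ ∫ x, ‖∑ k ∈ s, c k * Wf (lam M k) g x‖ ^ 2 ∧
      ∫ x, ‖∑ k ∈ s, c k * Wf (lam M k) g x‖ ^ 2 ≤ B * ∑ k ∈ s, ‖c k‖ ^ 2)
    (hX : MemLp (fun x : Fin d → ℝ => (x j : ℂ) * g x) 2 volume)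
    (h : (Fin d → ℝ) → ℂ) (hh : MemLp h 2 volume)
    (hw : ∀ φ : (Fin d → ℝ) → ℂ, ContDiff ℝ ((⊤ : ℕ∞) : WithTop ℕ∞) φ → HasCompactSupport φ →
         ∫ x, g x * fderiv ℝ φ x (Pi.single j (1 : ℝ) : Fin d → ℝ) = - ∫ x, h x * φ x) :
    False := by
  classical
  have hr := isRiesz M hg hcomp A B hA hAB
  have hP := projRep (d := d)
  set gL : L2d d := hg.toLp g with hgL
  obtain ⟨g', hg'0⟩ := hr.exists_dual 0
  have hg' : ∀ k, ⟪g', W (lam M k) gL⟫_ℂ = if k = 0 then 1 else 0 := hg'0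
  -- `x_j g`
  set G1 : L2d d := hX.toLp _ with hG1
  have hG1c : G1 =ᵐ[volume] fun x => (x j : ℂ) * gL x := by
    filter_upwards [hX.coeFn_toLp, hg.coeFn_toLp] with x e1 e2
    rw [hG1, e1, hgL, e2]
  -- the dual window has a finite moment
  have hlip : ∀ t : ℝ, ‖W ((0 : Fin d → ℝ), Pi.single j t) g' - g'‖ ≤
      (A⁻¹ * (2 * Real.pi * ‖G1‖)) * |t| := by
    intro t
    have h1 := hP.lipschitz hr hB.le hg' ((0 : Fin d → ℝ), Pi.single j t)
    have h2 := modulation_le j gL G1 hG1c t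
    refine h1.trans ?_
    have hA' : 0 ≤ A⁻¹ := inv_nonneg.2 hA.le
    calc A⁻¹ * ‖W ((0 : Fin d → ℝ), Pi.single j t) gL - gL‖ ≤ A⁻¹ * (2 * Real.pi * |t| * ‖G1‖) :=
          mul_le_mul_of_nonneg_left h2 hA'
      _ = _ := by ring
  have hD := moment_of_lipschitz j g' _ hlip
  set D1 : L2d d := hD.toLp _ with hD1
  have hD1c : D1 =ᵐ[volume] fun x => (x j : ℂ) * g' x := hD.coeFn_toLp
  have hXc := X_comm j gL g' G1 D1 hG1c hD1c
  have e1 : ∀ k, ⟪W (lam M k) gL, g'⟫_ℂ = if k = 0 then 1 else 0 := by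
    intro k
    rw [← inner_conj_symm, hg']
    split_ifs <;> simp
  have hgg : ⟪gL, g'⟫_ℂ = 1 := by
    have := e1 0
    rwa [map_zero, hP.zero, if_pos rfl] at this
  have hbi : ∀ k, k ≠ 0 → ⟪gL, W (lam M k) g'⟫_ℂ = 0 := by
    intro k hk
    have h1 := hP.biorth hg' k 0
    rw [map_zero, hP.zero, if_neg hk] at h1
    rw [← inner_conj_symm, h1, map_zero]
  set s : ℕ → ℝ := fun n => 1 / ((n : ℝ) + 1) with hs
  have hs0 : ∀ n, s n ≠ 0 := fun n => by positivity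
  have hsl : Tendsto s atTop (𝓝 0) := tendsto_one_div_add_atTop_nhds_zero_nat
  set v : ℕ → (Fin d → ℝ) × (Fin d → ℝ) := fun n => ((Pi.single j (s n) : Fin d → ℝ), 0) with hv
  have hχ1 : ∀ n w, χ (v n) w = (ph w.2 (Pi.single j (s n)))⁻¹ := fun n w => rfl
  refine hP.battle hr hB.le hg' G1 D1 ?_ s hs0 hsl v ?_ ?_ (eLpNorm h 2 volume).toReal ?_ ?_
  · -- c1
    intro k
    rw [hXc]
    by_cases hk : k = 0
    · rw [hk, map_zero]
      simp
    · rw [hbi k hk, mul_zero, add_zero]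
  · intro n
    rw [hχ1]
    simp [hv, ph_zero_left]
  · intro n
    have h1 := hXc (v n)
    rw [h1]
    have h2 : ∀ y : L2d d, ⟪W (-(v n)) gL, y⟫_ℂ = ⟪gL, W (v n) y⟫_ℂ := by
      intro y
      rw [hP.adj, neg_neg]
      have : χ (-(v n)) (v n) = 1 := by
        simp [χ, hv, ph_zero_left]
      rw [this, inv_one, one_mul]
    rw [h2, h2]
    simp [hv]
  · intro n
    exact translation_le j hg hh hw (s n)
  · intro k
    have h1 : ∀ n, χ (-(v n)) (lam M k) * (χ (lam M k) (-(v n)))⁻¹ =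
        (ph (lam M k).2 (-(Pi.single j (s n) : Fin d → ℝ)))⁻¹ := by
      intro n
      simp [χ, hv, ph_zero_left]
    simp only [h1]
    have h2 : Continuous fun t : ℝ => (ph (lam M k).2 (-(Pi.single j t : Fin d → ℝ)))⁻¹ := by
      have h3 : Continuous fun t : ℝ => (Pi.single j t : Fin d → ℝ) :=
        continuous_single (A := fun _ : Fin d => ℝ) j
      refine Continuous.inv₀ ((continuous_ph _).comp h3.neg) fun t h0 => ?_
      have := norm_ph (lam M k).2 (-(Pi.single j t : Fin d → ℝ))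
      rw [h0, norm_zero] at this
      exact zero_ne_one this
    have h3 : Tendsto (fun n => (ph (lam M k).2 (-(Pi.single j (s n) : Fin d → ℝ)))⁻¹) atTop
        (𝓝 (ph (lam M k).2 (-(Pi.single j (0 : ℝ) : Fin d → ℝ)))⁻¹) := (h2.tendsto 0).comp hsl
    simpa [ph_zero_right] using h3

end Pool.Agent.H321R3.BLT
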