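import Mathlib

set_option autoImplicit false
open MeasureTheory Filter Topology Set

namespace Pool.Agent.H321R3.Count

/-- integers in `[x, x+R)` as reals, shifted by `s` -/
def Zs (s : ℝ) : Set ℝ := {x | ∃ m : ℤ, x = (m : ℝ) + s}

lemma Zs_inter (s x R : ℝ) : Zs s ∩ Ico x (x + R) =
    (fun m : ℤ => (m : ℝ) + s) '' (Finset.Ico ⌈x - s⌉ ⌈x - s + R⌉ : Finset ℤ) := by
  ext y
  simp only [Zs, mem_inter_iff, mem_setOf_eq, mem_Ico, mem_image, Finset.coe_Ico]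
  constructor
  · rintro ⟨⟨m, rfl⟩, h1, h2⟩
    refine ⟨m, ⟨Int.ceil_le.2 (by linarith), Int.lt_ceil.2 (by linarith)⟩, rfl⟩
  · rintro ⟨m, ⟨h1, h2⟩, rfl⟩
    have h1' := Int.ceil_le.1 h1
    have h2' := Int.lt_ceil.1 h2
    exact ⟨⟨m, rfl⟩, by linarith, by linarith⟩

lemma inj (s : ℝ) : Function.Injective (fun m : ℤ => (m : ℝ) + s) := by
  intro m n h
  have : (m : ℝ) = n := by simpa using h
  exact_mod_cast this

lemma Zs_finite (s x R : ℝ) : (Zs s ∩ Ico x (x + R)).Finite := by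
  rw [Zs_inter]
  exact (Finset.finite_toSet _).image _

lemma Zs_ncard (s x R : ℝ) : (Zs s ∩ Ico x (x + R)).ncard = (⌈x - s + R⌉ - ⌈x - s⌉).toNat := by
  rw [Zs_inter, Set.ncard_image_of_injective _ (inj s), Set.ncard_coe_finset, Int.card_Ico]

lemma Zs_ncard_le (s x R : ℝ) (hR : 0 ≤ R) : ((Zs s ∩ Ico x (x + R)).ncard : ℝ) ≤ R + 1 := by
  rw [Zs_ncard]
  have h1 : ⌈x - s⌉ ≤ ⌈x - s + R⌉ := Int.ceil_mono (by linarith)
  have h2 : (((⌈x - s + R⌉ - ⌈x - s⌉).toNat : ℤ) : ℝ) = (⌈x - s + R⌉ : ℝ) - ⌈x - s⌉ := by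
    rw [Int.toNat_of_nonneg (by omega)]
    push_cast
    ring
  have h3 : (((⌈x - s + R⌉ - ⌈x - s⌉).toNat : ℕ) : ℝ) = (⌈x - s + R⌉ : ℝ) - ⌈x - s⌉ := by
    rw [← h2]
    norm_cast
  rw [h3]
  have h4 := Int.ceil_lt_add_one (x - s + R)
  have h5 := Int.le_ceil (x - s)
  linarith

lemma Zs_ncard_ge (s x R : ℝ) : R - 1 ≤ ((Zs s ∩ Ico x (x + R)).ncard : ℝ) := by
  rw [Zs_ncard]
  have h2 : (⌈x - s + R⌉ : ℝ) - ⌈x - s⌉ ≤ (((⌈x - s + R⌉ - ⌈x - s⌉).toNat : ℕ) : ℝ) := by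
    have := Int.self_le_toNat (⌈x - s + R⌉ - ⌈x - s⌉)
    exact_mod_cast this
  have h4 := Int.ceil_lt_add_one (x - s)
  have h5 := Int.le_ceil (x - s + R)
  linarith

/-- the set `({0,1/4} + ℤ) × ℤ` -/
def Γ : Set (ℝ × ℝ) := (Zs 0 ∪ Zs (1/4)) ×ˢ Zs 0

lemma disj : Disjoint (Zs 0) (Zs (1/4)) := by
  rw [Set.disjoint_left]
  rintro y ⟨m, rfl⟩ ⟨n, h⟩
  have h1 : (4 : ℝ) * m = 4 * n + 1 := by linarith
  have h2 : 4 * m = 4 * n + 1 := by exact_mod_cast h1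
  omega

lemma Γ_inter (z : ℝ × ℝ) (R : ℝ) : Γ ∩ (Ico z.1 (z.1 + R) ×ˢ Ico z.2 (z.2 + R)) =
    ((Zs 0 ∩ Ico z.1 (z.1 + R)) ∪ (Zs (1/4) ∩ Ico z.1 (z.1 + R))) ×ˢ
      (Zs 0 ∩ Ico z.2 (z.2 + R)) := by
  rw [Γ, Set.prod_inter_prod, Set.union_inter_distrib_right]

lemma Γ_finite (z : ℝ × ℝ) (R : ℝ) :
    (Γ ∩ (Ico z.1 (z.1 + R) ×ˢ Ico z.2 (z.2 + R))).Finite := by
  rw [Γ_inter]
  exact ((Zs_finite _ _ _).union (Zs_finite _ _ _)).prod (Zs_finite _ _ _)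

lemma Γ_ncard (z : ℝ × ℝ) (R : ℝ) :
    (Γ ∩ (Ico z.1 (z.1 + R) ×ˢ Ico z.2 (z.2 + R))).ncard =
    ((Zs 0 ∩ Ico z.1 (z.1 + R)).ncard + (Zs (1/4) ∩ Ico z.1 (z.1 + R)).ncard) *
      (Zs 0 ∩ Ico z.2 (z.2 + R)).ncard := by
  rw [Γ_inter, Set.ncard_prod, Set.ncard_union_eq _ (Zs_finite _ _ _) (Zs_finite _ _ _)]
  exact disj.mono inter_subset_left inter_subset_left

lemma Γ_le (z : ℝ × ℝ) (R : ℝ) (hR : 0 ≤ R) :
    ((Γ ∩ (Ico z.1 (z.1 + R) ×ˢ Ico z.2 (z.2 + R))).ncard : ℝ) ≤ 2 * (R + 1) ^ 2 := by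
  rw [Γ_ncard]
  push_cast
  have h1 := Zs_ncard_le 0 z.1 R hR
  have h2 := Zs_ncard_le (1/4) z.1 R hR
  have h3 := Zs_ncard_le 0 z.2 R hR
  have h4 : (0:ℝ) ≤ ((Zs 0 ∩ Ico z.2 (z.2 + R)).ncard : ℝ) := Nat.cast_nonneg _
  calc _ ≤ ((R + 1) + (R + 1)) * (R + 1) := by
        apply mul_le_mul (by linarith) h3 h4 (by linarith)
    _ = _ := by ring

lemma Γ_ge (z : ℝ × ℝ) (R : ℝ) (hR : 1 ≤ R) :
    2 * (R - 1) ^ 2 ≤ ((Γ ∩ (Ico z.1 (z.1 + R) ×ˢ Ico z.2 (z.2 + R))).ncard : ℝ) := by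
  rw [Γ_ncard]
  push_cast
  have h1 := Zs_ncard_ge 0 z.1 R
  have h2 := Zs_ncard_ge (1/4) z.1 R
  have h3 := Zs_ncard_ge 0 z.2 R
  calc 2 * (R - 1) ^ 2 = ((R - 1) + (R - 1)) * (R - 1) := by ring
    _ ≤ _ := by
        apply mul_le_mul (by linarith) h3 (by linarith) (by linarith)

lemma liminf_eq :
    Filter.liminf (fun R : ℝ => ⨅ z : ℝ × ℝ,
        ((Γ ∩ (Set.Ico z.1 (z.1 + R) ×ˢ Set.Ico z.2 (z.2 + R))).ncard : ℝ) / R ^ 2)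
      Filter.atTop = 2 := by
  apply Filter.Tendsto.liminf_eq
  have hinv : Tendsto (fun R : ℝ => R⁻¹) atTop (𝓝 0) := tendsto_inv_atTop_zero
  have hl : Tendsto (fun R : ℝ => 2 * (1 - R⁻¹) ^ 2) atTop (𝓝 2) := by
    have := ((hinv.const_sub 1).pow 2).const_mul 2
    simpa using this
  have hu : Tendsto (fun R : ℝ => 2 * (1 + R⁻¹) ^ 2) atTop (𝓝 2) := by
    have := ((hinv.const_add 1).pow 2).const_mul 2
    simpa using this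
  refine tendsto_of_tendsto_of_tendsto_of_le_of_le' hl hu ?_ ?_
  · filter_upwards [eventually_ge_atTop (1 : ℝ)] with R hR
    refine le_ciInf fun z => ?_
    rw [le_div_iff₀ (by positivity)]
    refine le_trans (le_of_eq ?_) (Γ_ge z R hR)
    have : R ≠ 0 := by positivity
    field_simp
  · filter_upwards [eventually_ge_atTop (1 : ℝ)] with R hR
    refine (ciInf_le ⟨0, ?_⟩ ((0, 0) : ℝ × ℝ)).trans ?_
    · rintro _ ⟨z, rfl⟩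
      positivity
    rw [div_le_iff₀ (by positivity)]
    refine (Γ_le (0, 0) R (by linarith)).trans (le_of_eq ?_)
    have : R ≠ 0 := by positivity
    field_simp

end Pool.Agent.H321R3.Count
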