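import Mathlib

set_option autoImplicit false
open Filter Topology Set TopologicalSpace
open scoped Pointwise

namespace Pool.Agent.H321R3.FS

/-- sequences which are Cauchy for the group structure converge -/
def GC (G : Type*) [AddCommGroup G] [TopologicalSpace G] : Prop :=
  ∀ x : ℕ → G, (∀ U ∈ 𝓝 (0 : G), ∃ N, ∀ m ≥ N, ∀ n ≥ N, x m - x n ∈ U) →
    ∃ a, Tendsto x atTop (𝓝 a)

lemma tendsto_add_left {G : Type*} [AddCommGroup G] [TopologicalSpace G]
    [IsTopologicalAddGroup G] (g : G) : Tendsto (fun w : G => g + w) (𝓝 0) (𝓝 g) := by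
  have h : Continuous fun w : G => g + w := by fun_prop
  have := h.tendsto 0
  rwa [add_zero] at this

lemma tendsto_sub_left {G : Type*} [AddCommGroup G] [TopologicalSpace G]
    [IsTopologicalAddGroup G] (g : G) : Tendsto (fun w : G => g - w) (𝓝 g) (𝓝 0) := by
  have h : Continuous fun w : G => g - w := by fun_prop
  have := h.tendsto g
  rwa [sub_self] at this

lemma tendsto_sub_right {G : Type*} [AddCommGroup G] [TopologicalSpace G]
    [IsTopologicalAddGroup G] (g : G) : Tendsto (fun w : G => w - g) (𝓝 g) (𝓝 0) := by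
  have h : Continuous fun w : G => w - g := by fun_prop
  have := h.tendsto g
  rwa [sub_self] at this

lemma exists_add_nhds {G : Type*} [AddCommGroup G] [TopologicalSpace G]
    [IsTopologicalAddGroup G] {U : Set G} (hU : U ∈ 𝓝 (0 : G)) :
    ∃ W ∈ 𝓝 (0 : G), ∀ a ∈ W, ∀ b ∈ W, a + b ∈ U := by
  have h1 : Tendsto (fun p : G × G => p.1 + p.2) (𝓝 (0, 0)) (𝓝 0) := by
    have := (continuous_add (M := G)).tendsto (0, 0)
    simpa using this
  rw [nhds_prod_eq] at h1
  obtain ⟨A, hA, B, hB, hAB⟩ := Filter.mem_prod_iff.1 (h1 hU)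
  exact ⟨A ∩ B, inter_mem hA hB, fun a ha b hb => hAB (show (a, b) ∈ A ×ˢ B from ⟨ha.1, hb.2⟩)⟩

lemma exists_sub_nhds {G : Type*} [AddCommGroup G] [TopologicalSpace G]
    [IsTopologicalAddGroup G] {U : Set G} (hU : U ∈ 𝓝 (0 : G)) :
    ∃ W ∈ 𝓝 (0 : G), ∀ a ∈ W, ∀ b ∈ W, a - b ∈ U := by
  have h1 : Tendsto (fun p : G × G => p.1 - p.2) (𝓝 (0, 0)) (𝓝 0) := by
    have := (continuous_sub (G := G)).tendsto (0, 0)
    simpa using this
  rw [nhds_prod_eq] at h1
  obtain ⟨A, hA, B, hB, hAB⟩ := Filter.mem_prod_iff.1 (h1 hU)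
  exact ⟨A ∩ B, inter_mem hA hB, fun a ha b hb => hAB (show (a, b) ∈ A ×ˢ B from ⟨ha.1, hb.2⟩)⟩

/-- **Klee's theorem** -/
theorem klee (G : Type*) [AddCommGroup G] [TopologicalSpace G] [IsTopologicalAddGroup G]
    [hG : IsCompletelyMetrizableSpace G] : GC G := by
  intro x hx
  let := upgradeIsCompletelyMetrizable G
  set W : ℕ → Set G := fun n => {g | ∃ V ∈ 𝓝 (0 : G), ∃ M : ℕ, ∀ m ≥ M, ∀ m' ≥ M, ∀ v ∈ V,
    ∀ v' ∈ V, dist (x m - g + v) (x m' - g + v') < 1 / ((n : ℝ) + 1)} with hW
  have hopen : ∀ n, IsOpen (W n) := by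
    intro n
    rw [isOpen_iff_mem_nhds]
    rintro g ⟨V, hV, M, hM⟩
    -- a smaller neighbourhood
    obtain ⟨V', hV', hVV⟩ := exists_add_nhds hV
    have h2 : {g' : G | g - g' ∈ V'} ∈ 𝓝 g := by
      exact tendsto_sub_left g hV'
    refine mem_of_superset h2 fun g' hg' => ⟨V', hV', M, fun m hm m' hm' v hv v' hv' => ?_⟩
    have e1 : x m - g' + v = x m - g + ((g - g') + v) := by abel
    have e2 : x m' - g' + v' = x m' - g + ((g - g') + v') := by abel
    rw [e1, e2]
    exact hM m hm m' hm' _ (hVV _ hg' _ hv) _ (hVV _ hg' _ hv')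
  have hdense : ∀ n, Dense (W n) := by
    intro n g0
    rw [mem_closure_iff_nhds]
    intro N hN
    -- choose m0
    have hN' : {w : G | g0 + w ∈ N} ∈ 𝓝 (0 : G) := by
      exact tendsto_add_left g0 hN
    obtain ⟨m0, hm0⟩ := hx _ hN'
    set y := x m0 - g0 with hy
    -- V with small diameter near y
    have hball : {w : G | dist (y + w) y < 1 / (2 * ((n : ℝ) + 1))} ∈ 𝓝 (0 : G) := by
      exact tendsto_add_left y (Metric.ball_mem_nhds y (by positivity))
    obtain ⟨V, hV, hVV⟩ : ∃ V ∈ 𝓝 (0 : G), ∀ a ∈ V, ∀ b ∈ V,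
        dist (y + (a + b)) y < 1 / (2 * ((n : ℝ) + 1)) := exists_add_nhds hball
    obtain ⟨m1, hm1⟩ := hx V hV
    set M := max m0 m1 with hM
    refine ⟨g0 + (x M - x m0), hm0 M (le_max_left _ _) m0 le_rfl, V, hV, M, ?_⟩
    intro m hm m' hm' v hv v' hv'
    have e1 : x m - (g0 + (x M - x m0)) + v = y + ((x m - x M) + v) := by rw [hy]; abel
    have e2 : x m' - (g0 + (x M - x m0)) + v' = y + ((x m' - x M) + v') := by rw [hy]; abel
    rw [e1, e2]
    have hM1 : m1 ≤ M := le_max_right _ _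
    have d1 := hVV (x m - x M) (hm1 m (hM1.trans hm) M hM1) v hv
    have d2 := hVV (x m' - x M) (hm1 m' (hM1.trans hm') M hM1) v' hv'
    calc dist (y + ((x m - x M) + v)) (y + ((x m' - x M) + v'))
        ≤ dist (y + ((x m - x M) + v)) y + dist (y + ((x m' - x M) + v')) y := by
          have := dist_triangle (y + ((x m - x M) + v)) y (y + ((x m' - x M) + v'))
          rwa [dist_comm y] at this
      _ < 1 / (2 * ((n : ℝ) + 1)) + 1 / (2 * ((n : ℝ) + 1)) := add_lt_add d1 d2
      _ = 1 / ((n : ℝ) + 1) := by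
          have : (n : ℝ) + 1 ≠ 0 := by positivity
          field_simp
          norm_num
  obtain ⟨g, hg⟩ := (dense_iInter_of_isOpen_nat hopen hdense).nonempty
  rw [mem_iInter] at hg
  have hcau : CauchySeq fun m => x m - g := by
    rw [Metric.cauchySeq_iff]
    intro ε hε
    obtain ⟨n, hn⟩ := exists_nat_one_div_lt hε
    obtain ⟨V, hV, M, hM⟩ := hg n
    refine ⟨M, fun m hm m' hm' => ?_⟩
    have := hM m hm m' hm' 0 (mem_of_mem_nhds hV) 0 (mem_of_mem_nhds hV)
    rw [add_zero, add_zero] at this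
    exact this.trans hn
  obtain ⟨y, hy⟩ := cauchySeq_tendsto_of_complete hcau
  refine ⟨y + g, ?_⟩
  have := hy.add_const g
  simpa using this

/-- sums of small elements are small -/
lemma sum_mem {G ι : Type*} [AddCommGroup G] (V : ℕ → Set G) (h0 : ∀ n, (0 : G) ∈ V n)
    (hV : ∀ n, V (n + 1) + V (n + 1) ⊆ V n) (e : ι → ℕ) (he : Function.Injective e)
    (x : ι → G) (hx : ∀ j, x j ∈ V (e j + 1)) (B : ℕ) :
    ∀ (N : ℕ) (F : Finset ι), (∀ j ∈ F, N ≤ e j) → (∀ j ∈ F, e j < N + B) → ∑ j ∈ F, x j ∈ V N := by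
  classical
  induction B with
  | zero =>
    intro N F h1 h2
    have : F = ∅ := by
      rw [Finset.eq_empty_iff_forall_notMem]
      intro j hj
      have := h1 j hj
      have := h2 j hj
      omega
    rw [this, Finset.sum_empty]
    exact h0 N
  | succ B ih =>
    intro N F h1 h2
    by_cases hj : ∃ j ∈ F, e j = N
    · obtain ⟨j, hjF, hjN⟩ := hj
      rw [← Finset.add_sum_erase F x hjF]
      refine hV N (Set.add_mem_add ?_ ?_)
      · have := hx j
        rwa [hjN] at this
      · refine ih (N + 1) _ (fun i hi => ?_) (fun i hi => ?_)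
        · have hi1 := h1 i (Finset.mem_of_mem_erase hi)
          have hi2 : e i ≠ N := by
            intro h3
            exact Finset.ne_of_mem_erase hi (he (h3.trans hjN.symm))
          omega
        · have := h2 i (Finset.mem_of_mem_erase hi)
          omega
    · push Not at hj
      have h3 : ∑ j ∈ F, x j ∈ V (N + 1) := by
        refine ih (N + 1) F (fun i hi => ?_) (fun i hi => ?_)
        · have := h1 i hi
          have := hj i hi
          omega
        · have := h2 i hi
          omega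
      have h4 := hV N (Set.add_mem_add (h0 (N + 1)) h3)
      rwa [zero_add] at h4

/-- **Open mapping theorem** for completely metrizable complex topological vector spaces. -/
theorem open_mapping {X Y : Type*} [AddCommGroup X] [Module ℂ X] [TopologicalSpace X]
    [IsTopologicalAddGroup X] [ContinuousSMul ℂ X] [IsCompletelyMetrizableSpace X]
    [AddCommGroup Y] [Module ℂ Y] [TopologicalSpace Y]
    [IsTopologicalAddGroup Y] [ContinuousSMul ℂ Y] [IsCompletelyMetrizableSpace Y]
    (T : X →ₗ[ℂ] Y) (hT : Continuous T) (hs : Function.Surjective T) : IsOpenMap T := by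
  let := upgradeIsCompletelyMetrizable Y
  -- step 1
  have step1 : ∀ U ∈ 𝓝 (0 : X), closure (T '' U) ∈ 𝓝 (0 : Y) := by
    intro U hU
    obtain ⟨W, hW, hWU⟩ := exists_sub_nhds hU
    have hcov : (⋃ n : ℕ, closure ((fun y : Y => ((n : ℂ) + 1) • y) '' (T '' W))) = univ := by
      rw [eq_univ_iff_forall]
      intro y
      obtain ⟨x, rfl⟩ := hs y
      have h1 : Tendsto (fun n : ℕ => (1 / ((n : ℂ) + 1)) • x) atTop (𝓝 0) := by
        have := (tendsto_one_div_add_atTop_nhds_zero_nat (𝕜 := ℂ)).smul_const x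
        simpa using this
      obtain ⟨n, hn⟩ := (h1.eventually hW).exists
      rw [mem_iUnion]
      refine ⟨n, subset_closure ⟨T ((1 / ((n : ℂ) + 1)) • x), ⟨_, hn, rfl⟩, ?_⟩⟩
      simp only
      rw [map_smul, smul_smul, mul_one_div_cancel (Nat.cast_add_one_ne_zero n), one_smul]
    obtain ⟨n, hn⟩ := nonempty_interior_of_iUnion_of_closed (fun n => isClosed_closure) hcov
    have hn0 : ((n : ℂ) + 1) ≠ 0 := Nat.cast_add_one_ne_zero n
    -- transfer to `closure (T '' W)`
    have hint : (interior (closure (T '' W))).Nonempty := by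
      have hh := Homeomorph.smulOfNeZero (α := Y) ((n : ℂ) + 1) hn0
      have e1 : closure ((fun y : Y => ((n : ℂ) + 1) • y) '' (T '' W)) =
          (Homeomorph.smulOfNeZero (α := Y) ((n : ℂ) + 1) hn0) '' closure (T '' W) := by
        rw [Homeomorph.image_closure]
        rfl
      rw [e1, ← Homeomorph.image_interior] at hn
      exact hn.of_image
    obtain ⟨y0, hy0⟩ := hint
    have h3 : {y : Y | y0 + y ∈ interior (closure (T '' W))} ∈ 𝓝 (0 : Y) := by
      exact tendsto_add_left y0 (isOpen_interior.mem_nhds hy0)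
    refine mem_of_superset h3 fun y hy => ?_
    have h5 : y0 + y ∈ closure (T '' W) := interior_subset hy
    have h6 : y0 ∈ closure (T '' W) := interior_subset hy0
    have h7 : (y0 + y) - y0 ∈ closure (T '' U) :=
      map_mem_closure₂ continuous_sub h5 h6 (by
        rintro _ ⟨a, ha, rfl⟩ _ ⟨b, hb, rfl⟩
        exact ⟨a - b, hWU a ha b hb, by rw [map_sub]⟩)
    rwa [add_sub_cancel_left] at h7
  -- step 2
  have step2 : ∀ U ∈ 𝓝 (0 : X), T '' U ∈ 𝓝 (0 : Y) := by
    intro U hU
    obtain ⟨u, hu, huu⟩ := IsTopologicalAddGroup.exists_antitone_basis_nhds_zero X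
    have hu0 : ∀ n, (0 : X) ∈ u n := fun n => mem_of_mem_nhds (hu.1.mem_of_mem trivial)
    -- choose n0 with `u n0 + u n0 ⊆ U`
    obtain ⟨n0, -, hn0⟩ := hu.1.mem_iff.1 hU
    set V : ℕ → Set X := fun n => u (n + n0 + 1) with hVdef
    have hVm : ∀ n, V n ∈ 𝓝 (0 : X) := fun n => hu.1.mem_of_mem trivial
    have hV0 : ∀ n, (0 : X) ∈ V n := fun n => hu0 _
    have hVV : ∀ n, V (n + 1) + V (n + 1) ⊆ V n := by
      intro n
      have := huu (n + n0 + 1)
      rw [hVdef]
      simp only
      rwa [show n + 1 + n0 + 1 = n + n0 + 1 + 1 by ring]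
    have hcl : closure (V 0) ⊆ U := by
      intro x hx
      rw [mem_closure_iff_nhds] at hx
      have h1 : {y : X | x - y ∈ V 0} ∈ 𝓝 x := by
        exact tendsto_sub_left x (hVm 0)
      obtain ⟨y, hy1, hy2⟩ := hx _ h1
      have h2 : x = (x - y) + y := by abel
      rw [h2]
      have h4 := huu n0 (Set.add_mem_add (a := x - y) (b := y)
        (by simpa [hVdef] using hy1) (by simpa [hVdef] using hy2))
      exact hn0 h4
    refine mem_of_superset (step1 (V 1) (hVm 1)) ?_
    intro y hy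
    -- recursive construction
    have hrec : ∀ (n : ℕ) (z : Y), z ∈ closure (T '' V n) →
        ∃ x ∈ V n, z - T x ∈ closure (T '' V (n + 1)) := by
      intro n z hz
      rw [mem_closure_iff_nhds] at hz
      have h1 : {w : Y | z - w ∈ closure (T '' V (n + 1))} ∈ 𝓝 z := by
        exact tendsto_sub_left z (step1 _ (hVm (n + 1)))
      obtain ⟨w, hw1, x, hx, rfl⟩ := hz _ h1
      exact ⟨x, hx, hw1⟩
    choose! F hF1 hF2 using hrec
    -- residuals
    let r : ℕ → Y := fun n => Nat.rec y (fun m z => z - T (F (m + 1) z)) n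
    have hr0 : r 0 = y := rfl
    have hrs : ∀ m, r (m + 1) = r m - T (F (m + 1) (r m)) := fun m => rfl
    have hrc : ∀ m, r m ∈ closure (T '' V (m + 1)) := by
      intro m
      induction m with
      | zero => exact hy
      | succ m ih => rw [hrs]; exact hF2 (m + 1) _ ih
    set x : ℕ → X := fun m => F (m + 1) (r m) with hxdef
    have hxV : ∀ m, x m ∈ V (m + 1) := fun m => hF1 (m + 1) _ (hrc m)
    set s : ℕ → X := fun n => ∑ j ∈ Finset.range n, x j with hsdef
    have hsmall : ∀ m n, m ≤ n → s n - s m ∈ V m := by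
      intro m n hmn
      have h1 : s n - s m = ∑ j ∈ Finset.Ico m n, x j := by
        rw [hsdef]
        exact (Finset.sum_Ico_eq_sub _ hmn).symm
      rw [h1]
      exact sum_mem V hV0 hVV id Function.injective_id x hxV (n - m) m _
        (fun j hj => (Finset.mem_Ico.1 hj).1) (fun j hj => by
          have := (Finset.mem_Ico.1 hj).2
          simp only [id]; omega)
    have hTs : ∀ n, T (s n) = y - r n := by
      intro n
      induction n with
      | zero => simp [hsdef, hr0]
      | succ n ih =>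
        have e1 : s (n + 1) = s n + x n := Finset.sum_range_succ _ _
        rw [e1, map_add, ih, hrs]
        abel
    obtain ⟨a, ha⟩ := klee X s (by
      intro U' hU'
      obtain ⟨W, hW, hWU⟩ := exists_sub_nhds hU'
      obtain ⟨N, -, hN⟩ := hu.1.mem_iff.1 hW
      refine ⟨N, fun m hm n hn => ?_⟩
      have e1 : s m - s n = (s m - s N) - (s n - s N) := by abel
      rw [e1]
      have hVN : V N ⊆ W := (hu.2 (by omega : N ≤ N + n0 + 1)).trans hN
      exact hWU _ (hVN (hsmall N m hm)) _ (hVN (hsmall N n hn)))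
    refine ⟨a, hcl ?_, ?_⟩
    · refine mem_closure_of_tendsto ha (Eventually.of_forall fun n => ?_)
      have := hsmall 0 n (Nat.zero_le n)
      have e0 : s 0 = 0 := by simp [hsdef]
      rwa [e0, sub_zero] at this
    · -- `r n → 0`
      have hr : Tendsto r atTop (𝓝 0) := by
        rw [(closed_nhds_basis (0 : Y)).tendsto_right_iff]
        rintro N ⟨hN, hNc⟩
        have h1 : T ⁻¹' N ∈ 𝓝 (0 : X) := by
          have h2 := hT.tendsto 0
          rw [map_zero] at h2
          exact h2 hN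
        obtain ⟨m, -, hm⟩ := hu.1.mem_iff.1 h1
        filter_upwards [eventually_ge_atTop m] with n hn
        have h2 : V (n + 1) ⊆ T ⁻¹' N := (hu.2 (by omega : m ≤ n + 1 + n0 + 1)).trans hm
        have h3 : closure (T '' V (n + 1)) ⊆ N :=
          closure_minimal (image_subset_iff.2 h2) hNc
        exact h3 (hrc n)
      have h1 : Tendsto (fun n => T (s n)) atTop (𝓝 (T a)) := (hT.tendsto a).comp ha
      have h2 : Tendsto (fun n => T (s n)) atTop (𝓝 (y - 0)) := by
        simp only [hTs]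
        exact hr.const_sub y
      rw [sub_zero] at h2
      exact tendsto_nhds_unique h1 h2
  -- conclusion
  rw [isOpenMap_iff_nhds_le]
  intro x N hN
  rw [Filter.mem_map] at hN
  have h1 : {w : X | x + w ∈ T ⁻¹' N} ∈ 𝓝 (0 : X) := by
    exact tendsto_add_left x hN
  have h2 := step2 _ h1
  have h3 : {y : Y | y - T x ∈ T '' {w : X | x + w ∈ T ⁻¹' N}} ∈ 𝓝 (T x) := by
    exact tendsto_sub_right (T x) h2
  refine mem_of_superset h3 ?_
  rintro y ⟨w, hw, hwy⟩
  have h5 : y = T (x + w) := by rw [map_add, hwy]; abel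
  rw [h5]
  exact hw

/-- a good basis of neighbourhoods -/
lemma exists_basis {G : Type*} [AddCommGroup G] [TopologicalSpace G]
    [IsTopologicalAddGroup G] [FirstCountableTopology G] {U : Set G} (hU : U ∈ 𝓝 (0 : G)) :
    ∃ V : ℕ → Set G, (𝓝 (0 : G)).HasAntitoneBasis V ∧ (∀ n, V (n + 1) + V (n + 1) ⊆ V n) ∧
      closure (V 0) ⊆ U := by
  obtain ⟨u, hu, huu⟩ := IsTopologicalAddGroup.exists_antitone_basis_nhds_zero G
  obtain ⟨n0, -, hn0⟩ := hu.1.mem_iff.1 hU
  refine ⟨fun n => u (n + (n0 + 1)), ?_, fun n => ?_, ?_⟩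
  · exact hu.comp_strictMono (fun a b hab => by show a + (n0 + 1) < b + (n0 + 1); omega)
  · have := huu (n + (n0 + 1))
    simp only
    rwa [show n + 1 + (n0 + 1) = n + (n0 + 1) + 1 by ring]
  · intro x hx
    have hm : u (n0 + 1) ∈ 𝓝 (0 : G) := hu.1.mem_of_mem trivial
    rw [mem_closure_iff_nhds] at hx
    obtain ⟨y, hy1, hy2⟩ := hx _ (tendsto_sub_left x hm)
    have h2 : x = (x - y) + y := by abel
    rw [h2]
    have h4 := huu n0 (Set.add_mem_add (a := x - y) (b := y) hy1 (by simpa using hy2))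
    exact hn0 h4

/-- series of small elements converge -/
lemma seq_small {G ι : Type*} [AddCommGroup G] [TopologicalSpace G]
    [IsTopologicalAddGroup G] [IsCompletelyMetrizableSpace G] {V : ℕ → Set G}
    (hVb : (𝓝 (0 : G)).HasAntitoneBasis V) (hVV : ∀ n, V (n + 1) + V (n + 1) ⊆ V n)
    (e : ι → ℕ) (he : Function.Injective e) (F : ℕ → Finset ι) (hF : ∀ n J, J ∈ F n ↔ e J < n)
    (y : ι → G) (hy : ∀ J, y J ∈ V (e J + 1)) :
    ∃ a ∈ closure (V 0), Tendsto (fun n => ∑ J ∈ F n, y J) atTop (𝓝 a) := by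
  classical
  have hV0 : ∀ n, (0 : G) ∈ V n := fun n => mem_of_mem_nhds (hVb.1.mem_of_mem trivial)
  set s : ℕ → G := fun n => ∑ J ∈ F n, y J with hs
  have hsmall : ∀ m n, m ≤ n → s n - s m ∈ V m := by
    intro m n hmn
    have hsub : F m ⊆ F n := fun J hJ => (hF n J).2 (lt_of_lt_of_le ((hF m J).1 hJ) hmn)
    have h1 : s n - s m = ∑ J ∈ F n \ F m, y J := by
      rw [hs, sub_eq_iff_eq_add]
      exact (Finset.sum_sdiff hsub).symm
    rw [h1]
    refine sum_mem V hV0 hVV e he y hy (n - m) m _ (fun J hJ => ?_) (fun J hJ => ?_)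
    · have := (Finset.mem_sdiff.1 hJ).2
      rw [hF] at this
      omega
    · have := (Finset.mem_sdiff.1 hJ).1
      rw [hF] at this
      omega
  obtain ⟨a, ha⟩ := klee G s (by
    intro U hU
    obtain ⟨W, hW, hWU⟩ := exists_sub_nhds hU
    obtain ⟨N, -, hN⟩ := hVb.1.mem_iff.1 hW
    refine ⟨N, fun m hm n hn => ?_⟩
    have e1 : s m - s n = (s m - s N) - (s n - s N) := by abel
    rw [e1]
    exact hWU _ (hN (hsmall N m hm)) _ (hN (hsmall N n hn)))
  refine ⟨a, ?_, ha⟩
  refine mem_closure_of_tendsto ha (Eventually.of_forall fun n => ?_)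
  have := hsmall 0 n (Nat.zero_le n)
  have e0 : s 0 = 0 := by
    have : F 0 = ∅ := by
      rw [Finset.eq_empty_iff_forall_notMem]
      intro J hJ
      have := (hF 0 J).1 hJ
      omega
    simp [hs, this]
  rwa [e0, sub_zero] at this

end Pool.Agent.H321R3.FS
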