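import Mathlib

set_option autoImplicit false
open MeasureTheory Filter Topology Set

namespace Pool.Agent.H321R3.Herm

lemma summable_inv (p : ℕ) (hp : 1 < p) : Summable (fun m : ℤ => 1 / (1 + |(m : ℝ)|) ^ p) := by
  have h : Summable (fun n : ℕ => 1 / (1 + (n : ℝ)) ^ p) := by
    have h1 := (summable_nat_add_iff 1).2 (Real.summable_one_div_nat_pow.2 hp)
    refine h1.congr fun n => ?_
    push_cast
    rw [add_comm]
  refine Summable.of_nat_of_neg (h.congr fun n => ?_) (h.congr fun n => ?_)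
  · simp
  · simp

lemma summable_lin : Summable (fun m : ℤ => (4 * |(m : ℝ)| + 2) * (1 / (1 + |(m : ℝ)|) ^ 3)) := by
  refine Summable.of_nonneg_of_le (fun m => by positivity) (fun m => ?_)
    ((summable_inv 2 (by norm_num)).mul_left 4)
  rw [mul_one_div, mul_one_div]
  rw [div_le_div_iff₀ (by positivity) (by positivity)]
  have : 0 ≤ |(m : ℝ)| := abs_nonneg _
  nlinarith [pow_nonneg (by linarith : (0:ℝ) ≤ 1 + |(m : ℝ)|) 2]

lemma decay_comp (a : ℝ) (ha : 0 < a) (x : ℝ) : ∃ c : ℝ, 0 < c ∧ ∀ t ∈ Icc (0:ℝ) a, ∀ m : ℤ,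
    1 / (1 + |t + m * a - x|) ^ 3 ≤ c * (1 / (1 + |(m : ℝ)|) ^ 3) := by
  refine ⟨(2 + |x| / a + 1 / a) ^ 3, by positivity, fun t ht m => ?_⟩
  have h0 : 0 ≤ |t + m * a - x| := abs_nonneg _
  have h1 : |(m : ℝ)| * a ≤ |t + m * a - x| + a + |x| := by
    calc |(m : ℝ)| * a = |(m : ℝ) * a| := by rw [abs_mul, abs_of_pos ha]
      _ = |(t + m * a - x) - t + x| := by ring_nf
      _ ≤ |(t + m * a - x) - t| + |x| := abs_add_le _ _
      _ ≤ |t + m * a - x| + |t| + |x| := by gcongr; exact abs_sub _ _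
      _ ≤ _ := by
        gcongr
        rw [abs_of_nonneg ht.1]; exact ht.2
  have h2 : |(m : ℝ)| ≤ |t + m * a - x| / a + 1 + |x| / a := by
    rw [← le_div_iff₀ ha] at h1
    refine h1.trans (le_of_eq ?_)
    field_simp
  have h3 : 1 + |(m : ℝ)| ≤ (2 + |x| / a + 1 / a) * (1 + |t + m * a - x|) := by
    have h4 : 0 ≤ |x| / a := by positivity
    have h5 : |t + m * a - x| / a = 1 / a * |t + m * a - x| := by ring
    have h6 : 0 ≤ 1 / a := by positivity
    nlinarith [mul_nonneg h4 h0]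
  rw [mul_one_div, div_le_div_iff₀ (by positivity) (by positivity), one_mul, ← mul_pow]
  exact pow_le_pow_left₀ (by positivity) h3 3

/-- the indicator function of `[0,N)` -/
noncomputable def chi (N : ℕ) (k : ℤ) : ℝ := if k ∈ Finset.Ico (0 : ℤ) N then 1 else 0

lemma chi_nonneg (N : ℕ) (k : ℤ) : 0 ≤ chi N k := by unfold chi; split_ifs <;> norm_num

lemma chi_le_one (N : ℕ) (k : ℤ) : chi N k ≤ 1 := by unfold chi; split_ifs <;> norm_num

lemma chi_sq (N : ℕ) (k : ℤ) : chi N k ^ 2 = chi N k := by unfold chi; split_ifs <;> norm_num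

lemma chi_diff_le_one (N : ℕ) (k m : ℤ) : |chi N (k + m) - chi N k| ≤ 1 := by
  rw [abs_le]
  constructor <;> linarith [chi_nonneg N k, chi_nonneg N (k + m), chi_le_one N k,
    chi_le_one N (k + m)]

lemma sum_chi (N : ℕ) (F : Finset ℤ) : ∑ k ∈ F, chi N k ≤ N := by
  unfold chi
  rw [Finset.sum_ite_mem, Finset.sum_const, nsmul_eq_mul, mul_one]
  have : (F ∩ Finset.Ico (0 : ℤ) N).card ≤ N := by
    refine (Finset.card_le_card Finset.inter_subset_right).trans ?_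
    simp
  exact_mod_cast this

lemma sum_chi_diff (N : ℕ) (F : Finset ℤ) (m : ℤ) :
    ∑ k ∈ F, |chi N (k + m) - chi N k| ≤ 4 * |(m : ℝ)| + 2 := by
  have h1 : ∀ k, |chi N (k + m) - chi N k| ≤
      (if k ∈ Finset.Icc (-|m|) |m| then (1:ℝ) else 0) +
      (if k ∈ Finset.Icc ((N:ℤ)-|m|) (N+|m|) then (1:ℝ) else 0) := by
    intro k
    unfold chi
    simp only [Finset.mem_Ico, Finset.mem_Icc]
    have h2 := neg_abs_le m
    have h3 := le_abs_self m
    split_ifs with h4 h5 h6 h7 h8 h9 h10 <;> norm_num <;> exfalso <;> omega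
  have h2 : ∀ (A : Finset ℤ), ∑ k ∈ F, (if k ∈ A then (1:ℝ) else 0) ≤ A.card := by
    intro A
    rw [Finset.sum_ite_mem, Finset.sum_const, nsmul_eq_mul, mul_one]
    exact_mod_cast Finset.card_le_card Finset.inter_subset_right
  calc ∑ k ∈ F, |chi N (k + m) - chi N k| ≤ ∑ k ∈ F, (
      (if k ∈ Finset.Icc (-|m|) |m| then (1:ℝ) else 0) +
      (if k ∈ Finset.Icc ((N:ℤ)-|m|) (N+|m|) then (1:ℝ) else 0)) :=
        Finset.sum_le_sum fun k _ => h1 k
    _ = ∑ k ∈ F, (if k ∈ Finset.Icc (-|m|) |m| then (1:ℝ) else 0) +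
      ∑ k ∈ F, (if k ∈ Finset.Icc ((N:ℤ)-|m|) (N+|m|) then (1:ℝ) else 0) :=
        Finset.sum_add_distrib
    _ ≤ (Finset.Icc (-|m|) |m|).card + (Finset.Icc ((N:ℤ)-|m|) (N+|m|)).card :=
        add_le_add (h2 _) (h2 _)
    _ = _ := by
        rw [Int.card_Icc, Int.card_Icc]
        have e1 : (((|m| + 1 - -|m|).toNat : ℕ) : ℝ) = 2 * |(m : ℝ)| + 1 := by
          have : (((|m| + 1 - -|m|).toNat : ℕ) : ℤ) = 2 * |m| + 1 := by
            rw [Int.toNat_of_nonneg (by have := abs_nonneg m; omega)]; ring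
          have h := congrArg (Int.cast : ℤ → ℝ) this
          push_cast at h
          exact h
        have e2 : (((N + |m| + 1 - (N - |m|)).toNat : ℕ) : ℝ) = 2 * |(m : ℝ)| + 1 := by
          have : (((N + |m| + 1 - (N - |m|)).toNat : ℕ) : ℤ) = 2 * |m| + 1 := by
            rw [Int.toNat_of_nonneg (by have := abs_nonneg m; omega)]; ring
          have h := congrArg (Int.cast : ℤ → ℝ) this
          push_cast at h
          exact h
        rw [e1, e2]
        ring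

/-- the core estimate -/
lemma core (v : ℤ → ℂ) (β : ℤ → ℝ) (hv : ∀ m, ‖v m‖ ≤ β m) (hβ : Summable β)
    (hβ1 : Summable (fun m : ℤ => (4 * |(m : ℝ)| + 2) * β m)) (N : ℕ) (F : Finset ℤ) :
    ∑ k ∈ F, ‖∑ j ∈ Finset.Ico (0:ℤ) N, v (j - k)‖ ^ 2 ≤
      2 * ((∑' m, β m) * (∑' m : ℤ, (4 * |(m : ℝ)| + 2) * β m)) + 2 * (N * ‖∑' m, v m‖ ^ 2) := by
  have hβ0 : ∀ m, 0 ≤ β m := fun m => (norm_nonneg _).trans (hv m)
  have hvs : Summable v := Summable.of_norm_bounded hβ hv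
  set B := ∑' m, β m with hB
  set V := ∑' m, v m with hV
  set A : ℤ → ℝ := fun k => ∑' m, |chi N (k + m) - chi N k| * β m with hA
  have hAs : ∀ k, Summable (fun m => |chi N (k + m) - chi N k| * β m) := fun k =>
    Summable.of_nonneg_of_le (fun m => mul_nonneg (abs_nonneg _) (hβ0 m))
      (fun m => mul_le_of_le_one_left (hβ0 m) (chi_diff_le_one N k m)) hβ
  have hA0 : ∀ k, 0 ≤ A k := fun k => tsum_nonneg fun m => mul_nonneg (abs_nonneg _) (hβ0 m)
  have hAB : ∀ k, A k ≤ B := fun k => (hAs k).tsum_le_tsum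
    (fun m => mul_le_of_le_one_left (hβ0 m) (chi_diff_le_one N k m)) hβ
  have h1 : ∀ k, ∑ j ∈ Finset.Ico (0:ℤ) N, v (j - k) =
      ∑' m, ((chi N (k + m) - chi N k : ℝ) : ℂ) * v m + (chi N k : ℂ) * V := by
    intro k
    have e1 : ∑ j ∈ Finset.Ico (0:ℤ) N, v (j - k) = ∑' j, (chi N j : ℂ) * v (j - k) := by
      rw [tsum_eq_sum (s := Finset.Ico (0:ℤ) N)]
      · refine Finset.sum_congr rfl fun j hj => ?_
        unfold chi
        rw [if_pos hj]
        simp
      · intro j hj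
        unfold chi
        rw [if_neg hj]
        simp
    have e2 : ∑' j, (chi N j : ℂ) * v (j - k) = ∑' m, (chi N (k + m) : ℂ) * v m := by
      rw [← (Equiv.addLeft k).tsum_eq]
      refine tsum_congr fun m => ?_
      simp [Equiv.coe_addLeft]
    have hs1 : Summable (fun m => ((chi N (k + m) - chi N k : ℝ) : ℂ) * v m) := by
      refine Summable.of_norm_bounded hβ fun m => ?_
      rw [norm_mul, Complex.norm_real, Real.norm_eq_abs]
      exact (mul_le_of_le_one_left (norm_nonneg _) (chi_diff_le_one N k m)).trans (hv m)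
    rw [e1, e2, hV, ← tsum_mul_left, ← hs1.tsum_add (hvs.mul_left _)]
    refine tsum_congr fun m => ?_
    push_cast
    ring
  have h2 : ∀ k, ‖∑ j ∈ Finset.Ico (0:ℤ) N, v (j - k)‖ ≤ A k + chi N k * ‖V‖ := by
    intro k
    rw [h1]
    refine (norm_add_le _ _).trans (add_le_add ?_ ?_)
    · have hbd : ∀ m, ‖((chi N (k + m) - chi N k : ℝ) : ℂ) * v m‖ ≤
          |chi N (k + m) - chi N k| * β m := by
        intro m
        rw [norm_mul, Complex.norm_real, Real.norm_eq_abs]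
        exact mul_le_mul_of_nonneg_left (hv m) (abs_nonneg _)
      exact tsum_of_norm_bounded (hAs k).hasSum hbd
    · rw [norm_mul, Complex.norm_real, Real.norm_eq_abs, abs_of_nonneg (chi_nonneg N k)]
  have h3 : ∀ k, ‖∑ j ∈ Finset.Ico (0:ℤ) N, v (j - k)‖ ^ 2 ≤
      2 * (B * A k) + 2 * (chi N k * ‖V‖ ^ 2) := by
    intro k
    have h4 : ‖∑ j ∈ Finset.Ico (0:ℤ) N, v (j - k)‖ ^ 2 ≤ (A k + chi N k * ‖V‖) ^ 2 :=
      pow_le_pow_left₀ (norm_nonneg _) (h2 k) 2
    have h5 : (A k + chi N k * ‖V‖) ^ 2 ≤ 2 * A k ^ 2 + 2 * (chi N k ^ 2 * ‖V‖ ^ 2) := by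
      nlinarith [sq_nonneg (A k - chi N k * ‖V‖)]
    rw [chi_sq] at h5
    have h6 : A k ^ 2 ≤ B * A k := by
      rw [pow_two]
      exact mul_le_mul_of_nonneg_right (hAB k) (hA0 k)
    linarith
  have h7 : ∑ k ∈ F, A k ≤ ∑' m : ℤ, (4 * |(m : ℝ)| + 2) * β m := by
    rw [hA, ← Summable.tsum_finsetSum fun k _ => hAs k]
    refine Summable.tsum_le_tsum (fun m => ?_) (summable_sum fun k _ => hAs k) hβ1
    rw [← Finset.sum_mul]
    exact mul_le_mul_of_nonneg_right (sum_chi_diff N F m) (hβ0 m)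
  have hB0 : 0 ≤ B := tsum_nonneg hβ0
  calc ∑ k ∈ F, ‖∑ j ∈ Finset.Ico (0:ℤ) N, v (j - k)‖ ^ 2
      ≤ ∑ k ∈ F, (2 * (B * A k) + 2 * (chi N k * ‖V‖ ^ 2)) := Finset.sum_le_sum fun k _ => h3 k
    _ = 2 * (B * ∑ k ∈ F, A k) + 2 * ((∑ k ∈ F, chi N k) * ‖V‖ ^ 2) := by
        rw [Finset.sum_add_distrib, Finset.mul_sum, Finset.mul_sum, Finset.sum_mul, Finset.mul_sum]
    _ ≤ _ := by
        have := mul_le_mul_of_nonneg_left h7 hB0
        have := mul_le_mul_of_nonneg_right (sum_chi N F) (sq_nonneg ‖V‖)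
        linarith

end Pool.Agent.H321R3.Herm
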