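import Mathlib

set_option autoImplicit false
open MeasureTheory Filter Set

namespace Pool.Agent.H321R3.Herm

/-- The `n`-th Hermite function
`h_n(t) = (-1)^n C_n e^{π t²} (d/dt)^n e^{-2π t²}`, with `C_n = 2^{1/4} / √(n! (2π)^n 2^n)`. -/
noncomputable def hermiteFun (n : ℕ) (t : ℝ) : ℝ :=
  (-1) ^ n * ((2 : ℝ) ^ (1 / 4 : ℝ) /
      Real.sqrt ((n.factorial : ℝ) * (2 * Real.pi) ^ n * 2 ^ n)) *
    Real.exp (Real.pi * t ^ 2) *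
    iteratedDeriv n (fun s : ℝ => Real.exp (-(2 * Real.pi * s ^ 2))) t

/-- The time-frequency shift `π(z)g(t) = e^{2π i ω t} g(t - x)` for `z = (x, ω)`. -/
noncomputable def tfShift (z : ℝ × ℝ) (g : ℝ → ℂ) (t : ℝ) : ℂ :=
  Complex.exp (2 * (Real.pi : ℂ) * Complex.I * (z.2 : ℂ) * (t : ℂ)) * g (t - z.1)

/-- The number `|⟨f, π(z) g⟩|²`, as an element of `[0,∞]`. -/
noncomputable def gaborCoeffSq (g f : ℝ → ℂ) (z : ℝ × ℝ) : ENNReal :=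
  ENNReal.ofReal (‖∫ t : ℝ, f t * (starRingEnd ℂ) (tfShift z g t)‖ ^ 2)

/-- The Gabor system `{π(γ) g : γ ∈ Γ}` is a frame for `L²(ℝ)`: there are `0 < A ≤ B < ∞` with
`A ‖f‖² ≤ ∑_{γ ∈ Γ} |⟨f, π(γ) g⟩|² ≤ B ‖f‖²` for all square integrable `f`. -/
def IsGaborFrame (g : ℝ → ℂ) (Γ : Set (ℝ × ℝ)) : Prop :=
  ∃ A B : ℝ, 0 < A ∧ A ≤ B ∧ ∀ f : ℝ → ℂ, MemLp f 2 volume →
    ENNReal.ofReal (A * ∫ t : ℝ, ‖f t‖ ^ 2) ≤ ∑' γ : Γ, gaborCoeffSq g f γ ∧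
    ∑' γ : Γ, gaborCoeffSq g f γ ≤ ENNReal.ofReal (B * ∫ t : ℝ, ‖f t‖ ^ 2)

/-- `Γ` is separated: distinct points have Euclidean distance at least some `δ > 0`. -/
def IsSeparatedSet (Γ : Set (ℝ × ℝ)) : Prop :=
  ∃ δ : ℝ, 0 < δ ∧ ∀ γ ∈ Γ, ∀ γ' ∈ Γ, γ ≠ γ' →
    δ ≤ Real.sqrt ((γ.1 - γ'.1) ^ 2 + (γ.2 - γ'.2) ^ 2)

/-- The lower Beurling density
`liminf_{R → ∞} inf_z #(Γ ∩ (z + [0,R)²)) / R²` (used only for separated `Γ`, for which all the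
counted sets are finite). -/
noncomputable def lowerBeurlingDensity (Γ : Set (ℝ × ℝ)) : ℝ :=
  liminf (fun R : ℝ => ⨅ z : ℝ × ℝ,
    ((Γ ∩ (Ico z.1 (z.1 + R) ×ˢ Ico z.2 (z.2 + R))).ncard : ℝ) / R ^ 2) atTop

/-- The points `(x + k a, ω + l / a)`. -/
noncomputable def latPt (a x ω : ℝ) (p : ℤ × ℤ) : ℝ × ℝ := (x + p.1 * a, ω + p.2 / a)

/-- The union of the cosets `(x i, ω i) + (a ℤ × a⁻¹ ℤ)`. -/
def cosets {ι : Type} (a : ℝ) (x ω : ι → ℝ) : Set (ℝ × ℝ) :=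
  ⋃ i, Set.range (latPt a (x i) (ω i))

end Pool.Agent.H321R3.Herm
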