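import Mathlib
import Pool.Agent.H321R3.HermDef

set_option autoImplicit false
open MeasureTheory Filter Topology Set

namespace Pool.Agent.H321R3.Herm

lemma exists_gap (y a : ℝ) (ha : 0 < a) : ∃ δ : ℝ, 0 < δ ∧ ∀ m : ℤ, y + m * a ≠ 0 →
    δ ≤ |y + m * a| := by
  have h1 : ∀ m : ℤ, y + m * a = ((⌊y / a⌋ + m : ℤ) + Int.fract (y / a)) * a := by
    intro m
    have := Int.floor_add_fract (y / a)
    push_cast
    have h2 : y / a * a = y := div_mul_cancel₀ y ha.ne'
    nlinarith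
  set f := Int.fract (y / a) with hf
  have hf0 : 0 ≤ f := Int.fract_nonneg _
  have hf1 : f < 1 := Int.fract_lt_one _
  rcases hf0.eq_or_lt with h0 | h0
  · refine ⟨a, ha, fun m hm => ?_⟩
    rw [h1, ← h0, add_zero] at hm ⊢
    rw [abs_mul, abs_of_pos ha]
    have h3 : (⌊y / a⌋ + m : ℤ) ≠ 0 := by
      intro h
      rw [h] at hm
      simp at hm
    have h4 : (1 : ℝ) ≤ |((⌊y / a⌋ + m : ℤ) : ℝ)| := by
      have := Int.one_le_abs h3
      exact_mod_cast this
    nlinarith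
  · refine ⟨min f (1 - f) * a, mul_pos (lt_min h0 (by linarith)) ha, fun m hm => ?_⟩
    rw [h1, abs_mul, abs_of_pos ha]
    refine mul_le_mul_of_nonneg_right ?_ ha.le
    rcases le_or_gt 0 (⌊y / a⌋ + m : ℤ) with h5 | h5
    · have h6 : (0:ℝ) ≤ ((⌊y / a⌋ + m : ℤ) : ℝ) := by exact_mod_cast h5
      rw [abs_of_nonneg (by linarith)]
      exact (min_le_left _ _).trans (by linarith)
    · have h6 : (((⌊y / a⌋ + m : ℤ)) : ℝ) ≤ -1 := by
        have : (⌊y / a⌋ + m : ℤ) ≤ -1 := by omega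
        exact_mod_cast this
      rw [abs_of_neg (by linarith)]
      exact (min_le_right _ _).trans (by linarith)

lemma isSeparated_cosets {ι : Type} [Fintype ι] (a : ℝ) (ha : 0 < a) (x ω : ι → ℝ) :
    IsSeparatedSet (cosets a x ω) := by
  choose δ hδ hδ2 using fun (q : ι × ι) => exists_gap (x q.1 - x q.2) a ha
  choose δ' hδ' hδ2' using fun (q : ι × ι) => exists_gap (ω q.1 - ω q.2) (1 / a) (by positivity)
  by_cases hι : Nonempty ι
  · have hfin : ∃ r : ℝ, 0 < r ∧ ∀ q : ι × ι, r ≤ δ q ∧ r ≤ δ' q := by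
      obtain ⟨q0, -, hq0⟩ := Finset.exists_min_image (Finset.univ : Finset (ι × ι))
        (fun q => min (δ q) (δ' q)) Finset.univ_nonempty
      refine ⟨min (δ q0) (δ' q0), lt_min (hδ q0) (hδ' q0), fun q => ?_⟩
      have := hq0 q (Finset.mem_univ q)
      exact ⟨this.trans (min_le_left _ _), this.trans (min_le_right _ _)⟩
    obtain ⟨r, hr, hr2⟩ := hfin
    refine ⟨r, hr, ?_⟩
    rintro γ hγ γ' hγ' hne
    obtain ⟨i, ⟨k, l⟩, rfl⟩ := Set.mem_iUnion.1 hγ
    obtain ⟨j, ⟨k', l'⟩, rfl⟩ := Set.mem_iUnion.1 hγ'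
    simp only [latPt] at hne ⊢
    by_cases h1 : x i + k * a = x j + k' * a
    · have h2 : ω i + l / a ≠ ω j + l' / a := fun h => hne (by rw [h1, h])
      have h3 : (ω i - ω j) + ((l - l' : ℤ) : ℝ) * (1 / a) ≠ 0 := by
        intro h
        apply h2
        push_cast at h
        have : ω i + l / a - (ω j + l' / a) = 0 := by rw [← h]; ring
        linarith
      have h4 := hδ2' (i, j) (l - l') h3
      refine (hr2 (i, j)).2.trans (h4.trans ?_)
      rw [← Real.sqrt_sq_eq_abs]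
      apply Real.sqrt_le_sqrt
      have : ((ω i - ω j) + ((l - l' : ℤ) : ℝ) * (1 / a)) =
        (ω i + l / a - (ω j + l' / a)) := by push_cast; ring
      simp only at this ⊢
      rw [this]
      nlinarith [sq_nonneg (x i + k * a - (x j + k' * a))]
    · have h3 : (x i - x j) + ((k - k' : ℤ) : ℝ) * a ≠ 0 := by
        intro h
        apply h1
        push_cast at h
        linarith
      have h4 := hδ2 (i, j) (k - k') h3
      refine (hr2 (i, j)).1.trans (h4.trans ?_)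
      rw [← Real.sqrt_sq_eq_abs]
      apply Real.sqrt_le_sqrt
      have : ((x i - x j) + ((k - k' : ℤ) : ℝ) * a) =
        (x i + k * a - (x j + k' * a)) := by push_cast; ring
      simp only at this ⊢
      rw [this]
      nlinarith [sq_nonneg (ω i + l / a - (ω j + l' / a))]
  · refine ⟨1, one_pos, ?_⟩
    rintro γ hγ
    obtain ⟨i, -⟩ := Set.mem_iUnion.1 hγ
    exact absurd ⟨i⟩ hι

/-- arithmetic progressions -/
def AP (s a : ℝ) : Set ℝ := Set.range (fun k : ℤ => s + k * a)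

lemma AP_inter (s a : ℝ) (ha : 0 < a) (z R : ℝ) : AP s a ∩ Ico z (z + R) =
    (fun k : ℤ => s + k * a) '' (Finset.Ico ⌈(z - s) / a⌉ ⌈(z + R - s) / a⌉ : Finset ℤ) := by
  ext y
  simp only [AP, mem_inter_iff, mem_range, mem_Ico, mem_image, Finset.coe_Ico]
  constructor
  · rintro ⟨⟨m, rfl⟩, h1, h2⟩
    refine ⟨m, ⟨Int.ceil_le.2 ?_, Int.lt_ceil.2 ?_⟩, rfl⟩
    · rw [div_le_iff₀ ha]; linarith
    · rw [lt_div_iff₀ ha]; linarith
  · rintro ⟨m, ⟨h1, h2⟩, rfl⟩
    have h1' := Int.ceil_le.1 h1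
    have h2' := Int.lt_ceil.1 h2
    rw [div_le_iff₀ ha] at h1'
    rw [lt_div_iff₀ ha] at h2'
    exact ⟨⟨m, rfl⟩, by linarith, by linarith⟩

lemma AP_inj (s a : ℝ) (ha : 0 < a) : Function.Injective (fun k : ℤ => s + k * a) := by
  intro m n h
  simp only [add_right_inj] at h
  exact_mod_cast mul_right_cancel₀ ha.ne' h

lemma AP_finite (s a : ℝ) (ha : 0 < a) (z R : ℝ) : (AP s a ∩ Ico z (z + R)).Finite := by
  rw [AP_inter s a ha]
  exact (Finset.finite_toSet _).image _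

lemma AP_ncard (s a : ℝ) (ha : 0 < a) (z R : ℝ) : (AP s a ∩ Ico z (z + R)).ncard =
    (⌈(z + R - s) / a⌉ - ⌈(z - s) / a⌉).toNat := by
  rw [AP_inter s a ha, Set.ncard_image_of_injective _ (AP_inj s a ha), Set.ncard_coe_finset,
    Int.card_Ico]

lemma AP_ncard_le (s a : ℝ) (ha : 0 < a) (z R : ℝ) (hR : 0 ≤ R) :
    ((AP s a ∩ Ico z (z + R)).ncard : ℝ) ≤ R / a + 1 := by
  rw [AP_ncard s a ha]
  have h0 : (z - s) / a ≤ (z + R - s) / a := by gcongr; linarith
  have h1 : ⌈(z - s) / a⌉ ≤ ⌈(z + R - s) / a⌉ := Int.ceil_mono h0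
  have h2 : (((⌈(z + R - s) / a⌉ - ⌈(z - s) / a⌉).toNat : ℤ) : ℝ) =
      (⌈(z + R - s) / a⌉ : ℝ) - ⌈(z - s) / a⌉ := by
    rw [Int.toNat_of_nonneg (by omega)]
    push_cast
    ring
  have h3 : (((⌈(z + R - s) / a⌉ - ⌈(z - s) / a⌉).toNat : ℕ) : ℝ) =
      (⌈(z + R - s) / a⌉ : ℝ) - ⌈(z - s) / a⌉ := by
    rw [← h2]
    norm_cast
  rw [h3]
  have h4 := Int.ceil_lt_add_one ((z + R - s) / a)
  have h5 := Int.le_ceil ((z - s) / a)
  have h6 : (z + R - s) / a = (z - s) / a + R / a := by ring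
  linarith

lemma AP_ncard_ge (s a : ℝ) (ha : 0 < a) (z R : ℝ) :
    R / a - 1 ≤ ((AP s a ∩ Ico z (z + R)).ncard : ℝ) := by
  rw [AP_ncard s a ha]
  have h2 : (⌈(z + R - s) / a⌉ : ℝ) - ⌈(z - s) / a⌉ ≤
      (((⌈(z + R - s) / a⌉ - ⌈(z - s) / a⌉).toNat : ℕ) : ℝ) := by
    have := Int.self_le_toNat (⌈(z + R - s) / a⌉ - ⌈(z - s) / a⌉)
    exact_mod_cast this
  have h4 := Int.ceil_lt_add_one ((z - s) / a)
  have h5 := Int.le_ceil ((z + R - s) / a)
  have h6 : (z + R - s) / a = (z - s) / a + R / a := by ring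
  linarith

lemma range_latPt (a x ω : ℝ) : Set.range (latPt a x ω) = AP x a ×ˢ AP ω (1 / a) := by
  ext ⟨u, v⟩
  simp only [mem_range, latPt, AP, mem_prod, Prod.mk.injEq, Prod.exists]
  constructor
  · rintro ⟨k, l, rfl, rfl⟩
    exact ⟨⟨k, rfl⟩, ⟨l, by ring⟩⟩
  · rintro ⟨⟨k, rfl⟩, ⟨l, rfl⟩⟩
    exact ⟨k, l, rfl, by ring⟩

/-- the number of points of a finite union of disjoint sets -/
lemma ncard_iUnion_fin {ι α : Type} [Fintype ι] (S : ι → Set α) (hS : ∀ i, (S i).Finite)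
    (hd : Pairwise (fun i j => Disjoint (S i) (S j))) :
    (⋃ i, S i).ncard = ∑ i, (S i).ncard := by
  classical
  have h1 : (⋃ i, S i) = ((Finset.univ.biUnion fun i => (hS i).toFinset : Finset α) : Set α) := by
    ext y
    simp
  rw [h1, Set.ncard_coe_finset, Finset.card_biUnion]
  · refine Finset.sum_congr rfl fun i _ => ?_
    rw [Set.ncard_eq_toFinset_card _ (hS i)]
  · intro i _ j _ hij
    show Disjoint (hS i).toFinset (hS j).toFinset
    rw [Set.Finite.disjoint_toFinset]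
    exact hd hij

lemma box_count {ι : Type} [Fintype ι] (a : ℝ) (ha : 0 < a) (x ω : ι → ℝ)
    (hd : Pairwise (fun i j => Disjoint (Set.range (latPt a (x i) (ω i)))
      (Set.range (latPt a (x j) (ω j))))) (z : ℝ × ℝ) (R : ℝ) :
    (cosets a x ω ∩ (Ico z.1 (z.1 + R) ×ˢ Ico z.2 (z.2 + R))).ncard =
      ∑ i, (AP (x i) a ∩ Ico z.1 (z.1 + R)).ncard *
        (AP (ω i) (1 / a) ∩ Ico z.2 (z.2 + R)).ncard := by
  unfold cosets
  rw [Set.iUnion_inter, ncard_iUnion_fin]
  · refine Finset.sum_congr rfl fun i _ => ?_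
    rw [range_latPt, Set.prod_inter_prod, Set.ncard_prod]
  · intro i
    rw [range_latPt, Set.prod_inter_prod]
    exact (AP_finite _ _ ha _ _).prod (AP_finite _ _ (by positivity) _ _)
  · intro i j hij
    exact (hd hij).mono inter_subset_left inter_subset_left

lemma density_cosets {ι : Type} [Fintype ι] (a : ℝ) (ha : 0 < a) (x ω : ι → ℝ)
    (hd : Pairwise (fun i j => Disjoint (Set.range (latPt a (x i) (ω i)))
      (Set.range (latPt a (x j) (ω j))))) :
    lowerBeurlingDensity (cosets a x ω) = Fintype.card ι := by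
  unfold lowerBeurlingDensity
  apply Filter.Tendsto.liminf_eq
  have hinv : Tendsto (fun R : ℝ => R⁻¹) atTop (𝓝 0) := tendsto_inv_atTop_zero
  have hl : Tendsto (fun R : ℝ => (Fintype.card ι : ℝ) * ((1 / a - R⁻¹) * (a - R⁻¹))) atTop
      (𝓝 (Fintype.card ι)) := by
    have := ((hinv.const_sub (1 / a)).mul (hinv.const_sub a)).const_mul (Fintype.card ι : ℝ)
    simpa [ha.ne'] using this
  have hu : Tendsto (fun R : ℝ => (Fintype.card ι : ℝ) * ((1 / a + R⁻¹) * (a + R⁻¹))) atTop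
      (𝓝 (Fintype.card ι)) := by
    have := ((hinv.const_add (1 / a)).mul (hinv.const_add a)).const_mul (Fintype.card ι : ℝ)
    simpa [ha.ne'] using this
  refine tendsto_of_tendsto_of_tendsto_of_le_of_le' hl hu ?_ ?_
  · filter_upwards [eventually_ge_atTop (max a (1 / a)), eventually_gt_atTop (0 : ℝ)] with R hR hR0
    refine le_ciInf fun z => ?_
    rw [le_div_iff₀ (by positivity), box_count a ha x ω hd]
    push_cast
    have h1 : (Fintype.card ι : ℝ) * ((1 / a - R⁻¹) * (a - R⁻¹)) * R ^ 2 =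
        ∑ i : ι, (R / a - 1) * (R / (1 / a) - 1) := by
      rw [Finset.sum_const, nsmul_eq_mul, Finset.card_univ]
      field_simp
    rw [h1]
    refine Finset.sum_le_sum fun i _ => ?_
    have h2 := AP_ncard_ge (x i) a ha z.1 R
    have h3 := AP_ncard_ge (ω i) (1 / a) (by positivity) z.2 R
    have h4 : 0 ≤ R / (1 / a) - 1 := by
      have : 1 ≤ R / (1 / a) := by
        rw [le_div_iff₀ (by positivity), one_mul]
        exact (le_max_right _ _).trans hR
      linarith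
    exact mul_le_mul h2 h3 h4 (Nat.cast_nonneg _)
  · filter_upwards [eventually_gt_atTop (0 : ℝ)] with R hR0
    refine (ciInf_le ⟨0, ?_⟩ ((0, 0) : ℝ × ℝ)).trans ?_
    · rintro _ ⟨z, rfl⟩
      positivity
    rw [div_le_iff₀ (by positivity), box_count a ha x ω hd]
    push_cast
    have h1 : (Fintype.card ι : ℝ) * ((1 / a + R⁻¹) * (a + R⁻¹)) * R ^ 2 =
        ∑ i : ι, (R / a + 1) * (R / (1 / a) + 1) := by
      rw [Finset.sum_const, nsmul_eq_mul, Finset.card_univ]
      field_simp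
    rw [h1]
    refine Finset.sum_le_sum fun i _ => ?_
    have h2 := AP_ncard_le (x i) a ha 0 R hR0.le
    have h3 := AP_ncard_le (ω i) (1 / a) (by positivity) 0 R hR0.le
    exact mul_le_mul h2 h3 (Nat.cast_nonneg _) (by positivity)

end Pool.Agent.H321R3.Herm
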