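import Mathlib
import Pool.Agent.H321R3.HermDef

set_option autoImplicit false
open MeasureTheory Filter Topology Set

namespace Pool.Agent.H321R3.Herm

/-- the Gaussian -/
noncomputable def G (s : ℝ) : ℝ := Real.exp (-(2 * Real.pi * s ^ 2))

lemma deriv_poly_G (P : Polynomial ℝ) (t : ℝ) :
    HasDerivAt (fun s => P.eval s * G s)
      ((P.derivative - Polynomial.C (4 * Real.pi) * Polynomial.X * P).eval t * G t) t := by
  have h1 : HasDerivAt (fun s => P.eval s) (P.derivative.eval t) t := P.hasDerivAt t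
  have h2 : HasDerivAt G (Real.exp (-(2 * Real.pi * t ^ 2)) * (-(2 * Real.pi * (2 * t)))) t := by
    unfold G
    have h3 : HasDerivAt (fun s : ℝ => -(2 * Real.pi * s ^ 2)) (-(2 * Real.pi * (2 * t))) t := by
      have := ((hasDerivAt_pow 2 t).const_mul (2 * Real.pi)).fun_neg
      simpa using this
    exact h3.exp
  have h := h1.fun_mul h2
  refine h.congr_deriv ?_
  simp only [Polynomial.eval_sub, Polynomial.eval_mul, Polynomial.eval_C, Polynomial.eval_X]
  unfold G
  ring

lemma exists_poly (n : ℕ) : ∃ P : Polynomial ℝ, ∀ t, iteratedDeriv n G t = P.eval t * G t := by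
  induction n with
  | zero => exact ⟨1, fun t => by simp⟩
  | succ n ih =>
    obtain ⟨P, hP⟩ := ih
    refine ⟨P.derivative - Polynomial.C (4 * Real.pi) * Polynomial.X * P, fun t => ?_⟩
    rw [iteratedDeriv_succ, show iteratedDeriv n G = fun t => P.eval t * G t from funext hP]
    exact (deriv_poly_G P t).deriv

lemma exp_decay (m : ℕ) : ∃ C : ℝ, 0 ≤ C ∧ ∀ t : ℝ, (1 + |t|) ^ m * Real.exp (-(Real.pi * t ^ 2)) ≤ C := by
  refine ⟨m.factorial * Real.exp 2, by positivity, fun t => ?_⟩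
  have h0 : 0 ≤ |t| := abs_nonneg t
  have h1 : (1 + |t|) ^ m ≤ m.factorial * Real.exp (1 + |t|) := by
    have := Real.pow_div_factorial_le_exp (1 + |t|) (by positivity) m
    rw [div_le_iff₀ (by positivity)] at this
    linarith
  have h2 : Real.exp (-(Real.pi * t ^ 2)) ≤ Real.exp (1 - |t|) := by
    apply Real.exp_le_exp.2
    have h3 : (3:ℝ) ≤ Real.pi := Real.pi_gt_three.le
    have h4 : t ^ 2 = |t| ^ 2 := (sq_abs t).symm
    rw [h4]
    nlinarith [sq_nonneg (|t| - 1), sq_nonneg (|t|), mul_nonneg (sub_nonneg.2 h3) (sq_nonneg |t|)]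
  calc (1 + |t|) ^ m * Real.exp (-(Real.pi * t ^ 2))
      ≤ (m.factorial * Real.exp (1 + |t|)) * Real.exp (1 - |t|) :=
        mul_le_mul h1 h2 (Real.exp_pos _).le (by positivity)
    _ = m.factorial * Real.exp 2 := by
        rw [mul_assoc, ← Real.exp_add]
        congr 2
        ring

lemma poly_bound (P : Polynomial ℝ) : ∃ D : ℝ, 0 ≤ D ∧ ∀ t, |P.eval t| ≤ D * (1 + |t|) ^ P.natDegree := by
  refine ⟨∑ i ∈ Finset.range (P.natDegree + 1), |P.coeff i|,
    Finset.sum_nonneg fun _ _ => abs_nonneg _, fun t => ?_⟩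
  rw [Polynomial.eval_eq_sum_range, Finset.sum_mul]
  refine (Finset.abs_sum_le_sum_abs _ _).trans (Finset.sum_le_sum fun i hi => ?_)
  rw [abs_mul]
  refine mul_le_mul_of_nonneg_left ?_ (abs_nonneg _)
  rw [abs_pow]
  have h0 : 0 ≤ |t| := abs_nonneg t
  calc |t| ^ i ≤ (1 + |t|) ^ i := pow_le_pow_left₀ h0 (by linarith) i
    _ ≤ _ := pow_le_pow_right₀ (by linarith) (by
      have := Finset.mem_range.1 hi
      omega)

lemma poly_exp_decay (P : Polynomial ℝ) : ∃ C : ℝ, 0 ≤ C ∧ ∀ t,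
    |P.eval t * Real.exp (-(Real.pi * t ^ 2))| ≤ C * (1 / (1 + |t|) ^ 3) := by
  obtain ⟨D, hD, hD2⟩ := poly_bound P
  obtain ⟨C, hC, hC2⟩ := exp_decay (P.natDegree + 3)
  refine ⟨D * C, by positivity, fun t => ?_⟩
  rw [abs_mul, abs_of_pos (Real.exp_pos _), mul_one_div, le_div_iff₀ (by positivity)]
  have h1 := hC2 t
  have h2 := hD2 t
  calc |P.eval t| * Real.exp (-(Real.pi * t ^ 2)) * (1 + |t|) ^ 3
      ≤ D * (1 + |t|) ^ P.natDegree * Real.exp (-(Real.pi * t ^ 2)) * (1 + |t|) ^ 3 := by gcongr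
    _ = D * ((1 + |t|) ^ (P.natDegree + 3) * Real.exp (-(Real.pi * t ^ 2))) := by ring
    _ ≤ _ := mul_le_mul_of_nonneg_left h1 hD

/-- the normalising constant -/
noncomputable def cn (n : ℕ) : ℝ :=
  (-1) ^ n * ((2 : ℝ) ^ (1 / 4 : ℝ) /
      Real.sqrt ((n.factorial : ℝ) * (2 * Real.pi) ^ n * 2 ^ n))

lemma cn_ne_zero (n : ℕ) : cn n ≠ 0 := by
  unfold cn
  have h1 : 0 < Real.sqrt ((n.factorial : ℝ) * (2 * Real.pi) ^ n * 2 ^ n) :=
    Real.sqrt_pos.2 (by positivity)
  positivity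

lemma hermiteFun_eq (n : ℕ) (t : ℝ) :
    hermiteFun n t = cn n * Real.exp (Real.pi * t ^ 2) * iteratedDeriv n G t := rfl

lemma hermiteFun_poly (n : ℕ) : ∃ P : Polynomial ℝ, ∀ t,
    hermiteFun n t = P.eval t * Real.exp (-(Real.pi * t ^ 2)) := by
  obtain ⟨P, hP⟩ := exists_poly n
  refine ⟨Polynomial.C (cn n) * P, fun t => ?_⟩
  rw [hermiteFun_eq, hP, Polynomial.eval_mul, Polynomial.eval_C]
  unfold G
  have : Real.exp (Real.pi * t ^ 2) * Real.exp (-(2 * Real.pi * t ^ 2)) =
      Real.exp (-(Real.pi * t ^ 2)) := by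
    rw [← Real.exp_add]
    congr 1
    ring
  rw [← this]
  ring

lemma hermiteFun_continuous (n : ℕ) : Continuous (hermiteFun n) := by
  obtain ⟨P, hP⟩ := hermiteFun_poly n
  rw [show hermiteFun n = fun t => P.eval t * Real.exp (-(Real.pi * t ^ 2)) from funext hP]
  fun_prop

lemma hermiteFun_decay (n : ℕ) : ∃ C : ℝ, 0 ≤ C ∧ ∀ t, |hermiteFun n t| ≤ C * (1 / (1 + |t|) ^ 3) := by
  obtain ⟨P, hP⟩ := hermiteFun_poly n
  obtain ⟨C, hC, hC2⟩ := poly_exp_decay P
  exact ⟨C, hC, fun t => by rw [hP]; exact hC2 t⟩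

lemma hermiteFun_neg (n : ℕ) (t : ℝ) : hermiteFun n (-t) = (-1) ^ n * hermiteFun n t := by
  have h1 : iteratedDeriv n G (-t) = (-1) ^ n * iteratedDeriv n G t := by
    have h2 : (fun x => G (-x)) = G := by
      funext x
      unfold G
      rw [neg_sq]
    have h3 := iteratedDeriv_comp_neg n G t
    rw [h2, smul_eq_mul] at h3
    rw [h3, ← mul_assoc, ← mul_pow]
    norm_num
  rw [hermiteFun_eq, hermiteFun_eq, h1, neg_sq]
  ring

lemma tendsto_iteratedDeriv_G (n : ℕ) (l : Filter ℝ) (hl : Tendsto (fun t : ℝ => |t|) l atTop) :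
    Tendsto (iteratedDeriv n G) l (𝓝 0) := by
  obtain ⟨P, hP⟩ := exists_poly n
  obtain ⟨C, hC, hC2⟩ := poly_exp_decay P
  have h1 : ∀ t, |iteratedDeriv n G t| ≤ C * (1 / (1 + |t|) ^ 3) := by
    intro t
    refine le_trans ?_ (hC2 t)
    rw [hP, abs_mul, abs_mul]
    refine mul_le_mul_of_nonneg_left ?_ (abs_nonneg _)
    unfold G
    rw [abs_of_pos (Real.exp_pos _), abs_of_pos (Real.exp_pos _)]
    apply Real.exp_le_exp.2
    nlinarith [mul_nonneg Real.pi_pos.le (sq_nonneg t)]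
  have h2 : Tendsto (fun t : ℝ => C * (1 / (1 + |t|) ^ 3)) l (𝓝 0) := by
    have h3 : Tendsto (fun t : ℝ => (1 + |t|) ^ 3) l atTop :=
      (tendsto_pow_atTop (by norm_num : 3 ≠ 0)).comp (tendsto_atTop_add_const_left l 1 hl)
    have h4 := (tendsto_inv_atTop_zero.comp h3).const_mul C
    simp only [mul_zero] at h4
    refine h4.congr fun t => ?_
    simp [one_div]
  exact squeeze_zero_norm (fun t => by rw [Real.norm_eq_abs]; exact h1 t) h2

/-- alternation of signs of the derivatives of the Gaussian -/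
lemma sign_pattern (n : ℕ) : ∃ (p : ℕ → ℝ) (σ : ℝ), (∀ i < n, p i < p (i + 1)) ∧
    ∀ i ≤ n, 0 < σ * (-1) ^ i * iteratedDeriv n G (p i) := by
  induction n with
  | zero =>
    refine ⟨fun _ => 0, 1, fun i hi => absurd hi (Nat.not_lt_zero i), fun i hi => ?_⟩
    rw [Nat.le_zero.1 hi]
    simp only [pow_zero, mul_one, one_mul, iteratedDeriv_zero]
    exact Real.exp_pos _
  | succ n ih =>
    obtain ⟨p, σ, hp, hs⟩ := ih
    obtain ⟨Pn, hPn⟩ := exists_poly n
    have hderiv : ∀ t, HasDerivAt (iteratedDeriv n G) (iteratedDeriv (n + 1) G t) t := by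
      intro t
      have h1 := deriv_poly_G Pn t
      rw [← show iteratedDeriv n G = fun t => Pn.eval t * G t from funext hPn] at h1
      have h2 := h1.deriv
      rw [iteratedDeriv_succ, h2]
      exact h1
    -- the far points
    have hbot : ∃ r < p 0, 0 < σ * (iteratedDeriv n G (p 0) - iteratedDeriv n G r) := by
      have h1 : Tendsto (fun r => σ * (iteratedDeriv n G (p 0) - iteratedDeriv n G r)) atBot
          (𝓝 (σ * (iteratedDeriv n G (p 0) - 0))) :=
        ((tendsto_iteratedDeriv_G n atBot tendsto_abs_atBot_atTop).const_sub _).const_mul _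
      have h2 := hs 0 (Nat.zero_le _)
      simp only [pow_zero, mul_one] at h2
      rw [sub_zero] at h1
      obtain ⟨r, hr1, hr2⟩ := ((h1.eventually_const_lt h2).and (eventually_lt_atBot (p 0))).exists
      exact ⟨r, hr2, hr1⟩
    have htop : ∃ r > p n, 0 < σ * (-1) ^ n *
        (iteratedDeriv n G (p n) - iteratedDeriv n G r) := by
      have h1 : Tendsto (fun r => σ * (-1) ^ n * (iteratedDeriv n G (p n) - iteratedDeriv n G r))
          atTop (𝓝 (σ * (-1) ^ n * (iteratedDeriv n G (p n) - 0))) :=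
        ((tendsto_iteratedDeriv_G n atTop tendsto_abs_atTop_atTop).const_sub _).const_mul _
      have h2 := hs n le_rfl
      rw [sub_zero] at h1
      obtain ⟨r, hr1, hr2⟩ := ((h1.eventually_const_lt h2).and (eventually_gt_atTop (p n))).exists
      exact ⟨r, hr2, hr1⟩
    obtain ⟨r, hr, hr2⟩ := hbot
    obtain ⟨r', hr', hr2'⟩ := htop
    -- the extended sequence
    set Q : ℕ → ℝ := fun i => if i = 0 then r else if i ≤ n + 1 then p (i - 1) else r' with hQ
    have hQ0 : Q 0 = r := by simp [hQ]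
    have hQi : ∀ i ≤ n, Q (i + 1) = p i := by
      intro i hi
      simp [hQ, hi]
    have hQn : Q (n + 2) = r' := by simp [hQ]
    have hQlt : ∀ i ≤ n + 1, Q i < Q (i + 1) := by
      intro i hi
      rcases Nat.eq_zero_or_pos i with h0 | h0
      · subst h0
        rw [hQ0, hQi 0 (Nat.zero_le _)]
        exact hr
      · obtain ⟨j, rfl⟩ := Nat.exists_eq_succ_of_ne_zero h0.ne'
        rw [Nat.succ_eq_add_one] at *
        rcases Nat.lt_or_ge j n with h1 | h1
        · rw [hQi j h1.le, hQi (j + 1) h1]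
          exact hp j h1
        · have : j = n := by omega
          subst this
          rw [hQi j le_rfl, hQn]
          exact hr'
    have hmvt : ∀ i, ∃ q, i ≤ n + 1 → (q ∈ Ioo (Q i) (Q (i + 1)) ∧ iteratedDeriv (n + 1) G q =
        (iteratedDeriv n G (Q (i + 1)) - iteratedDeriv n G (Q i)) / (Q (i + 1) - Q i)) := by
      intro i
      by_cases hi : i ≤ n + 1
      · obtain ⟨q, hq, hq2⟩ := exists_hasDerivAt_eq_slope (iteratedDeriv n G)
          (iteratedDeriv (n + 1) G) (hQlt i hi)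
          (fun t _ => (hderiv t).continuousAt.continuousWithinAt) (fun t _ => hderiv t)
        exact ⟨q, fun _ => ⟨hq, hq2⟩⟩
      · exact ⟨0, fun h => absurd h hi⟩
    choose q hq using hmvt
    refine ⟨q, σ, fun i hi => ?_, fun i hi => ?_⟩
    · exact ((hq i (by omega)).1.2).trans ((hq (i + 1) (by omega)).1.1)
    · rw [(hq i hi).2]
      have hd : 0 < Q (i + 1) - Q i := sub_pos.2 (hQlt i hi)
      rw [← mul_div_assoc]
      refine div_pos ?_ hd
      rcases Nat.eq_zero_or_pos i with h0 | h0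
      · subst h0
        rw [hQ0, hQi 0 (Nat.zero_le _)]
        simpa using hr2
      · obtain ⟨j, rfl⟩ := Nat.exists_eq_succ_of_ne_zero h0.ne'
        rw [Nat.succ_eq_add_one] at *
        have h3 := hs j (by omega)
        rcases Nat.lt_or_ge j n with h1 | h1
        · rw [hQi j h1.le, hQi (j + 1) h1]
          have h4 := hs (j + 1) h1
          rw [pow_succ] at h4 ⊢
          nlinarith
        · have : j = n := by omega
          subst this
          rw [hQi j le_rfl, hQn, pow_succ]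
          nlinarith

lemma hermiteFun_sign (n : ℕ) : ∃ (p : ℕ → ℝ) (σ : ℝ), (∀ i < n, p i < p (i + 1)) ∧
    ∀ i ≤ n, 0 < σ * (-1) ^ i * hermiteFun n (p i) := by
  obtain ⟨p, σ, hp, hs⟩ := sign_pattern n
  refine ⟨p, σ * cn n, hp, fun i hi => ?_⟩
  rw [hermiteFun_eq]
  have h1 := hs i hi
  have h2 : 0 < cn n ^ 2 := by
    have := cn_ne_zero n
    positivity
  have h3 : 0 < Real.exp (Real.pi * p i ^ 2) := Real.exp_pos _
  have := mul_pos (mul_pos h1 h2) h3
  calc 0 < _ := this
    _ = _ := by ring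

end Pool.Agent.H321R3.Herm
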