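import Mathlib
import Pool.Agent.H321R3.HermDef
import Pool.Agent.H321R3.HermCore

set_option autoImplicit false
open MeasureTheory Filter Topology Set

namespace Pool.Agent.H321R3.Herm

lemma parseval_step (a : ℝ) (ha : 0 < a) (δ : ℝ) (hδ : 0 < δ) (hδa : δ ≤ a) (Φ : ℝ → ℂ)
    (hΦ : Continuous Φ) :
    HasSum (fun l : ℤ => ‖∫ t in (0:ℝ)..δ,
        Complex.exp (-(2 * (Real.pi : ℂ) * Complex.I * ((l : ℂ) / (a : ℂ)) * (t : ℂ))) * Φ t‖ ^ 2)
      (a * ∫ t in (0:ℝ)..δ, ‖Φ t‖ ^ 2) := by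
  set F : ℝ → ℂ := (Ioc 0 δ).indicator Φ with hF
  obtain ⟨C, hC⟩ := isCompact_Icc.exists_bound_of_continuousOn (s := Icc 0 a) hΦ.continuousOn
  have hF2 : MemLp F 2 (volume.restrict (Ioc 0 a)) := by
    refine MemLp.of_bound (C := C) ?_ ?_
    · exact (hΦ.aestronglyMeasurable).indicator measurableSet_Ioc
    · refine (ae_restrict_iff' measurableSet_Ioc).2 (ae_of_all _ fun t ht => ?_)
      rw [hF]
      refine (norm_indicator_le_norm_self _ _).trans (hC t ⟨ht.1.le, ht.2⟩)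
  have h := hasSum_sq_fourierCoeffOn ha hF2
  rw [sub_zero] at h
  have hint : ∀ (u : ℝ → ℂ), (∫ t in (0:ℝ)..a, (Ioc 0 δ).indicator u t) = ∫ t in (0:ℝ)..δ, u t := by
    intro u
    rw [intervalIntegral.integral_of_le ha.le, intervalIntegral.integral_of_le hδ.le,
      setIntegral_indicator measurableSet_Ioc, Ioc_inter_Ioc, max_self, min_eq_right hδa]
  have hint' : ∀ (u : ℝ → ℝ), (∫ t in (0:ℝ)..a, (Ioc 0 δ).indicator u t) = ∫ t in (0:ℝ)..δ, u t := by
    intro u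
    rw [intervalIntegral.integral_of_le ha.le, intervalIntegral.integral_of_le hδ.le,
      setIntegral_indicator measurableSet_Ioc, Ioc_inter_Ioc, max_self, min_eq_right hδa]
  have h2 := h.mul_left (a ^ 2)
  have hane : (a : ℂ) ≠ 0 := by exact_mod_cast ha.ne'
  have e1 : (fun l : ℤ => ‖∫ t in (0:ℝ)..δ,
        Complex.exp (-(2 * (Real.pi : ℂ) * Complex.I * ((l : ℂ) / (a : ℂ)) * (t : ℂ))) * Φ t‖ ^ 2) =
      fun l : ℤ => a ^ 2 * ‖fourierCoeffOn ha F l‖ ^ 2 := by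
    funext l
    rw [fourierCoeffOn_eq_integral, norm_smul, mul_pow, Real.norm_eq_abs, sq_abs, sub_zero,
      ← mul_assoc, one_div, inv_pow, mul_inv_cancel₀ (pow_ne_zero 2 ha.ne'), one_mul]
    congr 2
    rw [← hint]
    refine intervalIntegral.integral_congr fun t _ => ?_
    simp only [hF, Set.indicator]
    split_ifs with ht
    · rw [fourier_coe_apply, smul_eq_mul]
      congr 2
      push_cast
      field_simp
    · rw [smul_zero]
  have e2 : a * ∫ t in (0:ℝ)..δ, ‖Φ t‖ ^ 2 = a ^ 2 * (a⁻¹ • ∫ t in (0:ℝ)..a, ‖F t‖ ^ 2) := by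
    have e : ∫ t in (0:ℝ)..a, ‖F t‖ ^ 2 = ∫ t in (0:ℝ)..δ, ‖Φ t‖ ^ 2 := by
      rw [← hint' (fun t => ‖Φ t‖ ^ 2)]
      refine intervalIntegral.integral_congr fun t _ => ?_
      simp only [hF, Set.indicator]
      split_ifs with ht
      · rfl
      · simp
    rw [e, smul_eq_mul]
    field_simp
  rw [e1, e2]
  exact h2

/-- the test function -/
noncomputable def fN (a δ : ℝ) (N : ℕ) (t : ℝ) : ℝ :=
  ∑ j ∈ Finset.Ico (0:ℤ) N, (Ioc ((j:ℝ) * a) ((j:ℝ) * a + δ)).indicator (fun _ => (1:ℝ)) t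

lemma fN_memLp (a δ : ℝ) (N : ℕ) : MemLp (fun t => ((fN a δ N t : ℝ) : ℂ)) 2 volume := by
  unfold fN
  push_cast
  refine memLp_finsetSum _ fun j _ => ?_
  have h : MemLp (fun t => (Ioc ((j:ℝ) * a) ((j:ℝ) * a + δ)).indicator (fun _ => (1:ℂ)) t) 2
      volume := memLp_indicator_const 2 measurableSet_Ioc 1 (Or.inr (by simp))
  refine h.ae_eq (ae_of_all _ fun t => ?_)
  simp only [Set.indicator]
  split_ifs <;> simp

lemma fN_norm (a δ : ℝ) (hδ : 0 < δ) (N : ℕ) :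
    N * δ ≤ ∫ t : ℝ, ‖((fN a δ N t : ℝ) : ℂ)‖ ^ 2 := by
  have h1 : Integrable (fun t => ‖((fN a δ N t : ℝ) : ℂ)‖ ^ 2) volume :=
    (fN_memLp a δ N).integrable_norm_pow (by norm_num)
  have hi : ∀ j : ℤ, Integrable
      (fun t => (Ioc ((j:ℝ) * a) ((j:ℝ) * a + δ)).indicator (fun _ => (1:ℝ)) t) volume :=
    fun j => (integrable_indicator_iff measurableSet_Ioc).2 (by simp)
  have h2 : ∫ t : ℝ, ∑ j ∈ Finset.Ico (0:ℤ) N,
      (Ioc ((j:ℝ) * a) ((j:ℝ) * a + δ)).indicator (fun _ => (1:ℝ)) t = N * δ := by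
    rw [integral_finsetSum _ fun j _ => hi j]
    have : ∀ j ∈ Finset.Ico (0:ℤ) N, ∫ t : ℝ,
        (Ioc ((j:ℝ) * a) ((j:ℝ) * a + δ)).indicator (fun _ => (1:ℝ)) t = δ := by
      intro j _
      rw [integral_indicator measurableSet_Ioc, setIntegral_const]
      simp [hδ.le]
    rw [Finset.sum_congr rfl this, Finset.sum_const]
    simp
  rw [← h2]
  refine integral_mono (integrable_finsetSum _ fun j _ => hi j) h1 fun t => ?_
  simp only
  rw [Complex.norm_real, Real.norm_eq_abs, sq_abs]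
  unfold fN
  refine le_trans (le_of_eq ?_) (Finset.sum_sq_le_sq_sum_of_nonneg fun j _ => ?_)
  · refine Finset.sum_congr rfl fun j _ => ?_
    simp only [Set.indicator]
    split_ifs <;> norm_num
  · simp only [Set.indicator]
    split_ifs <;> norm_num

/-- the sequence `v_t(m) = e^{-2πi ω m a} w(t + m a - x)` -/
noncomputable def vt (w : ℝ → ℝ) (a x ω t : ℝ) (m : ℤ) : ℂ :=
  Complex.exp (-(2 * (Real.pi : ℂ) * Complex.I * (ω : ℂ) * ((m : ℂ) * (a : ℂ)))) *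
    ((w (t + m * a - x) : ℝ) : ℂ)

/-- the periodised product -/
noncomputable def Phi (w : ℝ → ℝ) (a x ω : ℝ) (N : ℕ) (k : ℤ) (t : ℝ) : ℂ :=
  Complex.exp (-(2 * (Real.pi : ℂ) * Complex.I * (ω : ℂ) * ((t : ℂ) + (k : ℂ) * (a : ℂ)))) *
    ∑ j ∈ Finset.Ico (0:ℤ) N, vt w a x ω t (j - k)

lemma Phi_continuous (w : ℝ → ℝ) (hw : Continuous w) (a x ω : ℝ) (N : ℕ) (k : ℤ) :
    Continuous (Phi w a x ω N k) := by
  unfold Phi vt
  fun_prop

lemma norm_exp_neg_I (y : ℝ) (z : ℂ) (h : z = (y : ℂ)) :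
    ‖Complex.exp (-(2 * (Real.pi : ℂ) * Complex.I * z))‖ = 1 := by
  rw [h, show -(2 * (Real.pi : ℂ) * Complex.I * (y : ℂ)) = ((-(2 * Real.pi * y) : ℝ) : ℂ) *
    Complex.I by push_cast; ring]
  exact Complex.norm_exp_ofReal_mul_I _

lemma norm_vt (w : ℝ → ℝ) (a x ω t : ℝ) (m : ℤ) : ‖vt w a x ω t m‖ = |w (t + m * a - x)| := by
  unfold vt
  rw [norm_mul, Complex.norm_real, Real.norm_eq_abs, mul_assoc _ (ω : ℂ),
    norm_exp_neg_I (ω * (m * a)) _ (by push_cast; ring), one_mul]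

lemma norm_Phi (w : ℝ → ℝ) (a x ω : ℝ) (N : ℕ) (k : ℤ) (t : ℝ) :
    ‖Phi w a x ω N k t‖ = ‖∑ j ∈ Finset.Ico (0:ℤ) N, vt w a x ω t (j - k)‖ := by
  unfold Phi
  rw [norm_mul, mul_assoc _ (ω : ℂ), norm_exp_neg_I (ω * (t + k * a)) _ (by push_cast; ring),
    one_mul]

lemma coeff_formula (w : ℝ → ℝ) (hw : Continuous w) (a : ℝ) (ha : 0 < a) (δ : ℝ) (hδ : 0 < δ)
    (N : ℕ) (x ω : ℝ) (k l : ℤ) :
    ∫ t : ℝ, ((fN a δ N t : ℝ) : ℂ) * (starRingEnd ℂ)
      (tfShift (latPt a x ω (k, l)) (fun t => ((w t : ℝ) : ℂ)) t) =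
    ∫ t in (0:ℝ)..δ,
        Complex.exp (-(2 * (Real.pi : ℂ) * Complex.I * ((l : ℂ) / (a : ℂ)) * (t : ℂ))) *
          Phi w a x ω N k t := by
  have hane : (a : ℂ) ≠ 0 := by exact_mod_cast ha.ne'
  set u : ℝ → ℂ := fun t => (starRingEnd ℂ)
      (tfShift (latPt a x ω (k, l)) (fun t => ((w t : ℝ) : ℂ)) t) with hu
  have huc : Continuous u := by
    rw [hu]
    unfold tfShift
    fun_prop
  have h1 : ∀ t : ℝ, ((fN a δ N t : ℝ) : ℂ) * u t = ∑ j ∈ Finset.Ico (0:ℤ) N,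
      (Ioc ((j:ℝ) * a) ((j:ℝ) * a + δ)).indicator u t := by
    intro t
    unfold fN
    push_cast
    rw [Finset.sum_mul]
    refine Finset.sum_congr rfl fun j _ => ?_
    simp only [Set.indicator]
    split_ifs <;> simp
  have hi : ∀ j : ℤ, Integrable ((Ioc ((j:ℝ) * a) ((j:ℝ) * a + δ)).indicator u) volume := fun j =>
    (integrable_indicator_iff measurableSet_Ioc).2
      (huc.integrableOn_Icc.mono_set Ioc_subset_Icc_self)
  show ∫ t : ℝ, ((fN a δ N t : ℝ) : ℂ) * u t = _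
  simp only [h1]
  rw [integral_finsetSum _ fun j _ => hi j]
  have h2 : ∀ j ∈ Finset.Ico (0:ℤ) N, ∫ t : ℝ, (Ioc ((j:ℝ) * a) ((j:ℝ) * a + δ)).indicator u t =
      ∫ t in (0:ℝ)..δ, u (t + j * a) := by
    intro j _
    rw [integral_indicator measurableSet_Ioc, intervalIntegral.integral_comp_add_right, zero_add,
      add_comm δ, intervalIntegral.integral_of_le (by linarith)]
  rw [Finset.sum_congr rfl h2, ← intervalIntegral.integral_finsetSum]
  · refine intervalIntegral.integral_congr fun t _ => ?_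
    unfold Phi
    rw [Finset.mul_sum, Finset.mul_sum]
    refine Finset.sum_congr rfl fun j _ => ?_
    simp only [hu, tfShift, latPt, vt]
    rw [map_mul, Complex.conj_ofReal, ← Complex.exp_conj]
    rw [← mul_assoc, ← mul_assoc, ← Complex.exp_add, ← Complex.exp_add]
    have hw' : w (t + j * a - (x + k * a)) = w (t + ((j - k : ℤ) : ℝ) * a - x) := by
      congr 1
      push_cast
      ring
    rw [hw']
    congr 1
    rw [Complex.exp_eq_exp_iff_exists_int]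
    refine ⟨-(l * j), ?_⟩
    simp only [map_mul, Complex.conj_ofReal, Complex.conj_I, map_ofNat]
    push_cast
    field_simp
    ring
  · intro j _
    exact (huc.comp (by fun_prop)).intervalIntegrable _ _

lemma latPt_injective (a x ω : ℝ) (ha : 0 < a) : Function.Injective (latPt a x ω) := by
  rintro ⟨k, l⟩ ⟨k', l'⟩ h
  simp only [latPt, Prod.mk.injEq, add_right_inj] at h
  have h1 : (k : ℝ) = k' := mul_right_cancel₀ ha.ne' h.1
  have h2 : (l : ℝ) = l' := (div_left_inj' ha.ne').1 h.2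
  exact Prod.ext (by exact_mod_cast h1) (by exact_mod_cast h2)

lemma class_bound (w : ℝ → ℝ) (hw : Continuous w) (a : ℝ) (ha : 0 < a) (x ω : ℝ)
    (β : ℤ → ℝ) (hv : ∀ t ∈ Icc (0:ℝ) a, ∀ m, ‖vt w a x ω t m‖ ≤ β m) (hβ : Summable β)
    (hβ1 : Summable (fun m : ℤ => (4 * |(m : ℝ)| + 2) * β m)) (N : ℕ) (δ : ℝ) (hδ : 0 < δ)
    (hδa : δ ≤ a) (η : ℝ) (hη : ∀ t ∈ Icc (0:ℝ) δ, ‖∑' m, vt w a x ω t m‖ ^ 2 ≤ η) :
    ∑' p : ℤ × ℤ, gaborCoeffSq (fun t => ((w t : ℝ) : ℂ)) (fun t => ((fN a δ N t : ℝ) : ℂ))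
      (latPt a x ω p) ≤ ENNReal.ofReal (a * (δ *
        (2 * ((∑' m, β m) * (∑' m : ℤ, (4 * |(m : ℝ)| + 2) * β m)) + 2 * (N * η)))) := by
  rw [ENNReal.tsum_prod']
  have h1 : ∀ k : ℤ, ∑' l : ℤ, gaborCoeffSq (fun t => ((w t : ℝ) : ℂ))
      (fun t => ((fN a δ N t : ℝ) : ℂ)) (latPt a x ω (k, l)) =
      ENNReal.ofReal (a * ∫ t in (0:ℝ)..δ, ‖Phi w a x ω N k t‖ ^ 2) := by
    intro k
    have h2 := parseval_step a ha δ hδ hδa (Phi w a x ω N k) (Phi_continuous w hw a x ω N k)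
    rw [← h2.tsum_eq, ENNReal.ofReal_tsum_of_nonneg (fun _ => by positivity) h2.summable]
    refine tsum_congr fun l => ?_
    unfold gaborCoeffSq
    rw [coeff_formula w hw a ha δ hδ N x ω k l]
  simp only [h1]
  rw [ENNReal.tsum_eq_iSup_sum]
  refine iSup_le fun F => ?_
  have hI : ∀ k, 0 ≤ a * ∫ t in (0:ℝ)..δ, ‖Phi w a x ω N k t‖ ^ 2 := fun k =>
    mul_nonneg ha.le (intervalIntegral.integral_nonneg hδ.le fun t _ => by positivity)
  rw [← ENNReal.ofReal_sum_of_nonneg fun k _ => hI k]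
  apply ENNReal.ofReal_le_ofReal
  rw [← Finset.mul_sum]
  refine mul_le_mul_of_nonneg_left ?_ ha.le
  have hcont : ∀ k, Continuous (fun t => ‖Phi w a x ω N k t‖ ^ 2) := fun k =>
    ((Phi_continuous w hw a x ω N k).norm.pow 2)
  rw [← intervalIntegral.integral_finsetSum fun k _ => (hcont k).intervalIntegrable _ _]
  have h3 : ∫ t in (0:ℝ)..δ, ∑ k ∈ F, ‖Phi w a x ω N k t‖ ^ 2 ≤ ∫ t in (0:ℝ)..δ,
      (2 * ((∑' m, β m) * (∑' m : ℤ, (4 * |(m : ℝ)| + 2) * β m)) + 2 * (N * η)) := by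
    refine intervalIntegral.integral_mono_on hδ.le
      ((continuous_finsetSum _ fun k _ => hcont k).intervalIntegrable _ _)
      (by simp) fun t ht => ?_
    simp only [norm_Phi]
    refine (core (vt w a x ω t) β (hv t ⟨ht.1, ht.2.trans hδa⟩) hβ hβ1 N F).trans ?_
    have := mul_le_mul_of_nonneg_left (hη t ht) (Nat.cast_nonneg (α := ℝ) N)
    linarith
  refine h3.trans (le_of_eq ?_)
  rw [intervalIntegral.integral_const, sub_zero, smul_eq_mul]

theorem not_frame {ι : Type} [Fintype ι] (w : ℝ → ℝ) (hw : Continuous w) (C : ℝ)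
    (hC : ∀ t, |w t| ≤ C * (1 / (1 + |t|) ^ 3)) (a : ℝ) (ha : 0 < a) (x ω : ι → ℝ)
    (hz : ∀ i, ∑' m, vt w a (x i) (ω i) 0 m = 0) :
    ¬ IsGaborFrame (fun t => ((w t : ℝ) : ℂ)) (cosets a x ω) := by
  rintro ⟨A, B, hA, -, H⟩
  have hC0 : 0 ≤ C := by
    have h := hC 0
    simp only [abs_zero, add_zero, one_pow, div_one, mul_one] at h
    exact (abs_nonneg _).trans h
  choose c hc hc2 using fun i => decay_comp a ha (x i)
  set β : ι → ℤ → ℝ := fun i m => C * (c i * (1 / (1 + |(m : ℝ)|) ^ 3)) with hβdef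
  have hβs : ∀ i, Summable (β i) := fun i =>
    ((summable_inv 3 (by norm_num)).mul_left (c i)).mul_left C
  have hβ1 : ∀ i, Summable (fun m : ℤ => (4 * |(m : ℝ)| + 2) * β i m) := by
    intro i
    refine (summable_lin.mul_left (C * c i)).congr fun m => ?_
    rw [hβdef]
    ring
  have hv : ∀ i, ∀ t ∈ Icc (0:ℝ) a, ∀ m, ‖vt w a (x i) (ω i) t m‖ ≤ β i m := by
    intro i t ht m
    rw [norm_vt]
    exact (hC _).trans (mul_le_mul_of_nonneg_left (hc2 i t ht m) hC0)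
  set K : ι → ℝ := fun i => 2 * ((∑' m, β i m) * (∑' m : ℤ, (4 * |(m : ℝ)| + 2) * β i m)) with hK
  set M : ℝ := (Fintype.card ι : ℝ) with hM
  have hM0 : 0 ≤ M := Nat.cast_nonneg _
  set η : ℝ := A / (8 * a * (M + 1)) with hη
  have hη0 : 0 < η := by positivity
  -- continuity of the Zak transforms
  have hZ : ∀ i, ContinuousOn (fun t => ∑' m, vt w a (x i) (ω i) t m) (Icc 0 a) := by
    intro i
    refine continuousOn_tsum (fun m => ?_) (hβs i) (fun m t ht => hv i t ht m)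
    apply Continuous.continuousOn
    unfold vt
    fun_prop
  have hev : ∀ᶠ t in 𝓝[Icc 0 a] (0:ℝ), ∀ i, ‖∑' m, vt w a (x i) (ω i) t m‖ ^ 2 < η := by
    rw [Filter.eventually_all]
    intro i
    have h1 : Tendsto (fun t => ‖∑' m, vt w a (x i) (ω i) t m‖ ^ 2) (𝓝[Icc 0 a] (0:ℝ)) (𝓝 0) := by
      have h2 := (((hZ i) 0 ⟨le_rfl, ha.le⟩).tendsto.norm).pow 2
      rw [hz i] at h2
      simpa using h2
    exact h1.eventually_lt_const hη0
  obtain ⟨ε, hε, hε2⟩ := Metric.mem_nhdsWithin_iff.1 hev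
  set δ : ℝ := min (ε / 2) a with hδdef
  have hδ : 0 < δ := lt_min (by positivity) ha
  have hδa : δ ≤ a := min_le_right _ _
  have hδη : ∀ t ∈ Icc (0:ℝ) δ, ∀ i, ‖∑' m, vt w a (x i) (ω i) t m‖ ^ 2 ≤ η := by
    intro t ht i
    refine (hε2 ⟨?_, ht.1, ht.2.trans hδa⟩ i).le
    rw [Metric.mem_ball, Real.dist_eq, sub_zero, abs_of_nonneg ht.1]
    have := ht.2.trans (min_le_left _ _)
    linarith
  obtain ⟨N, hN⟩ := exists_nat_gt (2 * a * (∑ i, K i) / A)
  have hN0 : 0 ≤ (N : ℝ) := Nat.cast_nonneg _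
  have hNpos : 0 < (N : ℝ) := by
    refine lt_of_le_of_lt ?_ hN
    have : 0 ≤ ∑ i, K i := Finset.sum_nonneg fun i _ => by
      have hb : ∀ m, 0 ≤ β i m := fun m => by
        have := (hc i).le
        positivity
      have h1 : 0 ≤ ∑' m, β i m := tsum_nonneg hb
      have h2 : 0 ≤ ∑' m : ℤ, (4 * |(m : ℝ)| + 2) * β i m :=
        tsum_nonneg fun m => mul_nonneg (by positivity) (hb m)
      positivity
    positivity
  have hfr := (H _ (fN_memLp a δ N)).1
  have hup : ∑' γ : cosets a x ω, gaborCoeffSq (fun t => ((w t : ℝ) : ℂ))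
      (fun t => ((fN a δ N t : ℝ) : ℂ)) γ ≤
      ENNReal.ofReal (∑ i, a * (δ * (K i + 2 * (N * η)))) := by
    unfold cosets
    refine (ENNReal.tsum_iUnion_le _ _).trans ?_
    rw [ENNReal.ofReal_sum_of_nonneg]
    · refine Finset.sum_le_sum fun i _ => ?_
      rw [tsum_range (gaborCoeffSq (fun t => ((w t : ℝ) : ℂ))
        (fun t => ((fN a δ N t : ℝ) : ℂ))) (latPt_injective a (x i) (ω i) ha)]
      exact class_bound w hw a ha (x i) (ω i) (β i) (hv i) (hβs i) (hβ1 i) N δ hδ hδa η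
        (fun t ht => hδη t ht i)
    · intro i _
      have hb : ∀ m, 0 ≤ β i m := fun m => by
        have := (hc i).le
        positivity
      have h1 : 0 ≤ ∑' m, β i m := tsum_nonneg hb
      have h2 : 0 ≤ ∑' m : ℤ, (4 * |(m : ℝ)| + 2) * β i m :=
        tsum_nonneg fun m => mul_nonneg (by positivity) (hb m)
      have h3 : 0 ≤ K i := by positivity
      positivity
  have hlow : ENNReal.ofReal (A * (N * δ)) ≤ ENNReal.ofReal
      (A * ∫ t : ℝ, ‖((fN a δ N t : ℝ) : ℂ)‖ ^ 2) :=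
    ENNReal.ofReal_le_ofReal (mul_le_mul_of_nonneg_left (fN_norm a δ hδ N) hA.le)
  have hall := (hlow.trans hfr).trans hup
  have hpos : 0 < A * (N * δ) := by positivity
  rw [ENNReal.ofReal_le_ofReal_iff'] at hall
  rcases hall with hall | hall
  · have e1 : ∑ i, a * (δ * (K i + 2 * (N * η))) = δ * (a * (∑ i, K i) + 2 * a * N * η * M) := by
      rw [← Finset.mul_sum, ← Finset.mul_sum, Finset.sum_add_distrib, Finset.sum_const,
        nsmul_eq_mul, Finset.card_univ, ← hM]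
      ring
    rw [e1] at hall
    have e2 : A * N ≤ a * (∑ i, K i) + 2 * a * N * η * M := by
      have : δ * (A * N) ≤ δ * (a * (∑ i, K i) + 2 * a * N * η * M) := by linarith
      exact le_of_mul_le_mul_left this hδ
    have e3 : 2 * a * (∑ i, K i) < A * N := by
      rw [div_lt_iff₀ hA] at hN
      linarith
    have e4 : 8 * a * η * (M + 1) = A := by
      rw [hη]
      field_simp
    have e5 : 2 * a * N * η * M ≤ A * N / 4 := by
      have : 8 * a * η * M ≤ A := by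
        have : 0 ≤ 8 * a * η := by positivity
        nlinarith
      nlinarith
    nlinarith
  · linarith

end Pool.Agent.H321R3.Herm
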