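import Mathlib
import Pool.Agent.H321R3.HermNF
import Pool.Agent.H321R3.HermFun

set_option autoImplicit false
open MeasureTheory Filter Topology Set

namespace Pool.Agent.H321R3.Herm

lemma decay_unif (L : ℝ) (hL : 0 ≤ L) (a y : ℝ) (ha : 1 ≤ a) (hy : |y| ≤ L) (m : ℤ) :
    1 / (1 + |m * a + y|) ^ 3 ≤ (1 + L) ^ 3 * (1 / (1 + |(m : ℝ)|) ^ 3) := by
  have h0 : 0 ≤ |m * a + y| := abs_nonneg _
  have h00 : 0 ≤ |(m : ℝ)| := abs_nonneg _
  have h1 : |(m : ℝ)| ≤ |m * a + y| + L := by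
    calc |(m : ℝ)| ≤ |(m : ℝ)| * a := le_mul_of_one_le_right h00 ha
      _ = |(m : ℝ) * a| := by rw [abs_mul, abs_of_pos (by linarith : 0 < a)]
      _ = |(m * a + y) - y| := by ring_nf
      _ ≤ |m * a + y| + |y| := abs_sub _ _
      _ ≤ _ := by linarith
  rw [mul_one_div, div_le_div_iff₀ (by positivity) (by positivity), one_mul, ← mul_pow]
  refine pow_le_pow_left₀ (by positivity) ?_ 3
  nlinarith [mul_nonneg hL h0]

/-- periodisation -/
noncomputable def per (w : ℝ → ℝ) (ε a y : ℝ) : ℝ := ∑' m : ℤ, ε ^ m * w (m * a + y)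

lemma abs_zpow_eps {ε : ℝ} (hε : ε = 1 ∨ ε = -1) (m : ℤ) : |ε ^ m| = 1 := by
  rw [abs_zpow]
  rcases hε with h | h <;> simp [h]

lemma per_bound {w : ℝ → ℝ} {C : ℝ} (hC0 : 0 ≤ C) (hC : ∀ t, |w t| ≤ C * (1 / (1 + |t|) ^ 3)) {ε : ℝ}
    (hε : ε = 1 ∨ ε = -1) (L : ℝ) (hL : 0 ≤ L) (a y : ℝ) (ha : 1 ≤ a) (hy : |y| ≤ L) (m : ℤ) :
    ‖ε ^ m * w (m * a + y)‖ ≤ C * ((1 + L) ^ 3 * (1 / (1 + |(m : ℝ)|) ^ 3)) := by
  rw [Real.norm_eq_abs, abs_mul, abs_zpow_eps hε, one_mul]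
  exact (hC _).trans (mul_le_mul_of_nonneg_left (decay_unif L hL a y ha hy m) hC0)

lemma summable_bd (C L : ℝ) :
    Summable (fun m : ℤ => C * ((1 + L) ^ 3 * (1 / (1 + |(m : ℝ)|) ^ 3))) :=
  ((summable_inv 3 (by norm_num)).mul_left _).mul_left _

lemma per_continuousOn {w : ℝ → ℝ} (hw : Continuous w) {C : ℝ} (hC0 : 0 ≤ C)
    (hC : ∀ t, |w t| ≤ C * (1 / (1 + |t|) ^ 3)) {ε : ℝ} (hε : ε = 1 ∨ ε = -1) (L : ℝ) (hL : 0 ≤ L)
    (a : ℝ) (ha : 1 ≤ a) : ContinuousOn (per w ε a) (Icc (-L) L) := by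
  unfold per
  refine continuousOn_tsum (fun m => ?_) (summable_bd C L) (fun m y hy =>
    per_bound hC0 hC hε L hL a y ha (abs_le.2 hy) m)
  apply Continuous.continuousOn
  fun_prop

lemma tendsto_w {w : ℝ → ℝ} {C : ℝ} (hC : ∀ t, |w t| ≤ C * (1 / (1 + |t|) ^ 3))
    {l : Filter ℝ} (hl : Tendsto (fun t : ℝ => |t|) l atTop) : Tendsto w l (𝓝 0) := by
  have h2 : Tendsto (fun t : ℝ => C * (1 / (1 + |t|) ^ 3)) l (𝓝 0) := by
    have h3 : Tendsto (fun t : ℝ => (1 + |t|) ^ 3) l atTop :=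
      (tendsto_pow_atTop (by norm_num : 3 ≠ 0)).comp (tendsto_atTop_add_const_left l 1 hl)
    have h4 := (tendsto_inv_atTop_zero.comp h3).const_mul C
    simp only [mul_zero] at h4
    refine h4.congr fun t => ?_
    simp [one_div]
  exact squeeze_zero_norm (fun t => by rw [Real.norm_eq_abs]; exact hC t) h2

lemma per_tendsto {w : ℝ → ℝ} {C : ℝ} (hC0 : 0 ≤ C)
    (hC : ∀ t, |w t| ≤ C * (1 / (1 + |t|) ^ 3)) {ε : ℝ} (hε : ε = 1 ∨ ε = -1) (y : ℝ) :
    Tendsto (fun a => per w ε a y) atTop (𝓝 (w y)) := by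
  have h1 : Tendsto (fun a => ∑' m : ℤ, ε ^ m * w (m * a + y)) atTop
      (𝓝 (∑' m : ℤ, if m = 0 then w y else 0)) := by
    refine tendsto_tsum_of_dominated_convergence (summable_bd C |y|) (fun m => ?_) ?_
    · rcases lt_trichotomy m 0 with hm | hm | hm
      · rw [if_neg hm.ne]
        have h2 : Tendsto (fun a : ℝ => (m : ℝ) * a + y) atTop atBot :=
          tendsto_atBot_add_const_right _ _
            (tendsto_id.const_mul_atTop_of_neg (by exact_mod_cast hm))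
        have h3 := ((tendsto_w hC tendsto_abs_atBot_atTop).comp h2).const_mul (ε ^ m)
        rw [mul_zero] at h3
        exact h3
      · subst hm
        simp
      · rw [if_neg hm.ne']
        have h2 : Tendsto (fun a : ℝ => (m : ℝ) * a + y) atTop atTop :=
          tendsto_atTop_add_const_right _ _
            (tendsto_id.const_mul_atTop (by exact_mod_cast hm))
        have h3 := ((tendsto_w hC tendsto_abs_atTop_atTop).comp h2).const_mul (ε ^ m)
        rw [mul_zero] at h3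
        exact h3
    · filter_upwards [eventually_ge_atTop (1 : ℝ)] with a ha m
      exact per_bound hC0 hC hε |y| (abs_nonneg _) a y ha le_rfl m
  rw [tsum_ite_eq] at h1
  exact h1

lemma exists_zeros {w : ℝ → ℝ} (hw : Continuous w) {C : ℝ} (hC0 : 0 ≤ C)
    (hC : ∀ t, |w t| ≤ C * (1 / (1 + |t|) ^ 3)) {ε : ℝ} (hε : ε = 1 ∨ ε = -1) (n : ℕ)
    (p : ℕ → ℝ) (σ : ℝ) (hp : ∀ i < n, p i < p (i + 1))
    (hs : ∀ i ≤ n, 0 < σ * (-1) ^ i * w (p i)) :
    ∀ᶠ a in atTop, ∃ y : Fin n → ℝ, ∀ i : Fin n, y i ∈ Ioo (p i) (p (i + 1)) ∧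
      per w ε a (y i) = 0 := by
  have h1 : ∀ᶠ a in atTop, ∀ i ∈ Finset.range (n + 1), 0 < σ * (-1) ^ i * per w ε a (p i) := by
    rw [Filter.eventually_all_finset]
    intro i hi
    have h2 := (per_tendsto hC0 hC hε (p i)).const_mul (σ * (-1) ^ i)
    exact h2.eventually_const_lt (hs i (by have := Finset.mem_range.1 hi; omega))
  filter_upwards [h1, eventually_ge_atTop (1 : ℝ)] with a ha ha1
  have h3 : ∀ i : Fin n, ∃ y, y ∈ Ioo (p i) (p (i + 1)) ∧ per w ε a y = 0 := by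
    intro i
    have hi := i.2
    have h4 := ha i (Finset.mem_range.2 (by omega))
    have h5 := ha (i + 1) (Finset.mem_range.2 (by omega))
    have hlt := hp i i.2
    set L := max |p i| |p (i + 1)| with hL
    have hcont : ContinuousOn (fun y => σ * (-1) ^ (i : ℕ) * per w ε a y)
        (Icc (p i) (p (i + 1))) := by
      refine ContinuousOn.mul continuousOn_const ((per_continuousOn hw hC0 hC hε L
        (le_max_of_le_left (abs_nonneg _)) a ha1).mono ?_)
      intro y hy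
      have e1 := neg_abs_le (p i)
      have e2 := le_abs_self (p (i + 1))
      have e3 : |p i| ≤ L := le_max_left _ _
      have e4 : |p (i + 1)| ≤ L := le_max_right _ _
      exact ⟨by linarith [hy.1], by linarith [hy.2]⟩
    have h6 := intermediate_value_Ioo' hlt.le hcont
    have h7 : (0:ℝ) ∈ Ioo (σ * (-1) ^ (i : ℕ) * per w ε a (p (i + 1)))
        (σ * (-1) ^ (i : ℕ) * per w ε a (p i)) := by
      refine ⟨?_, h4⟩
      rw [pow_succ] at h5
      linarith
    obtain ⟨y, hy, hy2⟩ := h6 h7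
    refine ⟨y, hy, ?_⟩
    simp only [mul_eq_zero] at hy2
    rcases hy2 with h8 | h8
    · exfalso
      rcases h8 with h9 | h9
      · rw [h9] at h4
        simp at h4
      · rw [h9] at h4
        simp at h4
    · exact h8
  choose y hy using h3
  exact ⟨y, hy⟩

lemma per_special {w : ℝ → ℝ} (n : ℕ) (hpar : ∀ t, w (-t) = (-1) ^ n * w t) (a : ℝ) :
    per w ((-1) ^ (n + 1)) a (-(a / 2)) = 0 := by
  set ε : ℝ := (-1) ^ (n + 1) with hε
  have hε2 : ε * ε = 1 := by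
    rw [hε, ← mul_pow]; norm_num
  have hε0 : ε ≠ 0 := by
    intro h; rw [h] at hε2; simp at hε2
  have hinv : ε⁻¹ = ε := by
    field_simp
    rw [pow_two, hε2]
  have h1 : per w ε a (-(a / 2)) = - per w ε a (-(a / 2)) := by
    conv_lhs => rw [per, ← (Equiv.subLeft (1:ℤ)).tsum_eq]
    rw [per, ← tsum_neg]
    refine tsum_congr fun m => ?_
    simp only [Equiv.subLeft_apply]
    have e1 : (((1 - m : ℤ) : ℝ) * a + -(a / 2)) = -(m * a + -(a / 2)) := by
      push_cast; ring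
    have e2 : ε ^ (1 - m) = ε * ε ^ m := by
      rw [sub_eq_add_neg, zpow_add₀ hε0, zpow_one, zpow_neg, ← inv_zpow, hinv]
    rw [e1, hpar, e2]
    have e3 : ε * (-1) ^ n = -1 := by
      rw [hε, pow_succ, mul_assoc, mul_comm (-1 : ℝ) ((-1) ^ n), ← mul_assoc, ← mul_pow]
      norm_num
    calc ε * ε ^ m * ((-1) ^ n * w (m * a + -(a / 2))) =
        (ε * (-1) ^ n) * (ε ^ m * w (m * a + -(a / 2))) := by ring
      _ = _ := by rw [e3]; ring
  linarith

/-- the two frequencies -/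
noncomputable def om (a : ℝ) (b : Bool) : ℝ := if b then 1 / (2 * a) else 0

/-- the two signs -/
def eps (b : Bool) : ℝ := if b then -1 else 1

lemma eps_cases (b : Bool) : eps b = 1 ∨ eps b = -1 := by
  cases b <;> simp [eps]

lemma tsum_vt (w : ℝ → ℝ) (a : ℝ) (ha : 0 < a) (x : ℝ) (b : Bool) :
    ∑' m, vt w a x (om a b) 0 m = ((per w (eps b) a (-x) : ℝ) : ℂ) := by
  unfold per
  rw [Complex.ofReal_tsum]
  refine tsum_congr fun m => ?_
  unfold vt
  have hane : (a : ℂ) ≠ 0 := by exact_mod_cast ha.ne'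
  have e1 : (0:ℝ) + m * a - x = m * a + -x := by ring
  rw [e1]
  push_cast
  congr 1
  cases b with
  | false => simp [om, eps]
  | true =>
    simp only [om, eps, if_true]
    push_cast
    rw [show -(2 * (Real.pi : ℂ) * Complex.I * (1 / (2 * (a : ℂ))) * ((m : ℂ) * (a : ℂ))) =
      ((-m : ℤ) : ℂ) * (Real.pi * Complex.I) by push_cast; field_simp, Complex.exp_int_mul,
      Complex.exp_pi_mul_I, zpow_neg, ← inv_zpow]
    norm_num

end Pool.Agent.H321R3.Herm
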