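import Mathlib

set_option autoImplicit false
open Filter Topology Set

namespace Pool.Agent.H321R3.UT

open MvPowerSeries

variable {k : ℕ}

/-- multi-indices below `K` -/
noncomputable def D (K : Fin k →₀ ℕ) : Finset (Fin k →₀ ℕ) := Finset.Icc 0 K

lemma mem_D {K J : Fin k →₀ ℕ} : J ∈ D K ↔ J ≤ K := by
  unfold D
  rw [Finset.mem_Icc]
  exact ⟨fun h => h.2, fun h => ⟨bot_le, h⟩⟩

/-- `i` is the first index at which `J` exceeds `K` -/
def sel (K : Fin k →₀ ℕ) (i : Fin k) (J : Fin k →₀ ℕ) : Prop :=
  K i < J i ∧ ∀ i' < i, ¬ K i' < J i'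

open Classical in
lemma partition {G : Type*} [AddCommMonoid G] (K J : Fin k →₀ ℕ) (g : G) :
    (if J ≤ K then g else 0) + ∑ i, (if sel K i J then g else 0) = g := by
  by_cases h : J ≤ K
  · rw [if_pos h, Finset.sum_eq_zero, add_zero]
    intro i _
    rw [if_neg]
    intro hs
    exact absurd (h i) (not_le.2 hs.1)
  · rw [if_neg h, zero_add]
    have hex : ∃ i, K i < J i := by
      by_contra hno
      push Not at hno
      exact h hno
    have hne : (Finset.univ.filter fun i => K i < J i).Nonempty := by
      obtain ⟨i, hi⟩ := hex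
      exact ⟨i, by simpa using hi⟩
    set i0 := (Finset.univ.filter fun i => K i < J i).min' hne with hi0
    have h1 : K i0 < J i0 := by
      have := Finset.min'_mem _ hne
      rw [← hi0, Finset.mem_filter] at this
      exact this.2
    have h2 : ∀ i' < i0, ¬ K i' < J i' := by
      intro i' hi' hlt
      have := Finset.min'_le (Finset.univ.filter fun i => K i < J i) i' (by simpa using hlt)
      rw [← hi0] at this
      exact absurd hi' (not_lt.2 this)
    rw [Finset.sum_eq_single i0]
    · rw [if_pos ⟨h1, h2⟩]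
    · intro i _ hi
      rw [if_neg]
      rintro ⟨h3, h4⟩
      rcases lt_trichotomy i i0 with h5 | h5 | h5
      · exact h2 i h5 h3
      · exact hi h5
      · exact h4 i0 h5 h1
    · simp

lemma single_le_of_sel {K J : Fin k →₀ ℕ} {i : Fin k} (h : sel K i J) :
    Finsupp.single i (K i + 1) ≤ J := by
  rw [Finsupp.single_le_iff]
  exact h.1

lemma not_single_le (K : Fin k →₀ ℕ) (i : Fin k) : ¬ Finsupp.single i (K i + 1) ≤ K := by
  rw [Finsupp.single_le_iff]
  omega

open Classical in
/-- division with remainder -/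
lemma division (f : MvPowerSeries (Fin k) ℂ) (K : Fin k →₀ ℕ) :
    ∃ g : Fin k → MvPowerSeries (Fin k) ℂ,
      f = ∑ J ∈ D K, monomial J (coeff J f) +
        ∑ i, monomial (Finsupp.single i (K i + 1)) (1 : ℂ) * g i := by
  refine ⟨fun i => fun L => if sel K i (L + Finsupp.single i (K i + 1)) then
    coeff (L + Finsupp.single i (K i + 1)) f else 0, ?_⟩
  ext J
  rw [map_add, map_sum, map_sum]
  have h1 : ∑ J' ∈ D K, coeff J (monomial J' (coeff J' f)) = if J ≤ K then coeff J f else 0 := by
    simp only [coeff_monomial]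
    rw [Finset.sum_ite_eq]
    simp only [mem_D]
  have h2 : ∀ i : Fin k, coeff J (monomial (Finsupp.single i (K i + 1)) (1 : ℂ) *
      (show MvPowerSeries (Fin k) ℂ from fun L => if sel K i (L + Finsupp.single i (K i + 1)) then
      coeff (L + Finsupp.single i (K i + 1)) f else 0)) = if sel K i J then coeff J f else 0 := by
    intro i
    rw [coeff_monomial_mul]
    by_cases h : Finsupp.single i (K i + 1) ≤ J
    · rw [if_pos h, one_mul]
      show (if sel K i (J - Finsupp.single i (K i + 1) + Finsupp.single i (K i + 1)) then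
        coeff (J - Finsupp.single i (K i + 1) + Finsupp.single i (K i + 1)) f else 0) = _
      rw [tsub_add_cancel_of_le h]
    · rw [if_neg h, if_neg (fun hs => h (single_le_of_sel hs))]
  rw [h1, Finset.sum_congr rfl (fun i _ => h2 i)]
  exact (partition K J (coeff J f)).symm

lemma coeff_mul_eq (h s : MvPowerSeries (Fin k) ℂ) (K : Fin k →₀ ℕ) :
    coeff K (h * s) = ∑ J ∈ D K, coeff J h * coeff K (monomial J (1 : ℂ) * s) := by
  obtain ⟨g, hg⟩ := division h K
  have e1 : coeff K (h * s) = coeff K ((∑ J ∈ D K, monomial J (coeff J h)) * s) +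
      coeff K ((∑ i, monomial (Finsupp.single i (K i + 1)) (1 : ℂ) * g i) * s) := by
    rw [← map_add, ← add_mul, ← hg]
  have e2 : coeff K ((∑ i, monomial (Finsupp.single i (K i + 1)) (1 : ℂ) * g i) * s) = 0 := by
    rw [Finset.sum_mul, map_sum]
    refine Finset.sum_eq_zero fun i _ => ?_
    rw [mul_assoc, coeff_monomial_mul, if_neg (not_single_le K i)]
  rw [e1, e2, add_zero, Finset.sum_mul, map_sum]
  refine Finset.sum_congr rfl fun J _ => ?_
  rw [coeff_monomial_mul, coeff_monomial_mul]
  split_ifs
  · rw [one_mul]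
  · rw [mul_zero]

end Pool.Agent.H321R3.UT
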