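import Mathlib

set_option autoImplicit false
open MeasureTheory Filter Topology Set

namespace Pool.Agent.H321R3.Painless

/-- the odd window `sin(2πt)^3` on `[-1/2,1/2]` -/
noncomputable def g (t : ℝ) : ℂ :=
  if |t| ≤ 1 / 2 then (((Real.sin (2 * Real.pi * t)) ^ 3 : ℝ) : ℂ) else 0

lemma g_odd (t : ℝ) : g (-t) = -g t := by
  unfold g
  rw [abs_neg]
  split_ifs with h
  · rw [show 2 * Real.pi * -t = -(2 * Real.pi * t) by ring, Real.sin_neg]
    push_cast
    ring
  · simp

lemma g_eq_indicator : g = (Set.Icc (-(1/2) : ℝ) (1/2)).indicator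
    (fun t => (((Real.sin (2 * Real.pi * t)) ^ 3 : ℝ) : ℂ)) := by
  funext t
  unfold g Set.indicator
  by_cases h : |t| ≤ 1/2
  · rw [if_pos h, if_pos (show t ∈ Set.Icc (-(1/2) : ℝ) (1/2) from abs_le.1 h)]
  · rw [if_neg h, if_neg (show t ∉ Set.Icc (-(1/2) : ℝ) (1/2) from fun h' => h (abs_le.2 h'))]

lemma norm_sin3_le (t : ℝ) : ‖(((Real.sin (2 * Real.pi * t)) ^ 3 : ℝ) : ℂ)‖ ≤ 1 := by
  rw [Complex.norm_real, Real.norm_eq_abs, abs_pow]
  exact pow_le_one₀ (abs_nonneg _) (Real.abs_sin_le_one _)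

lemma memLp_g (p : ENNReal) : MemLp g p volume := by
  rw [g_eq_indicator, memLp_indicator_iff_restrict measurableSet_Icc]
  refine MemLp.of_bound (C := 1) ?_ (ae_of_all _ norm_sin3_le)
  exact (by fun_prop : Continuous (fun t : ℝ =>
    (((Real.sin (2 * Real.pi * t)) ^ 3 : ℝ) : ℂ))).aestronglyMeasurable

lemma parseval (f : ℝ → ℂ) (hf : MemLp f 2 volume) (a : ℝ) :
    HasSum (fun n : ℤ => ‖∫ t : ℝ, f t * (starRingEnd ℂ)
      (Complex.exp (2 * (Real.pi : ℂ) * Complex.I * ((n : ℝ) : ℂ) * (t : ℂ)) * g (t - a))‖ ^ 2)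
      (∫ t in (a - 1/2)..(a + 1/2), ‖f t‖ ^ 2 * Real.sin (2 * Real.pi * (t - a)) ^ 6) := by
  have hab : a - 1/2 < a + 1/2 := by linarith
  set F : ℝ → ℂ := fun t => f t * (((Real.sin (2 * Real.pi * (t - a))) ^ 3 : ℝ) : ℂ) with hF
  have hF2 : MemLp F 2 (volume.restrict (Ioc (a - 1/2) (a + 1/2))) := by
    have h1 : MemLp f 2 (volume.restrict (Ioc (a - 1/2) (a + 1/2))) := hf.restrict _
    refine MemLp.mono h1 ?_ (ae_of_all _ fun t => ?_)
    · exact h1.aestronglyMeasurable.mul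
        (by fun_prop : Continuous (fun t : ℝ =>
          (((Real.sin (2 * Real.pi * (t - a))) ^ 3 : ℝ) : ℂ))).aestronglyMeasurable
    · rw [hF, norm_mul]
      exact mul_le_of_le_one_right (norm_nonneg _) (norm_sin3_le (t - a))
  have h := hasSum_sq_fourierCoeffOn hab hF2
  have h1 : (a + 1/2 - (a - 1/2))⁻¹ = 1 := by norm_num
  rw [h1, one_smul] at h
  convert h using 1
  · funext n
    congr 2
    rw [fourierCoeffOn_eq_integral, intervalIntegral.integral_of_le hab.le]
    rw [show (1 / (a + 1/2 - (a - 1/2)) : ℝ) = 1 by norm_num, one_smul]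
    rw [← integral_indicator measurableSet_Ioc]
    refine integral_congr_ae ?_
    have hne : ∀ᵐ t : ℝ ∂volume, t ≠ a - 1/2 := by
      simp [ae_iff, measure_singleton]
    filter_upwards [hne] with t ht
    unfold Set.indicator
    by_cases h : t ∈ Ioc (a - 1/2) (a + 1/2)
    · rw [if_pos h]
      have h2 : |t - a| ≤ 1/2 := abs_le.2 ⟨by linarith [h.1], by linarith [h.2]⟩
      simp only [g, if_pos h2, hF]
      rw [fourier_coe_apply, smul_eq_mul, map_mul, Complex.conj_ofReal, ← Complex.exp_conj]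
      have h3 : (2 * (Real.pi : ℂ) * Complex.I * ((-n : ℤ) : ℂ) * (t : ℂ)
          / ((a + 1/2 - (a - 1/2) : ℝ) : ℂ)) =
          (starRingEnd ℂ) (2 * (Real.pi : ℂ) * Complex.I * ((n : ℝ) : ℂ) * (t : ℂ)) := by
        rw [show ((a + 1/2 - (a - 1/2) : ℝ)) = 1 by ring]
        simp only [map_mul, Complex.conj_ofReal, Complex.conj_I, map_ofNat]
        push_cast
        ring
      rw [h3]
      ring
    · rw [if_neg h]
      have h2 : ¬ |t - a| ≤ 1/2 := by
        intro h3
        rw [abs_le] at h3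
        exact h ⟨lt_of_le_of_ne (by linarith [h3.1]) ht.symm, by linarith [h3.2]⟩
      simp only [g, if_neg h2, mul_zero, map_zero]
  · refine intervalIntegral.integral_congr fun t _ => ?_
    simp only [hF, norm_mul, Complex.norm_real, Real.norm_eq_abs, abs_pow, mul_pow]
    rw [← pow_mul, Even.pow_abs (by decide : Even (3 * 2))]

end Pool.Agent.H321R3.Painless
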