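import Mathlib

set_option autoImplicit false
open Filter Topology Set

namespace Pool.Agent.H321R3.Smale

/-- circles accumulating on the dyadic solenoid and shrinking to a point -/
def S : Set (ℤ → ℂ) :=
  {z | (∀ k, z k = 0 ∨ ‖z k‖ = 1) ∧ ∀ k, z (k + 1) = 0 ∨ z (k + 1) ^ 2 = z k}

abbrev X : Type := S

lemma isClosed_S : IsClosed S := by
  have h : S = (⋂ k : ℤ, {z : ℤ → ℂ | ‖z k‖ * (‖z k‖ - 1) = 0}) ∩
      ⋂ k : ℤ, {z : ℤ → ℂ | z (k + 1) * (z (k + 1) ^ 2 - z k) = 0} := by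
    ext z
    simp only [S, Set.mem_inter_iff, Set.mem_iInter]
    constructor
    · rintro ⟨h1, h2⟩
      refine ⟨fun k => ?_, fun k => ?_⟩
      · rcases h1 k with h | h
        · show ‖z k‖ * (‖z k‖ - 1) = 0
          rw [h]; simp
        · show ‖z k‖ * (‖z k‖ - 1) = 0
          rw [h]; simp
      · rcases h2 k with h | h
        · show z (k + 1) * (z (k + 1) ^ 2 - z k) = 0
          rw [h]; simp
        · show z (k + 1) * (z (k + 1) ^ 2 - z k) = 0
          rw [h]; simp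
    · rintro ⟨h1, h2⟩
      refine ⟨fun k => ?_, fun k => ?_⟩
      · have h3 : ‖z k‖ * (‖z k‖ - 1) = 0 := h1 k
        rcases mul_eq_zero.1 h3 with h | h
        · exact Or.inl (norm_eq_zero.1 h)
        · exact Or.inr (by linarith)
      · have h3 : z (k + 1) * (z (k + 1) ^ 2 - z k) = 0 := h2 k
        rcases mul_eq_zero.1 h3 with h | h
        · exact Or.inl h
        · exact Or.inr (sub_eq_zero.1 h)
  rw [h]
  refine IsClosed.inter (isClosed_iInter fun k => ?_) (isClosed_iInter fun k => ?_)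
  · exact isClosed_eq (by fun_prop) continuous_const
  · exact isClosed_eq (by fun_prop) continuous_const

instance : CompactSpace X := by
  rw [← isCompact_iff_compactSpace]
  have h : IsCompact (Set.pi Set.univ fun _ : ℤ => Metric.closedBall (0 : ℂ) 1) :=
    isCompact_univ_pi fun _ => isCompact_closedBall _ _
  refine h.of_isClosed_subset isClosed_S fun z hz k _ => ?_
  rw [mem_closedBall_zero_iff]
  rcases hz.1 k with h1 | h1
  · rw [h1]; simp
  · rw [h1]

lemma norm_le_one (z : X) (k : ℤ) : ‖z.1 k‖ ≤ 1 := by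
  rcases z.2.1 k with h1 | h1
  · rw [h1]; simp
  · rw [h1]

lemma norm_eq_one {z : X} {k : ℤ} (h : z.1 k ≠ 0) : ‖z.1 k‖ = 1 := by
  rcases z.2.1 k with h1 | h1
  · exact absurd h1 h
  · exact h1

lemma sq_eq {z : X} {k : ℤ} (h : z.1 (k + 1) ≠ 0) : z.1 (k + 1) ^ 2 = z.1 k := by
  rcases z.2.2 k with h1 | h1
  · exact absurd h1 h
  · exact h1

lemma ne_zero_of_succ {z : X} {k : ℤ} (h : z.1 (k + 1) ≠ 0) : z.1 k ≠ 0 := by
  rw [← sq_eq h]; exact pow_ne_zero 2 h

lemma ne_zero_of_le {z : X} {k l : ℤ} (h : z.1 l ≠ 0) (hkl : k ≤ l) : z.1 k ≠ 0 := by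
  obtain ⟨n, rfl⟩ := Int.le.dest hkl
  induction n with
  | zero => simpa using h
  | succ n ih =>
    apply ih _ (by omega)
    apply ne_zero_of_succ
    convert h using 2
    push_cast
    ring

lemma eq_zero_of_ge {z : X} {k l : ℤ} (h : z.1 k = 0) (hkl : k ≤ l) : z.1 l = 0 := by
  by_contra h1
  exact ne_zero_of_le h1 hkl h

/-- if the coordinates at `l` agree then so do the coordinates before -/
lemma eq_of_le {z w : X} {k l : ℤ} (hz : z.1 l ≠ 0) (h : z.1 l = w.1 l) (hkl : k ≤ l) :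
    z.1 k = w.1 k := by
  obtain ⟨n, rfl⟩ := Int.le.dest hkl
  induction n with
  | zero => simpa using h
  | succ n ih =>
    have e : k + ((n + 1 : ℕ) : ℤ) = k + (n : ℤ) + 1 := by push_cast; ring
    rw [e] at hz h
    refine ih ?_ ?_ (by omega)
    · exact ne_zero_of_succ hz
    · have hw : w.1 (k + (n : ℤ) + 1) ≠ 0 := by rw [← h]; exact hz
      have e1 := sq_eq hz
      have e2 := sq_eq hw
      rw [← e1, ← e2, h]

/-- the left shift, as a map -/
def sh (z : X) : X := ⟨fun k => z.1 (k + 1), fun k => z.2.1 _, fun k => z.2.2 _⟩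

/-- the right shift, as a map -/
def sh' (z : X) : X := ⟨fun k => z.1 (k - 1), fun k => z.2.1 _, fun k => by
    have := z.2.2 (k - 1)
    rwa [show k - 1 + 1 = k + 1 - 1 by ring] at this⟩

lemma continuous_coord (k : ℤ) : Continuous fun z : X => z.1 k :=
  (continuous_apply k).comp continuous_subtype_val

lemma continuous_sh : Continuous sh := by
  refine Continuous.subtype_mk (continuous_pi fun k => ?_) _
  exact continuous_coord (k + 1)

lemma continuous_sh' : Continuous sh' := by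
  refine Continuous.subtype_mk (continuous_pi fun k => ?_) _
  exact continuous_coord (k - 1)

/-- the left shift -/
def f : X ≃ₜ X where
  toFun := sh
  invFun := sh'
  left_inv z := by
    apply Subtype.ext; funext k; simp [sh, sh']
  right_inv z := by
    apply Subtype.ext; funext k; simp [sh, sh']
  continuous_toFun := continuous_sh
  continuous_invFun := continuous_sh'

lemma f_apply (z : X) (k : ℤ) : (f z).1 k = z.1 (k + 1) := rfl
lemma f_symm_apply (z : X) (k : ℤ) : (f.symm z).1 k = z.1 (k - 1) := rfl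

/-- the factor `exp(i t 2^{-k})` -/
noncomputable def e (t : ℝ) (k : ℤ) : ℂ := Complex.exp (Complex.I * ((t * (2 : ℝ) ^ (-k) : ℝ) : ℂ))

lemma norm_e (t : ℝ) (k : ℤ) : ‖e t k‖ = 1 := by
  unfold e; rw [mul_comm]; exact Complex.norm_exp_ofReal_mul_I _

lemma e_ne (t : ℝ) (k : ℤ) : e t k ≠ 0 := Complex.exp_ne_zero _

lemma e_sq (t : ℝ) (k : ℤ) : e t (k + 1) ^ 2 = e t k := by
  unfold e
  rw [← Complex.exp_nat_mul]
  congr 1
  have : (2 : ℝ) ^ (-k) = 2 * (2 : ℝ) ^ (-(k + 1)) := by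
    rw [show -k = -(k + 1) + 1 by ring, zpow_add₀ (by norm_num), zpow_one]; ring
  rw [this]
  push_cast
  ring

lemma e_zero (k : ℤ) : e 0 k = 1 := by simp [e]

lemma e_add (s t : ℝ) (k : ℤ) : e (s + t) k = e s k * e t k := by
  unfold e
  rw [← Complex.exp_add]
  congr 1
  push_cast
  ring

lemma e_half (t : ℝ) (k : ℤ) : e t (k + 1) = e (t / 2) k := by
  unfold e
  congr 2
  have : (2 : ℝ) ^ (-k) = 2 * (2 : ℝ) ^ (-(k + 1)) := by
    rw [show -k = -(k + 1) + 1 by ring, zpow_add₀ (by norm_num), zpow_one]; ring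
  rw [this]
  push_cast
  ring

lemma e_at_zero (t : ℝ) : e t 0 = Complex.exp (Complex.I * (t : ℂ)) := by simp [e]

lemma continuous_e (k : ℤ) : Continuous fun t : ℝ => e t k := by
  unfold e; fun_prop

/-- the flow -/
noncomputable def rho (t : ℝ) (z : X) : X :=
  ⟨fun k => z.1 k * e t k, fun k => by
    rcases z.2.1 k with h | h
    · left; show z.1 k * e t k = 0; rw [h, zero_mul]
    · right; show ‖z.1 k * e t k‖ = 1; rw [norm_mul, h, norm_e, one_mul], fun k => by
    rcases z.2.2 k with h | h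
    · left; show z.1 (k + 1) * e t (k + 1) = 0; rw [h, zero_mul]
    · right; show (z.1 (k + 1) * e t (k + 1)) ^ 2 = z.1 k * e t k; rw [mul_pow, h, e_sq]⟩

lemma rho_apply (t : ℝ) (z : X) (k : ℤ) : (rho t z).1 k = z.1 k * e t k := rfl

lemma rho_zero (z : X) : rho 0 z = z := by
  apply Subtype.ext; funext k; rw [rho_apply, e_zero, mul_one]

lemma rho_add (s t : ℝ) (z : X) : rho s (rho t z) = rho (s + t) z := by
  apply Subtype.ext; funext k; rw [rho_apply, rho_apply, rho_apply, e_add]; ring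

lemma f_rho (t : ℝ) (z : X) : f (rho t z) = rho (t / 2) (f z) := by
  apply Subtype.ext; funext k; rw [f_apply, rho_apply, rho_apply, f_apply, e_half]

/-- the metric -/
noncomputable def dd (z w : X) : ℝ := ⨆ k : ℤ, (3 / 4 : ℝ) ^ k.natAbs * ‖z.1 k - w.1 k‖

lemma term_le_two (z w : X) (k : ℤ) : (3 / 4 : ℝ) ^ k.natAbs * ‖z.1 k - w.1 k‖ ≤ 2 := by
  have h1 : (3 / 4 : ℝ) ^ k.natAbs ≤ 1 := pow_le_one₀ (by norm_num) (by norm_num)
  have h2 : ‖z.1 k - w.1 k‖ ≤ 2 := by
    refine (norm_sub_le _ _).trans ?_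
    linarith [norm_le_one z k, norm_le_one w k]
  calc (3 / 4 : ℝ) ^ k.natAbs * ‖z.1 k - w.1 k‖ ≤ 1 * 2 := by gcongr
    _ = 2 := by norm_num

lemma bdd (z w : X) : BddAbove (Set.range fun k : ℤ => (3 / 4 : ℝ) ^ k.natAbs * ‖z.1 k - w.1 k‖) :=
  ⟨2, by rintro _ ⟨k, rfl⟩; exact term_le_two z w k⟩

lemma le_dd (z w : X) (k : ℤ) : (3 / 4 : ℝ) ^ k.natAbs * ‖z.1 k - w.1 k‖ ≤ dd z w :=
  le_ciSup (bdd z w) k

lemma dd_le {z w : X} {c : ℝ} (h : ∀ k : ℤ, (3 / 4 : ℝ) ^ k.natAbs * ‖z.1 k - w.1 k‖ ≤ c) :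
    dd z w ≤ c := ciSup_le h

lemma norm_zero_le (z w : X) : ‖z.1 0 - w.1 0‖ ≤ dd z w := by
  simpa using le_dd z w 0

lemma dd_nonneg (z w : X) : 0 ≤ dd z w := (norm_nonneg _).trans (norm_zero_le z w)

lemma dd_comm (z w : X) : dd z w = dd w z := by
  unfold dd
  congr 1
  funext k
  rw [norm_sub_rev]

lemma dd_self (z : X) : dd z z = 0 := by
  refine le_antisymm (dd_le fun k => by simp) (dd_nonneg _ _)

lemma eq_of_dd {z w : X} (h : dd z w = 0) : z = w := by
  apply Subtype.ext; funext k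
  have h1 := le_dd z w k
  rw [h] at h1
  have h2 : (0 : ℝ) < (3 / 4 : ℝ) ^ k.natAbs := by positivity
  have h3 : ‖z.1 k - w.1 k‖ ≤ 0 := by
    by_contra h4
    push Not at h4
    have := mul_pos h2 h4
    linarith
  exact sub_eq_zero.1 (norm_le_zero_iff.1 h3)

lemma dd_triangle (x y z : X) : dd x z ≤ dd x y + dd y z := by
  refine dd_le fun k => ?_
  have h1 := le_dd x y k
  have h2 := le_dd y z k
  have h3 : ‖x.1 k - z.1 k‖ ≤ ‖x.1 k - y.1 k‖ + ‖y.1 k - z.1 k‖ := by
    have : x.1 k - z.1 k = (x.1 k - y.1 k) + (y.1 k - z.1 k) := by ring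
    rw [this]; exact norm_add_le _ _
  have h4 : (0 : ℝ) ≤ (3 / 4 : ℝ) ^ k.natAbs := by positivity
  calc (3 / 4 : ℝ) ^ k.natAbs * ‖x.1 k - z.1 k‖
      ≤ (3 / 4 : ℝ) ^ k.natAbs * (‖x.1 k - y.1 k‖ + ‖y.1 k - z.1 k‖) := by gcongr
    _ = (3 / 4 : ℝ) ^ k.natAbs * ‖x.1 k - y.1 k‖ + (3 / 4 : ℝ) ^ k.natAbs * ‖y.1 k - z.1 k‖ := by
        ring
    _ ≤ dd x y + dd y z := by linarith

/-- the metric is compatible -/
lemma isOpen_iff (U : Set X) : IsOpen U ↔ ∀ x ∈ U, ∃ r > 0, ∀ y, dd x y < r → y ∈ U := by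
  constructor
  · intro hU x hx
    rw [isOpen_induced_iff] at hU
    obtain ⟨V, hV, rfl⟩ := hU
    have hx' : x.1 ∈ V := hx
    rw [isOpen_pi_iff] at hV
    obtain ⟨I, u, hu, hsub⟩ := hV x.1 hx'
    -- radii
    have h1 : ∀ k ∈ I, ∃ r > 0, Metric.ball (x.1 k) r ⊆ u k := fun k hk =>
      Metric.isOpen_iff.1 (hu k hk).1 _ (hu k hk).2
    choose! r hr hrs using h1
    -- minimum
    have h2 : ∃ δ > 0, ∀ k ∈ I, δ ≤ (3 / 4 : ℝ) ^ k.natAbs * r k := by
      clear hsub hrs hu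
      induction I using Finset.induction_on with
      | empty => exact ⟨1, one_pos, fun k hk => absurd hk (by simp)⟩
      | insert a s ha ih =>
        obtain ⟨δ, hδ, hδ2⟩ := ih (fun k hk => hr k (Finset.mem_insert_of_mem hk))
        have h3 : 0 < (3 / 4 : ℝ) ^ a.natAbs * r a :=
          mul_pos (by positivity) (hr a (Finset.mem_insert_self a s))
        refine ⟨min δ ((3 / 4 : ℝ) ^ a.natAbs * r a), lt_min hδ h3, fun k hk => ?_⟩
        rcases Finset.mem_insert.1 hk with rfl | hk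
        · exact min_le_right _ _
        · exact (min_le_left _ _).trans (hδ2 k hk)
    obtain ⟨δ, hδ, hδ2⟩ := h2
    refine ⟨δ, hδ, fun y hy => hsub fun k hk => hrs k hk ?_⟩
    rw [Metric.mem_ball, dist_comm, dist_eq_norm]
    have h3 := le_dd x y k
    have h4 := hδ2 k hk
    have h5 : (0 : ℝ) < (3 / 4 : ℝ) ^ k.natAbs := by positivity
    exact lt_of_mul_lt_mul_left (by linarith) h5.le
  · intro h
    rw [isOpen_iff_mem_nhds]
    intro x hx
    obtain ⟨r, hr, hrU⟩ := h x hx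
    obtain ⟨N, hN⟩ := exists_pow_lt_of_lt_one (show (0 : ℝ) < r / 4 by positivity)
      (show (3 / 4 : ℝ) < 1 by norm_num)
    -- the neighbourhood
    have hV : {y : X | ∀ k ∈ Finset.Icc (-(N : ℤ)) N, ‖x.1 k - y.1 k‖ < r / 2} ∈ 𝓝 x := by
      have : ({y : X | ∀ k ∈ Finset.Icc (-(N : ℤ)) N, ‖x.1 k - y.1 k‖ < r / 2} : Set X) =
          ⋂ k ∈ Finset.Icc (-(N : ℤ)) N, {y : X | ‖x.1 k - y.1 k‖ < r / 2} := by
        ext y; simp
      rw [this, Filter.biInter_finset_mem]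
      intro k _
      have ho : IsOpen {y : X | ‖x.1 k - y.1 k‖ < r / 2} := by
        have hc : Continuous fun y : X => ‖x.1 k - y.1 k‖ :=
          (continuous_const.sub ((continuous_apply k).comp continuous_subtype_val)).norm
        exact isOpen_lt hc continuous_const
      exact ho.mem_nhds (by show ‖x.1 k - x.1 k‖ < r / 2; simp [hr])
    refine mem_of_superset hV fun y hy => hrU y ?_
    refine lt_of_le_of_lt (dd_le (c := r / 2) fun k => ?_) (by linarith)
    by_cases hk : k ∈ Finset.Icc (-(N : ℤ)) N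
    · have h1 := hy k hk
      have h2 : (3 / 4 : ℝ) ^ k.natAbs ≤ 1 := pow_le_one₀ (by norm_num) (by norm_num)
      calc (3 / 4 : ℝ) ^ k.natAbs * ‖x.1 k - y.1 k‖ ≤ 1 * ‖x.1 k - y.1 k‖ := by gcongr
        _ ≤ r / 2 := by linarith
    · have h1 : N ≤ k.natAbs := by
        rw [Finset.mem_Icc] at hk
        omega
      have h2 : (3 / 4 : ℝ) ^ k.natAbs ≤ (3 / 4 : ℝ) ^ N :=
        pow_le_pow_of_le_one (by norm_num) (by norm_num) h1
      have h3 : ‖x.1 k - y.1 k‖ ≤ 2 := by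
        refine (norm_sub_le _ _).trans ?_
        linarith [norm_le_one x k, norm_le_one y k]
      calc (3 / 4 : ℝ) ^ k.natAbs * ‖x.1 k - y.1 k‖ ≤ (r / 4) * 2 := by
            apply mul_le_mul (h2.trans hN.le) h3 (norm_nonneg _) (by positivity)
        _ = r / 2 := by ring

end Pool.Agent.H321R3.Smale
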