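import Mathlib
import Pool.Agent.H321R3.SmaleX

set_option autoImplicit false
open Filter Topology Set

namespace Pool.Agent.H321R3.Smale

/-- the bracket -/
noncomputable def br (z w : X) : X :=
  if z.1 0 = 0 then w else rho (Complex.arg (w.1 0 / z.1 0)) z

lemma br_of_zero {z w : X} (h : z.1 0 = 0) : br z w = w := if_pos h
lemma br_of_ne {z w : X} (h : z.1 0 ≠ 0) : br z w = rho (Complex.arg (w.1 0 / z.1 0)) z := if_neg h

lemma near_zero {z w : X} (h : dd z w ≤ 1/2) (hz : z.1 0 = 0) : w.1 0 = 0 := by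
  by_contra h1
  have h2 := norm_zero_le z w
  rw [hz, zero_sub, norm_neg, norm_eq_one h1] at h2
  linarith

lemma near_ne {z w : X} (h : dd z w ≤ 1/2) (hz : z.1 0 ≠ 0) : w.1 0 ≠ 0 := by
  intro h1
  rw [dd_comm] at h
  exact hz (near_zero h h1)

lemma norm_div_sub_one {z w : X} (h : ‖z.1 0 - w.1 0‖ ≤ 1/2) (hz : z.1 0 ≠ 0) :
    ‖w.1 0 / z.1 0 - 1‖ ≤ 1/2 := by
  have h1 : w.1 0 / z.1 0 - 1 = (w.1 0 - z.1 0) / z.1 0 := by
    rw [sub_div, div_self hz]
  rw [h1, norm_div, norm_eq_one hz, div_one, norm_sub_rev]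
  exact h

lemma re_pos {u : ℂ} (h : ‖u - 1‖ ≤ 1/2) : 0 < u.re := by
  have h1 := Complex.abs_re_le_norm (u - 1)
  rw [Complex.sub_re, Complex.one_re] at h1
  have h2 := (abs_le.1 (h1.trans h)).1
  linarith

lemma arg_lt {z w : X} (h : ‖z.1 0 - w.1 0‖ ≤ 1/2) (hz : z.1 0 ≠ 0) :
    |Complex.arg (w.1 0 / z.1 0)| < Real.pi / 2 :=
  Complex.abs_arg_lt_pi_div_two_iff.2 (Or.inl (re_pos (norm_div_sub_one h hz)))

lemma norm_div {z w : X} (hz : z.1 0 ≠ 0) (hw : w.1 0 ≠ 0) : ‖w.1 0 / z.1 0‖ = 1 := by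
  rw [_root_.norm_div, norm_eq_one hz, norm_eq_one hw, div_one]

lemma exp_arg {u : ℂ} (h : ‖u‖ = 1) : Complex.exp (Complex.I * (Complex.arg u : ℂ)) = u := by
  have := Complex.norm_mul_exp_arg_mul_I u
  rw [h, Complex.ofReal_one, one_mul] at this
  rw [mul_comm]
  exact this

lemma rho_coord_zero {z w : X} (hz : z.1 0 ≠ 0) (hw : w.1 0 ≠ 0) :
    (rho (Complex.arg (w.1 0 / z.1 0)) z).1 0 = w.1 0 := by
  rw [rho_apply, e_at_zero, exp_arg (norm_div hz hw)]
  field_simp

lemma br_coord_zero {z w : X} (h : dd z w ≤ 1/2) : (br z w).1 0 = w.1 0 := by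
  by_cases hz : z.1 0 = 0
  · rw [br_of_zero hz]
  · rw [br_of_ne hz, rho_coord_zero hz (near_ne h hz)]

lemma br_self (x : X) : br x x = x := by
  by_cases hx : x.1 0 = 0
  · rw [br_of_zero hx]
  · rw [br_of_ne hx, div_self hx, Complex.arg_one, rho_zero]

lemma br_br_right (x y z : X) (h1 : dd y z ≤ 1/2) (_h2 : dd x (br y z) ≤ 1/2) (_h3 : dd x z ≤ 1/2) :
    br x (br y z) = br x z := by
  have h4 := br_coord_zero h1
  by_cases hx : x.1 0 = 0
  · have hz := near_zero _h3 hx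
    have hy : y.1 0 = 0 := by
      rw [dd_comm] at h1
      exact near_zero h1 hz
    rw [br_of_zero hy]
  · rw [br_of_ne hx, br_of_ne hx, h4]

lemma rho_coord_ne {t : ℝ} {z : X} {k : ℤ} (h : z.1 k ≠ 0) : (rho t z).1 k ≠ 0 := by
  rw [rho_apply]; exact mul_ne_zero h (e_ne _ _)

lemma br_br_left (x y z : X) (h1 : dd x y ≤ 1/2) (h2 : dd (br x y) z ≤ 1/2) (h3 : dd x z ≤ 1/2) :
    br (br x y) z = br x z := by
  by_cases hx : x.1 0 = 0
  · have hy := near_zero h1 hx
    rw [br_of_zero hx, br_of_zero hx, br_of_zero hy]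
  · have hy := near_ne h1 hx
    have hz := near_ne h3 hx
    have e0 : (br x y).1 0 = y.1 0 := br_coord_zero h1
    have hyz : ‖y.1 0 - z.1 0‖ ≤ 1/2 := by
      rw [← e0]; exact (norm_zero_le _ _).trans h2
    have hb : (br x y).1 0 ≠ 0 := by rw [e0]; exact hy
    rw [br_of_ne hb, e0, br_of_ne hx, br_of_ne hx, rho_add]
    congr 1
    have a1 := arg_lt hyz hy
    have a2 := arg_lt ((norm_zero_le _ _).trans h1) hx
    rw [← Complex.arg_mul (div_ne_zero hz hy) (div_ne_zero hy hx)]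
    · congr 1
      field_simp
    · rw [abs_lt] at a1 a2
      constructor <;> linarith [a1.1, a1.2, a2.1, a2.2]

lemma f_br (x y : X) (h1 : dd x y ≤ 1/2) (h2 : dd (f x) (f y) ≤ 1/2) :
    f (br x y) = br (f x) (f y) := by
  by_cases hx1 : (f x).1 0 = 0
  · rw [br_of_zero hx1]
    have hy1 : (f y).1 0 = 0 := near_zero h2 hx1
    congr 1
    by_cases hx : x.1 0 = 0
    · rw [br_of_zero hx]
    · have hy := near_ne h1 hx
      rw [br_of_ne hx]
      apply Subtype.ext; funext k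
      rw [f_apply] at hx1 hy1
      rcases le_or_gt k 0 with hk | hk
      · exact eq_of_le (rho_coord_ne hx) (rho_coord_zero hx hy) hk
      · rw [rho_apply, eq_zero_of_ge hx1 (by omega : (0:ℤ) + 1 ≤ k), zero_mul,
          eq_zero_of_ge hy1 (by omega : (0:ℤ) + 1 ≤ k)]
  · have hx1' : x.1 (0 + 1) ≠ 0 := hx1
    have hx : x.1 0 ≠ 0 := ne_zero_of_succ hx1'
    have hy1 : (f y).1 0 ≠ 0 := near_ne h2 hx1
    have hy1' : y.1 (0 + 1) ≠ 0 := hy1
    rw [br_of_ne hx, br_of_ne hx1, f_rho]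
    congr 1
    have e1 : y.1 0 / x.1 0 = ((f y).1 0 / (f x).1 0) * ((f y).1 0 / (f x).1 0) := by
      rw [f_apply, f_apply, ← sq_eq hx1', ← sq_eq hy1']
      ring
    have a1 := arg_lt ((norm_zero_le _ _).trans h2) hx1
    rw [abs_lt] at a1
    rw [e1, Complex.arg_mul (div_ne_zero hy1 hx1) (div_ne_zero hy1 hx1)]
    · ring
    · constructor <;> linarith [a1.1, a1.2]

lemma norm_one_add_exp {x : ℝ} (h : |x| ≤ Real.pi / 2) :
    4 / 3 ≤ ‖1 + Complex.exp (Complex.I * (x : ℂ))‖ := by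
  have hc : 0 ≤ Real.cos x := Real.cos_nonneg_of_mem_Icc (abs_le.1 h |>.imp (by intro; linarith) id)
  have h1 : Complex.normSq (1 + Complex.exp (Complex.I * (x : ℂ))) = 2 + 2 * Real.cos x := by
    rw [mul_comm, Complex.exp_mul_I, Complex.normSq_apply]
    simp only [Complex.add_re, Complex.one_re, Complex.cos_ofReal_re, Complex.mul_re,
      Complex.sin_ofReal_re, Complex.I_re, mul_zero, Complex.sin_ofReal_im, Complex.I_im, mul_one,
      sub_self, add_zero, Complex.add_im, Complex.one_im, Complex.cos_ofReal_im, Complex.mul_im,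
      zero_add]
    nlinarith [Real.sin_sq_add_cos_sq x]
  have h2 : ‖1 + Complex.exp (Complex.I * (x : ℂ))‖ ^ 2 = 2 + 2 * Real.cos x := by
    rw [← h1, Complex.normSq_eq_norm_sq]
  nlinarith [norm_nonneg (1 + Complex.exp (Complex.I * (x : ℂ)))]

lemma one_sub_e_le {s : ℝ} (hs : |s| ≤ Real.pi) (n : ℕ) :
    ‖1 - e s ((n : ℤ) + 1)‖ ≤ 3 / 4 * ‖1 - e s (n : ℤ)‖ := by
  have h1 : 1 - e s (n : ℤ) = (1 - e s ((n : ℤ) + 1)) * (1 + e s ((n : ℤ) + 1)) := by
    rw [← e_sq]; ring
  have h2 : 4 / 3 ≤ ‖1 + e s ((n : ℤ) + 1)‖ := by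
    unfold e
    refine norm_one_add_exp ?_
    rw [abs_mul, abs_of_pos (by positivity : (0 : ℝ) < 2 ^ (-((n : ℤ) + 1)))]
    have h3 : (2 : ℝ) ^ (-((n : ℤ) + 1)) ≤ 2⁻¹ := by
      rw [← zpow_neg_one]
      exact zpow_le_zpow_right₀ (by norm_num) (by omega)
    calc |s| * (2 : ℝ) ^ (-((n : ℤ) + 1)) ≤ Real.pi * 2⁻¹ := by
          gcongr
      _ = _ := by ring
  rw [h1, norm_mul]
  nlinarith [norm_nonneg (1 - e s ((n : ℤ) + 1))]

lemma one_sub_e_le' {s : ℝ} (hs : |s| ≤ Real.pi) (n : ℕ) :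
    ‖1 - e s ((n : ℤ) + 1)‖ ≤ 3 / 4 * ‖1 - e s 0‖ := by
  induction n with
  | zero => simpa using one_sub_e_le hs 0
  | succ n ih =>
    have h1 := one_sub_e_le hs (n + 1)
    have h2 : ‖1 - e s (((n + 1 : ℕ) : ℤ))‖ ≤ 3 / 4 * ‖1 - e s 0‖ := by
      have e1 : (((n + 1 : ℕ) : ℤ)) = (n : ℤ) + 1 := by push_cast; ring
      rw [e1]; exact ih
    have h3 := norm_nonneg (1 - e s 0)
    linarith

lemma stable (x y z : X) (h1 : dd x y ≤ 1/2) (h2 : br y x = x) (h3 : dd x z ≤ 1/2)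
    (h4 : br z x = x) : dd (f y) (f z) ≤ 3 / 4 * dd y z := by
  by_cases hx : x.1 0 = 0
  · have hy := near_zero h1 hx
    have hz := near_zero h3 hx
    refine dd_le fun k => ?_
    rw [f_apply, f_apply]
    rcases le_or_gt 0 (k + 1) with hk | hk
    · rw [eq_zero_of_ge hy hk, eq_zero_of_ge hz hk, sub_self, norm_zero, mul_zero]
      have := dd_nonneg y z
      positivity
    · have h5 := le_dd y z (k + 1)
      have h6 : k.natAbs = (k + 1).natAbs + 1 := by omega
      rw [h6, pow_succ]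
      linarith
  · have hy := near_ne h1 hx
    have hz := near_ne h3 hx
    have hn1 : ‖y.1 0 - x.1 0‖ ≤ 1/2 := by
      rw [norm_sub_rev]; exact (norm_zero_le _ _).trans h1
    have hn2 : ‖z.1 0 - x.1 0‖ ≤ 1/2 := by
      rw [norm_sub_rev]; exact (norm_zero_le _ _).trans h3
    have a1 := arg_lt hn1 hy
    have a2 := arg_lt hn2 hz
    rw [br_of_ne hy] at h2
    rw [br_of_ne hz] at h4
    set t := Complex.arg (x.1 0 / y.1 0) with ht
    set t' := Complex.arg (x.1 0 / z.1 0) with ht'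
    have hzy : z = rho (t - t') y := by
      calc z = rho (-t') (rho t' z) := by rw [rho_add, neg_add_cancel, rho_zero]
        _ = rho (-t') x := by rw [h4]
        _ = rho (-t') (rho t y) := by rw [h2]
        _ = rho (t - t') y := by rw [rho_add]; congr 1; ring
    have hs : |t - t'| ≤ Real.pi := by
      have := abs_sub t t'
      rw [abs_lt] at a1 a2
      rw [abs_le]
      constructor <;> linarith [a1.1, a1.2, a2.1, a2.2]
    set s := t - t' with hsdef
    have hd : ∀ k, y.1 k - z.1 k = y.1 k * (1 - e s k) := by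
      intro k
      rw [hzy, rho_apply]; ring
    refine dd_le fun k => ?_
    rw [f_apply, f_apply]
    rcases le_or_gt (k + 1) 0 with hk | hk
    · have h5 := le_dd y z (k + 1)
      have h6 : k.natAbs = (k + 1).natAbs + 1 := by omega
      rw [h6, pow_succ]
      linarith
    · obtain ⟨n, rfl⟩ : ∃ n : ℕ, k = n := ⟨k.toNat, by omega⟩
      rw [hd, norm_mul]
      have h5 : ‖y.1 0 - z.1 0‖ ≤ dd y z := norm_zero_le y z
      rw [hd, norm_mul, norm_eq_one hy, one_mul] at h5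
      have h6 := one_sub_e_le' hs n
      have h7 : (3 / 4 : ℝ) ^ (n : ℤ).natAbs ≤ 1 := pow_le_one₀ (by norm_num) (by norm_num)
      have h8 := norm_le_one y ((n : ℤ) + 1)
      calc (3 / 4 : ℝ) ^ (n : ℤ).natAbs * (‖y.1 ((n : ℤ) + 1)‖ * ‖1 - e s ((n : ℤ) + 1)‖)
          ≤ 1 * (1 * ‖1 - e s ((n : ℤ) + 1)‖) := by gcongr
        _ ≤ 3 / 4 * dd y z := by linarith

lemma unstable (x y z : X) (h1 : dd x y ≤ 1/2) (h2 : br x y = x) (h3 : dd x z ≤ 1/2)
    (h4 : br x z = x) : dd (f.symm y) (f.symm z) ≤ 3 / 4 * dd y z := by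
  by_cases hx : x.1 0 = 0
  · rw [br_of_zero hx] at h2 h4
    rw [h2, h4, dd_self, dd_self]
    norm_num
  · have e1 : y.1 0 = x.1 0 := by rw [← br_coord_zero h1, h2]
    have e2 : z.1 0 = x.1 0 := by rw [← br_coord_zero h3, h4]
    have e3 : ∀ k ≤ 0, y.1 k = z.1 k := fun k hk =>
      eq_of_le (by rw [e1]; exact hx) (e1.trans e2.symm) hk
    refine dd_le fun k => ?_
    rw [f_symm_apply, f_symm_apply]
    rcases le_or_gt (k - 1) 0 with hk | hk
    · rw [e3 _ hk, sub_self, norm_zero, mul_zero]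
      have := dd_nonneg y z
      positivity
    · have h5 := le_dd y z (k - 1)
      have h6 : k.natAbs = (k - 1).natAbs + 1 := by omega
      rw [h6, pow_succ]
      linarith

lemma isOpen_ne (k : ℤ) : IsOpen {z : X | z.1 k ≠ 0} :=
  isOpen_ne_fun (continuous_coord k) continuous_const

lemma isOpen_eq (k : ℤ) : IsOpen {z : X | z.1 k = 0} := by
  have : {z : X | z.1 k = 0} = {z : X | ‖z.1 k‖ < 1} := by
    ext z
    constructor
    · intro h
      show ‖z.1 k‖ < 1
      rw [show z.1 k = 0 from h]; simp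
    · intro h
      by_contra h1
      have h2 : ‖z.1 k‖ < 1 := h
      rw [norm_eq_one h1] at h2
      exact lt_irrefl _ h2
  rw [this]
  exact isOpen_lt (continuous_coord k).norm continuous_const

lemma continuousOn_br : ContinuousOn (fun p : X × X => br p.1 p.2) {p | dd p.1 p.2 ≤ 1/2} := by
  intro p hp
  apply ContinuousAt.continuousWithinAt
  by_cases h0 : p.1.1 0 = 0
  · have hev : (fun p : X × X => br p.1 p.2) =ᶠ[𝓝 p] fun p => p.2 := by
      have hn : {q : X × X | q.1.1 0 = 0} ∈ 𝓝 p :=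
        ((isOpen_eq 0).preimage continuous_fst).mem_nhds h0
      filter_upwards [hn] with q hq
      exact br_of_zero hq
    exact (continuousAt_congr hev).2 continuous_snd.continuousAt
  · have hev : (fun p : X × X => br p.1 p.2) =ᶠ[𝓝 p]
        fun p => rho (Complex.arg (p.2.1 0 / p.1.1 0)) p.1 := by
      have hn : {q : X × X | q.1.1 0 ≠ 0} ∈ 𝓝 p :=
        ((isOpen_ne 0).preimage continuous_fst).mem_nhds h0
      filter_upwards [hn] with q hq
      exact br_of_ne hq
    refine (continuousAt_congr hev).2 ?_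
    rw [Topology.IsInducing.subtypeVal.continuousAt_iff, continuousAt_pi]
    intro k
    have hp' : dd p.1 p.2 ≤ 1/2 := hp
    have hsl : p.2.1 0 / p.1.1 0 ∈ Complex.slitPlane :=
      Or.inl (re_pos (norm_div_sub_one ((norm_zero_le _ _).trans hp') h0))
    have hc1 : ContinuousAt (fun q : X × X => q.2.1 0 / q.1.1 0) p :=
      ((continuous_coord 0).comp continuous_snd).continuousAt.div
        ((continuous_coord 0).comp continuous_fst).continuousAt h0
    have hc2 : ContinuousAt (fun q : X × X => Complex.arg (q.2.1 0 / q.1.1 0)) p :=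
      ContinuousAt.comp (f := fun q : X × X => q.2.1 0 / q.1.1 0) (g := Complex.arg)
        (Complex.continuousAt_arg hsl) hc1
    have hc3 : ContinuousAt (fun q : X × X => e (Complex.arg (q.2.1 0 / q.1.1 0)) k) p :=
      ContinuousAt.comp (f := fun q : X × X => Complex.arg (q.2.1 0 / q.1.1 0))
        (g := fun t => e t k) (continuous_e k).continuousAt hc2
    exact ((continuous_coord k).comp continuous_fst).continuousAt.mul hc3

end Pool.Agent.H321R3.Smale
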