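import Mathlib
import Pool.Agent.H321R3.SmaleBr

set_option autoImplicit false
open Filter Topology Set

namespace Pool.Agent.H321R3.Smale

/-! ### The circle -/

/-- a unit complex number as an element of the circle -/
def mkC (z : ℂ) (h : ‖z‖ = 1) : Circle := ⟨z, mem_sphere_zero_iff_norm.2 h⟩

lemma coe_mkC (z : ℂ) (h : ‖z‖ = 1) : ((mkC z h : Circle) : ℂ) = z := rfl

lemma cont_coe : Continuous fun u : Circle => (u : ℂ) := continuous_subtype_val

lemma connected_circle : ConnectedSpace Circle := by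
  have h1 : Function.Surjective (Circle.exp : ℝ → Circle) := Circle.exp_surjective
  exact h1.connectedSpace Circle.exp.continuous

lemma circle_surj (g : Circle → Circle) (hc : Continuous g) (hi : Function.Injective g) :
    Function.Surjective g := by
  intro p
  by_contra hp
  push Not at hp
  set q : Circle → ℂ := fun u => -((g u : ℂ) / (p : ℂ)) with hq
  have hqn : ∀ u, ‖q u‖ = 1 := by
    intro u
    rw [hq]
    simp only [norm_neg, _root_.norm_div, Circle.norm_coe, div_one]
  have hp0 : (p : ℂ) ≠ 0 := Circle.coe_ne_zero p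
  have hqc : Continuous q := by
    rw [hq]
    exact ((cont_coe.comp hc).div_const _).neg
  have hqs : ∀ u, q u ∈ Complex.slitPlane := by
    intro u
    rw [Complex.mem_slitPlane_iff_arg]
    refine ⟨fun h => ?_, fun h => ?_⟩
    · have h1 := Complex.norm_mul_exp_arg_mul_I (q u)
      rw [hqn, h, Complex.ofReal_one, one_mul, Complex.exp_pi_mul_I] at h1
      have h2 : (g u : ℂ) / (p : ℂ) = 1 := by
        have : -((g u : ℂ) / (p : ℂ)) = -1 := h1.symm
        linear_combination -this
      rw [div_eq_one_iff_eq hp0] at h2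
      exact hp u (Circle.ext h2)
    · have := hqn u
      rw [h, norm_zero] at this
      exact zero_ne_one this
  set F : ℝ → ℝ := fun t => Complex.arg (q (Circle.exp t)) with hF
  have hFc : Continuous F := by
    rw [continuous_iff_continuousAt]
    intro t
    exact ContinuousAt.comp (f := fun t : ℝ => q (Circle.exp t)) (g := Complex.arg)
      (Complex.continuousAt_arg (hqs _)) (hqc.comp Circle.exp.continuous).continuousAt
  have h2pi : F (0 + Real.pi + Real.pi) = F 0 := by
    rw [hF]
    simp only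
    rw [show (0 : ℝ) + Real.pi + Real.pi = 0 + 2 * Real.pi by ring]
    congr 2
    rw [zero_add, Circle.exp_two_pi, Circle.exp_zero]
  set D : ℝ → ℝ := fun t => F t - F (t + Real.pi) with hD
  have hDc : Continuous D := hFc.sub (hFc.comp (continuous_id.add continuous_const))
  have hD0 : D (0 + Real.pi) = - D 0 := by
    rw [hD]
    simp only
    rw [h2pi]
    ring
  have hz : (0 : ℝ) ∈ Set.range D := by
    rcases le_total (D 0) 0 with h | h
    · exact mem_range_of_exists_le_of_exists_ge hDc ⟨0, h⟩ ⟨0 + Real.pi, by rw [hD0]; linarith⟩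
    · exact mem_range_of_exists_le_of_exists_ge hDc ⟨0 + Real.pi, by rw [hD0]; linarith⟩ ⟨0, h⟩
  obtain ⟨t, ht⟩ := hz
  have h1 : Complex.arg (q (Circle.exp t)) = Complex.arg (q (Circle.exp (t + Real.pi))) :=
    sub_eq_zero.1 ht
  have h2 : q (Circle.exp t) = q (Circle.exp (t + Real.pi)) :=
    Complex.ext_norm_arg (by rw [hqn, hqn]) h1
  have h3 : (g (Circle.exp t) : ℂ) = g (Circle.exp (t + Real.pi)) := by
    have h4 := neg_injective h2
    rwa [div_left_inj' hp0] at h4
  have h5 : Circle.exp t = Circle.exp (t + Real.pi) := hi (Circle.ext h3)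
  rw [Circle.exp_add] at h5
  have h6 : Circle.exp Real.pi = 1 := by
    have := congrArg (fun x => (Circle.exp t)⁻¹ * x) h5
    simpa using this.symm
  have h7 : ((Circle.exp Real.pi : Circle) : ℂ) = -1 := by
    rw [Circle.coe_exp, Complex.exp_pi_mul_I]
  rw [h6, Circle.coe_one] at h7
  norm_num at h7

/-! ### The circles in `X` -/

/-- the parametrisation of the circle number `m` -/
noncomputable def psi (m : ℤ) (u : Circle) : X :=
  ⟨fun k => if k ≤ m then (u : ℂ) ^ (2 ^ (m - k).toNat) else 0, fun k => by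
    by_cases h : k ≤ m
    · right
      show ‖(if k ≤ m then (u : ℂ) ^ (2 ^ (m - k).toNat) else 0)‖ = 1
      rw [if_pos h, norm_pow, Circle.norm_coe, one_pow]
    · left
      exact if_neg h, fun k => by
    by_cases h : k + 1 ≤ m
    · right
      show (if k + 1 ≤ m then (u : ℂ) ^ (2 ^ (m - (k + 1)).toNat) else 0) ^ 2 =
        (if k ≤ m then (u : ℂ) ^ (2 ^ (m - k).toNat) else 0)
      rw [if_pos h, if_pos (by omega), ← pow_mul, ← pow_succ]
      congr 2
      omega
    · left
      exact if_neg h⟩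

lemma psi_apply (m : ℤ) (u : Circle) (k : ℤ) :
    (psi m u).1 k = if k ≤ m then (u : ℂ) ^ (2 ^ (m - k).toNat) else 0 := rfl

lemma psi_m (m : ℤ) (u : Circle) : (psi m u).1 m = u := by
  rw [psi_apply, if_pos le_rfl]; simp

lemma psi_gt {m k : ℤ} (u : Circle) (h : m < k) : (psi m u).1 k = 0 := by
  rw [psi_apply, if_neg (by omega)]

lemma psi_inj (m : ℤ) : Function.Injective (psi m) := by
  intro u v h
  have h1 := psi_m m u
  rw [h, psi_m] at h1
  exact Circle.ext h1.symm

lemma continuous_psi (m : ℤ) : Continuous (psi m) := by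
  refine Continuous.subtype_mk (continuous_pi fun k => ?_) _
  by_cases h : k ≤ m
  · simp only [if_pos h]
    exact cont_coe.pow _
  · simp only [if_neg h]
    exact continuous_const

/-- circle number `m` -/
def H (m : ℤ) : Set X := {z | z.1 m ≠ 0 ∧ z.1 (m + 1) = 0}

lemma isOpen_H (m : ℤ) : IsOpen (H m) := (isOpen_ne m).inter (isOpen_eq (m + 1))

lemma isClopen_ne (k : ℤ) : IsClopen {z : X | z.1 k ≠ 0} := by
  refine ⟨?_, isOpen_ne k⟩
  rw [← isOpen_compl_iff]
  convert isOpen_eq k using 1
  ext z; simp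

lemma isClopen_eq (k : ℤ) : IsClopen {z : X | z.1 k = 0} := by
  have h := (isClopen_ne k).compl
  convert h using 1
  ext z; simp

lemma isClopen_H (m : ℤ) : IsClopen (H m) := (isClopen_ne m).inter (isClopen_eq (m + 1))

lemma psi_mem_H (m : ℤ) (u : Circle) : psi m u ∈ H m := by
  refine ⟨?_, psi_gt u (by omega)⟩
  rw [psi_m]
  exact Circle.coe_ne_zero u

lemma eq_of_mem_H {m : ℤ} {z w : X} (hz : z ∈ H m) (hw : w ∈ H m) (h : z.1 m = w.1 m) : z = w := by
  apply Subtype.ext; funext k
  rcases le_or_gt k m with hk | hk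
  · exact eq_of_le hz.1 h hk
  · rw [eq_zero_of_ge hz.2 (by omega : m + 1 ≤ k), eq_zero_of_ge hw.2 (by omega : m + 1 ≤ k)]

lemma exists_psi {m : ℤ} {z : X} (hz : z ∈ H m) : ∃ u : Circle, psi m u = z := by
  refine ⟨mkC (z.1 m) (norm_eq_one hz.1), ?_⟩
  apply eq_of_mem_H (psi_mem_H _ _) hz
  rw [psi_m, coe_mkC]

lemma exists_mem_H {z : X} {k1 k2 : ℤ} (h1 : z.1 k1 ≠ 0) (h2 : z.1 k2 = 0) : ∃ m, z ∈ H m := by
  by_contra hno
  push Not at hno
  have hstep : ∀ m, z.1 m ≠ 0 → z.1 (m + 1) ≠ 0 := fun m hm h => hno m ⟨hm, h⟩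
  have hall : ∀ k, k1 ≤ k → z.1 k ≠ 0 := by
    intro k hk
    induction k, hk using Int.leInduction with
    | base => exact h1
    | succ k hk ih => exact hstep k ih
  have hk : k1 ≤ k2 := by
    by_contra hlt
    exact h1 (eq_zero_of_ge h2 (by omega))
  exact hall k2 hk h2

/-- a closed set containing all the circles is everything -/
lemma eq_univ_of_closed {C : Set X} (hC : IsClosed C) (h : ∀ m u, psi m u ∈ C) (z : X) : z ∈ C := by
  by_cases h1 : ∀ k, z.1 k ≠ 0
  · -- limit of truncations
    have hlim : Tendsto (fun n : ℕ => psi (n : ℤ)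
        (mkC (z.1 (n : ℤ)) (norm_eq_one (h1 _)))) atTop (𝓝 z) := by
      rw [Topology.IsInducing.subtypeVal.tendsto_nhds_iff, tendsto_pi_nhds]
      intro k
      refine tendsto_const_nhds.congr' ?_
      filter_upwards [eventually_ge_atTop k.toNat] with n hn
      have hk : k ≤ (n : ℤ) := by omega
      have := eq_of_le (z := z) (w := psi (n : ℤ)
        (mkC (z.1 (n : ℤ)) (norm_eq_one (h1 _)))) (h1 _)
        (by rw [psi_m, coe_mkC]) hk
      exact this
    exact hC.mem_of_tendsto hlim (Eventually.of_forall fun n => h _ _)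
  · push Not at h1
    obtain ⟨k2, hk2⟩ := h1
    by_cases h3 : ∃ k1, z.1 k1 ≠ 0
    · obtain ⟨k1, hk1⟩ := h3
      obtain ⟨m, hm⟩ := exists_mem_H hk1 hk2
      obtain ⟨u, hu⟩ := exists_psi hm
      rw [← hu]; exact h m u
    · push Not at h3
      have hlim : Tendsto (fun n : ℕ => psi (-(n : ℤ)) 1) atTop (𝓝 z) := by
        rw [Topology.IsInducing.subtypeVal.tendsto_nhds_iff, tendsto_pi_nhds]
        intro k
        refine tendsto_const_nhds.congr' ?_
        filter_upwards [eventually_ge_atTop ((-k).toNat + 1)] with n hn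
        show z.1 k = (psi (-(n : ℤ)) 1).1 k
        rw [psi_gt _ (by omega), h3]
      exact hC.mem_of_tendsto hlim (Eventually.of_forall fun n => h _ _)

/-! ### Iterates of the shift -/

/-- the `m`-th power of the shift -/
def T (m : ℤ) (z : X) : X := ⟨fun k => z.1 (k + m), fun k => z.2.1 _, fun k => by
  have := z.2.2 (k + m)
  rwa [show k + m + 1 = k + 1 + m by ring] at this⟩

lemma T_apply (m : ℤ) (z : X) (k : ℤ) : (T m z).1 k = z.1 (k + m) := rfl

lemma T_zero (z : X) : T 0 z = z := by
  apply Subtype.ext; funext k; rw [T_apply, add_zero]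

lemma f_T (m : ℤ) (z : X) : f (T m z) = T (m + 1) z := by
  apply Subtype.ext; funext k; rw [f_apply, T_apply, T_apply, show k + 1 + m = k + (m + 1) by ring]

lemma psi_eq_T (n m : ℤ) (u : Circle) : psi n u = T (m - n) (psi m u) := by
  apply Subtype.ext; funext k
  rw [T_apply, psi_apply, psi_apply]
  by_cases h : k ≤ n
  · rw [if_pos h, if_pos (by omega)]
    congr 3
    ring
  · rw [if_neg h, if_neg (by omega)]

lemma comm_T {τ : X → X} (hτ : ∀ x, τ (f x) = f (τ x)) (m : ℤ) (z : X) :
    τ (T m z) = T m (τ z) := by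
  induction m using Int.induction_on with
  | zero => rw [T_zero, T_zero]
  | succ m ih => rw [← f_T, hτ, ih, f_T]
  | pred m ih =>
    have h1 : f (T (-(m : ℤ) - 1) z) = T (-(m : ℤ)) z := by
      rw [f_T, show -(m : ℤ) - 1 + 1 = -(m : ℤ) by ring]
    have h2 : f (T (-(m : ℤ) - 1) (τ z)) = T (-(m : ℤ)) (τ z) := by
      rw [f_T, show -(m : ℤ) - 1 + 1 = -(m : ℤ) by ring]
    apply f.injective
    rw [← hτ, h1, h2, ih]

/-! ### Fixed points -/

def one : X := ⟨fun _ => 1, fun _ => Or.inr norm_one, fun _ => Or.inr (one_pow 2)⟩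
def zer : X := ⟨fun _ => 0, fun _ => Or.inl rfl, fun _ => Or.inl rfl⟩

lemma f_one : f one = one := rfl
lemma f_zer : f zer = zer := rfl

lemma one_ne_zer : one ≠ zer := by
  intro h
  have h1 := congrArg (fun z : X => z.1 0) h
  exact one_ne_zero h1

lemma fixed {z : X} (hz : f z = z) (h : ∀ k, z.1 k ≠ 0) : z = one := by
  apply Subtype.ext; funext k
  have h1 : z.1 (k + 1) = z.1 k := by rw [← f_apply, hz]
  have h2 := sq_eq (h (k + 1))
  rw [h1, sq] at h2
  show z.1 k = 1
  exact mul_left_cancel₀ (h k) (by rw [h2, mul_one])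

/-! ### Surjunctivity -/

theorem surjunctive (τ : X → X) (hc : Continuous τ) (hτ : ∀ x, τ (f x) = f (τ x))
    (hi : Function.Injective τ) : Function.Surjective τ := by
  have := connected_circle
  -- some point of the circle is not sent to the solenoid
  have hB : ∃ u0 : Circle, ∃ k, (τ (psi 0 u0)).1 k = 0 := by
    by_contra hno
    push Not at hno
    have hcl : IsClosed {z : X | ∀ k, (τ z).1 k ≠ 0} := by
      have : {z : X | ∀ k, (τ z).1 k ≠ 0} = ⋂ k : ℤ, τ ⁻¹' {z : X | z.1 k ≠ 0} := by
        ext z; simp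
      rw [this]
      exact isClosed_iInter fun k => (isClopen_ne k).1.preimage hc
    have hall : ∀ z : X, ∀ k, (τ z).1 k ≠ 0 := by
      intro z
      refine eq_univ_of_closed hcl (fun m u => ?_) z
      intro k
      rw [psi_eq_T m 0, comm_T hτ, T_apply]
      exact hno u _
    have h1 : τ one = one := fixed (by rw [← hτ, f_one]) (hall _)
    have h2 : τ zer = one := fixed (by rw [← hτ, f_zer]) (hall _)
    exact one_ne_zer (hi (h1.trans h2.symm))
  obtain ⟨u0, k2, hk2⟩ := hB
  have hpre : ∀ s : Set X, IsClopen s → τ (psi 0 u0) ∈ s → ∀ u, τ (psi 0 u) ∈ s := by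
    intro s hs h0 u
    have h1 : IsClopen ((fun u => τ (psi 0 u)) ⁻¹' s) := hs.preimage (hc.comp (continuous_psi 0))
    have h2 : ((fun u => τ (psi 0 u)) ⁻¹' s) = Set.univ := h1.eq_univ ⟨u0, h0⟩
    have h3 : u ∈ ((fun u => τ (psi 0 u)) ⁻¹' s) := by rw [h2]; trivial
    exact h3
  have hC : ∃ k1, (τ (psi 0 u0)).1 k1 ≠ 0 := by
    by_contra hno
    push Not at hno
    have h1 : ∀ u, τ (psi 0 u) = zer := by
      intro u
      apply Subtype.ext; funext k
      exact hpre _ (isClopen_eq k) (hno k) u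
    have h2 : psi 0 (Circle.exp 0) = psi 0 (Circle.exp Real.pi) := hi ((h1 _).trans (h1 _).symm)
    have h3 := psi_inj 0 h2
    have h4 : ((Circle.exp 0 : Circle) : ℂ) = (Circle.exp Real.pi : Circle) := by rw [h3]
    rw [Circle.exp_zero, Circle.coe_one, Circle.coe_exp, Complex.exp_pi_mul_I] at h4
    norm_num at h4
  obtain ⟨k1, hk1⟩ := hC
  obtain ⟨m, hm⟩ := exists_mem_H hk1 hk2
  have hall : ∀ u, τ (psi 0 u) ∈ H m := hpre _ (isClopen_H m) hm
  -- the map of circles
  set g : Circle → Circle := fun u =>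
    mkC ((τ (psi 0 u)).1 m) (norm_eq_one (hall u).1) with hg
  have hgc : Continuous g :=
    Continuous.subtype_mk ((continuous_coord m).comp (hc.comp (continuous_psi 0))) _
  have hgi : Function.Injective g := by
    intro u v huv
    have h1 : (τ (psi 0 u)).1 m = (τ (psi 0 v)).1 m := congrArg (fun x : Circle => (x : ℂ)) huv
    exact psi_inj 0 (hi (eq_of_mem_H (hall u) (hall v) h1))
  have hgs := circle_surj g hgc hgi
  have hr : ∀ n v, psi n v ∈ Set.range τ := by
    intro n v
    obtain ⟨u, hu⟩ := hgs v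
    have h1 : psi m v = τ (psi 0 u) := by
      refine eq_of_mem_H (psi_mem_H m v) (hall u) ?_
      rw [psi_m, ← hu, hg]
      rfl
    refine ⟨T (m - n) (psi 0 u), ?_⟩
    rw [comm_T hτ, ← h1, ← psi_eq_T]
  have hcl : IsClosed (Set.range τ) := (isCompact_range hc).isClosed
  intro z
  exact eq_univ_of_closed hcl hr z

end Pool.Agent.H321R3.Smale
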