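import Mathlib
import Pool.Agent.H321R3.Painless

set_option autoImplicit false
open MeasureTheory Filter Topology Set

namespace Pool.Agent.H321R3.Painless

noncomputable def u0 (x t : ℝ) : ℝ :=
  Real.sin (2 * Real.pi * t) ^ 3 * Real.exp (-Real.pi * (t - x) ^ 2)

noncomputable def u1 (x t : ℝ) : ℝ :=
  (6 * Real.pi * Real.sin (2 * Real.pi * t) ^ 2 * Real.cos (2 * Real.pi * t)
    - 2 * Real.pi * (t - x) * Real.sin (2 * Real.pi * t) ^ 3) * Real.exp (-Real.pi * (t - x) ^ 2)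

noncomputable def u2 (x t : ℝ) : ℝ :=
  (24 * Real.pi ^ 2 * Real.sin (2 * Real.pi * t) * Real.cos (2 * Real.pi * t) ^ 2
    - 12 * Real.pi ^ 2 * Real.sin (2 * Real.pi * t) ^ 3
    - 2 * Real.pi * Real.sin (2 * Real.pi * t) ^ 3
    - 24 * Real.pi ^ 2 * (t - x) * Real.sin (2 * Real.pi * t) ^ 2 * Real.cos (2 * Real.pi * t)
    + 4 * Real.pi ^ 2 * (t - x) ^ 2 * Real.sin (2 * Real.pi * t) ^ 3)
    * Real.exp (-Real.pi * (t - x) ^ 2)

lemma hs (t : ℝ) : HasDerivAt (fun t => Real.sin (2 * Real.pi * t))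
    (Real.cos (2 * Real.pi * t) * (2 * Real.pi)) t := by
  have := ((hasDerivAt_id t).const_mul (2 * Real.pi)).sin
  simpa using this

lemma hc (t : ℝ) : HasDerivAt (fun t => Real.cos (2 * Real.pi * t))
    (-Real.sin (2 * Real.pi * t) * (2 * Real.pi)) t := by
  have := ((hasDerivAt_id t).const_mul (2 * Real.pi)).cos
  simpa using this

lemma hy (x t : ℝ) : HasDerivAt (fun t => t - x) 1 t := (hasDerivAt_id t).sub_const x

lemma he (x t : ℝ) : HasDerivAt (fun t => Real.exp (-Real.pi * (t - x) ^ 2))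
    (Real.exp (-Real.pi * (t - x) ^ 2) * (-2 * Real.pi * (t - x))) t := by
  have := (((hy x t).fun_pow 2).const_mul (-Real.pi)).exp
  convert this using 1
  push_cast
  ring

lemma hu0 (x t : ℝ) : HasDerivAt (u0 x) (u1 x t) t := by
  have : HasDerivAt (u0 x) _ t := ((hs t).fun_pow 3).fun_mul (he x t)
  convert this using 1
  unfold u1
  push_cast
  ring

lemma hu1 (x t : ℝ) : HasDerivAt (u1 x) (u2 x t) t := by
  have h1 := (((hs t).fun_pow 2).const_mul (6 * Real.pi)).fun_mul (hc t)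
  have h2 := ((hy x t).const_mul (2 * Real.pi)).fun_mul ((hs t).fun_pow 3)
  have : HasDerivAt (u1 x) _ t := (h1.fun_sub h2).fun_mul (he x t)
  convert this using 1
  unfold u2
  push_cast
  ring

lemma exp_bound (y : ℝ) : Real.exp (-Real.pi * y ^ 2) ≤ 1 / (1 + y ^ 2) ^ 2 := by
  have h0 : 0 ≤ y ^ 2 := sq_nonneg y
  have h1 : (1 + y ^ 2) ^ 2 ≤ Real.exp (Real.pi * y ^ 2) := by
    have h2 := Real.quadratic_le_exp_of_nonneg (x := Real.pi * y ^ 2) (by positivity)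
    have h3 : (3 : ℝ) < Real.pi := Real.pi_gt_three
    nlinarith [mul_nonneg h0 h0, mul_nonneg h0 (mul_nonneg h0 (by linarith : (0:ℝ) ≤ Real.pi - 3)),
      mul_nonneg h0 (by linarith : (0:ℝ) ≤ Real.pi - 3)]
  rw [show -Real.pi * y ^ 2 = -(Real.pi * y ^ 2) by ring, Real.exp_neg, ← one_div]
  exact one_div_le_one_div_of_le (by positivity) h1

lemma shift_bound (x t : ℝ) (ht : |t| ≤ 1/2) : 1 / (1 + (t - x) ^ 2) ≤ 2 / (1 + x ^ 2) := by
  rw [div_le_div_iff₀ (by positivity) (by positivity)]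
  have h1 : t ^ 2 ≤ 1 / 4 := by
    rw [← sq_abs]
    nlinarith [abs_nonneg t]
  nlinarith [sq_nonneg (2 * t - x)]

lemma u0_bound (x t : ℝ) (ht : |t| ≤ 1/2) : |u0 x t| ≤ 2 / (1 + x ^ 2) := by
  refine le_trans ?_ (shift_bound x t ht)
  unfold u0
  rw [abs_mul, abs_pow, abs_of_pos (Real.exp_pos _)]
  have h1 : |Real.sin (2 * Real.pi * t)| ^ 3 ≤ 1 :=
    pow_le_one₀ (abs_nonneg _) (Real.abs_sin_le_one _)
  have h2 := exp_bound (t - x)
  have h3 : 1 / (1 + (t - x) ^ 2) ^ 2 ≤ 1 / (1 + (t - x) ^ 2) := by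
    apply one_div_le_one_div_of_le (by positivity)
    nlinarith [sq_nonneg (t - x), sq_nonneg ((t - x) ^ 2)]
  calc _ ≤ 1 * Real.exp (-Real.pi * (t - x) ^ 2) :=
        mul_le_mul_of_nonneg_right h1 (Real.exp_pos _).le
    _ ≤ _ := by rw [one_mul]; exact h2.trans h3

lemma u2_bound (x t : ℝ) (ht : |t| ≤ 1/2) : |u2 x t| ≤ 1000 / (1 + x ^ 2) := by
  have hpi : Real.pi < 3.15 := Real.pi_lt_d2
  have hpi0 : 0 < Real.pi := Real.pi_pos
  have hpi2 : Real.pi ^ 2 ≤ 10 := by nlinarith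
  set y := t - x with hy
  set s := Real.sin (2 * Real.pi * t) with hs
  set c := Real.cos (2 * Real.pi * t) with hc
  have hs1 : |s| ≤ 1 := Real.abs_sin_le_one _
  have hc1 : |c| ≤ 1 := Real.abs_cos_le_one _
  have hs2 : |s| ^ 2 ≤ 1 := pow_le_one₀ (abs_nonneg _) hs1
  have hs3 : |s| ^ 3 ≤ 1 := pow_le_one₀ (abs_nonneg _) hs1
  have hc2 : |c| ^ 2 ≤ 1 := pow_le_one₀ (abs_nonneg _) hc1
  have hy1 : |y| ≤ (1 + y ^ 2) / 2 := by
    rw [← sq_abs y]
    nlinarith [sq_nonneg (|y| - 1)]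
  have hb : |24 * Real.pi ^ 2 * s * c ^ 2 - 12 * Real.pi ^ 2 * s ^ 3 - 2 * Real.pi * s ^ 3
      - 24 * Real.pi ^ 2 * y * s ^ 2 * c + 4 * Real.pi ^ 2 * y ^ 2 * s ^ 3| ≤ 500 * (1 + y ^ 2) := by
    have t1 : |24 * Real.pi ^ 2 * s * c ^ 2| ≤ 240 := by
      rw [abs_mul, abs_mul, abs_pow, abs_of_pos (by positivity : 0 < 24 * Real.pi ^ 2)]
      calc 24 * Real.pi ^ 2 * |s| * |c| ^ 2 ≤ 24 * Real.pi ^ 2 * 1 * 1 := by gcongr
        _ ≤ 240 := by linarith
    have t2 : |12 * Real.pi ^ 2 * s ^ 3| ≤ 120 := by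
      rw [abs_mul, abs_pow, abs_of_pos (by positivity : 0 < 12 * Real.pi ^ 2)]
      calc 12 * Real.pi ^ 2 * |s| ^ 3 ≤ 12 * Real.pi ^ 2 * 1 := by gcongr
        _ ≤ 120 := by linarith
    have t3 : |2 * Real.pi * s ^ 3| ≤ 7 := by
      rw [abs_mul, abs_pow, abs_of_pos (by positivity : 0 < 2 * Real.pi)]
      calc 2 * Real.pi * |s| ^ 3 ≤ 2 * Real.pi * 1 := by gcongr
        _ ≤ 7 := by linarith
    have t4 : |24 * Real.pi ^ 2 * y * s ^ 2 * c| ≤ 120 * (1 + y ^ 2) := by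
      rw [abs_mul, abs_mul, abs_mul, abs_pow, abs_of_pos (by positivity : 0 < 24 * Real.pi ^ 2)]
      calc 24 * Real.pi ^ 2 * |y| * |s| ^ 2 * |c| ≤ 24 * 10 * ((1 + y ^ 2) / 2) * 1 * 1 := by
            gcongr
        _ = _ := by ring
    have t5 : |4 * Real.pi ^ 2 * y ^ 2 * s ^ 3| ≤ 40 * y ^ 2 := by
      rw [abs_mul, abs_mul, abs_pow s, abs_of_pos (by positivity : 0 < 4 * Real.pi ^ 2),
        abs_of_nonneg (sq_nonneg y)]
      calc 4 * Real.pi ^ 2 * y ^ 2 * |s| ^ 3 ≤ 4 * 10 * y ^ 2 * 1 := by gcongr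
        _ = _ := by ring
    rw [abs_le] at *
    constructor <;> nlinarith [sq_nonneg y]
  have h2 := exp_bound y
  have h3 : |u2 x t| ≤ 500 * (1 + y ^ 2) * (1 / (1 + y ^ 2) ^ 2) := by
    unfold u2
    rw [abs_mul, abs_of_pos (Real.exp_pos _)]
    exact mul_le_mul hb h2 (Real.exp_pos _).le (by positivity)
  have h4 : 500 * (1 + y ^ 2) * (1 / (1 + y ^ 2) ^ 2) = 500 * (1 / (1 + y ^ 2)) := by
    field_simp
  rw [h4] at h3
  refine h3.trans ?_
  calc 500 * (1 / (1 + y ^ 2)) ≤ 500 * (2 / (1 + x ^ 2)) :=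
        mul_le_mul_of_nonneg_left (shift_bound x t ht) (by norm_num)
    _ = _ := by ring

noncomputable def E (w t : ℝ) : ℂ := Complex.exp (-2 * (Real.pi : ℂ) * Complex.I * (w : ℂ) * (t : ℂ))

lemma norm_E (w t : ℝ) : ‖E w t‖ = 1 := by
  unfold E
  rw [show -2 * (Real.pi : ℂ) * Complex.I * (w : ℂ) * (t : ℂ) =
    ((-2 * Real.pi * w * t : ℝ) : ℂ) * Complex.I by push_cast; ring]
  exact Complex.norm_exp_ofReal_mul_I _

lemma hE (w t : ℝ) : HasDerivAt (E w) (E w t * (-2 * (Real.pi : ℂ) * Complex.I * (w : ℂ))) t := by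
  have h1 : HasDerivAt (fun t : ℝ => -2 * (Real.pi : ℂ) * Complex.I * (w : ℂ) * (t : ℂ))
      (-2 * (Real.pi : ℂ) * Complex.I * (w : ℂ)) t := by
    have := (Complex.ofRealCLM.hasDerivAt (x := t)).const_mul (-2 * (Real.pi : ℂ) * Complex.I * (w : ℂ))
    simpa using this
  exact h1.cexp

lemma cont_E (w : ℝ) : Continuous (E w) := by
  unfold E
  fun_prop

lemma ibp (w : ℝ) (u v : ℝ → ℝ) (h : ∀ t, HasDerivAt u (v t) t) (hv : Continuous v)
    (ha : u (-(1/2)) = 0) (hb : u (1/2) = 0) :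
    (2 * (Real.pi : ℂ) * Complex.I * (w : ℂ)) * ∫ t in (-(1/2) : ℝ)..(1/2), (u t : ℂ) * E w t =
      ∫ t in (-(1/2) : ℝ)..(1/2), (v t : ℂ) * E w t := by
  have h1 := intervalIntegral.integral_mul_deriv_eq_deriv_mul (a := (-(1/2) : ℝ)) (b := 1/2)
    (u := fun t => (u t : ℂ)) (v := E w) (u' := fun t => (v t : ℂ))
    (v' := fun t => E w t * (-2 * (Real.pi : ℂ) * Complex.I * (w : ℂ)))
    (fun t _ => (h t).ofReal_comp) (fun t _ => hE w t)
    (Continuous.intervalIntegrable (by fun_prop) _ _)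
    (Continuous.intervalIntegrable (by have := cont_E w; fun_prop) _ _)
  simp only [ha, hb, Complex.ofReal_zero, zero_mul, sub_zero, zero_sub] at h1
  have h2 : ∫ t in (-(1/2) : ℝ)..(1/2), (u t : ℂ) * (E w t * (-2 * (Real.pi : ℂ) * Complex.I * (w : ℂ)))
      = -(2 * (Real.pi : ℂ) * Complex.I * (w : ℂ)) * ∫ t in (-(1/2) : ℝ)..(1/2), (u t : ℂ) * E w t := by
    rw [← intervalIntegral.integral_const_mul]
    refine intervalIntegral.integral_congr fun t _ => ?_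
    ring
  rw [h2] at h1
  have h3 := congrArg Neg.neg h1
  simpa using h3

lemma cont_u1 (x : ℝ) : Continuous (u1 x) := by unfold u1; fun_prop
lemma cont_u2 (x : ℝ) : Continuous (u2 x) := by unfold u2; fun_prop
lemma cont_u0 (x : ℝ) : Continuous (u0 x) := by unfold u0; fun_prop

lemma sin_half : Real.sin (2 * Real.pi * (1/2)) = 0 := by
  rw [show 2 * Real.pi * (1/2) = Real.pi by ring, Real.sin_pi]
lemma sin_neg_half : Real.sin (2 * Real.pi * (-(1/2))) = 0 := by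
  rw [show 2 * Real.pi * (-(1/2)) = -Real.pi by ring, Real.sin_neg, Real.sin_pi, neg_zero]

/-- the short-time Fourier transform -/
noncomputable def V (p : ℝ × ℝ) : ℂ := ∫ t : ℝ, g t
        * Complex.exp (-(Real.pi : ℂ) * (((t - p.1) ^ 2 : ℝ) : ℂ))
        * Complex.exp (-2 * (Real.pi : ℂ) * Complex.I * (p.2 : ℂ) * (t : ℂ))

lemma V_eq (x w : ℝ) : V (x, w) = ∫ t in (-(1/2) : ℝ)..(1/2), (u0 x t : ℂ) * E w t := by
  unfold V
  rw [intervalIntegral.integral_of_le (by norm_num), ← integral_indicator measurableSet_Ioc]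
  refine integral_congr_ae ?_
  have hne : ∀ᵐ t : ℝ ∂volume, t ≠ -(1/2) := by
    simp [ae_iff, measure_singleton]
  filter_upwards [hne] with t ht
  unfold Set.indicator
  by_cases h : t ∈ Ioc (-(1/2) : ℝ) (1/2)
  · rw [if_pos h]
    have h2 : |t| ≤ 1/2 := abs_le.2 ⟨by linarith [h.1], by linarith [h.2]⟩
    simp only [g, if_pos h2, u0, E]
    push_cast
    ring
  · rw [if_neg h]
    have h2 : ¬ |t| ≤ 1/2 := by
      intro h3
      rw [abs_le] at h3
      exact h ⟨lt_of_le_of_ne (by linarith [h3.1]) ht.symm, by linarith [h3.2]⟩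
    simp only [g, if_neg h2, zero_mul]

lemma norm_int_le (w : ℝ) (u : ℝ → ℝ) (K : ℝ) (h : ∀ t, |t| ≤ 1/2 → |u t| ≤ K) :
    ‖∫ t in (-(1/2) : ℝ)..(1/2), (u t : ℂ) * E w t‖ ≤ K := by
  have := intervalIntegral.norm_integral_le_of_norm_le_const (a := (-(1/2) : ℝ)) (b := 1/2)
    (f := fun t => (u t : ℂ) * E w t) (C := K) (fun t ht => by
      rw [norm_mul, norm_E, mul_one, Complex.norm_real, Real.norm_eq_abs]
      rw [Set.uIoc_of_le (by norm_num)] at ht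
      exact h t (abs_le.2 ⟨by linarith [ht.1], by linarith [ht.2]⟩))
  refine this.trans (le_of_eq ?_)
  norm_num

lemma V_bound (x w : ℝ) : ‖V (x, w)‖ ≤ 1002 * ((1 + x ^ 2)⁻¹ * (1 + w ^ 2)⁻¹) := by
  have h0 : ‖V (x, w)‖ ≤ 2 / (1 + x ^ 2) := by
    rw [V_eq]
    exact norm_int_le w _ _ (u0_bound x)
  have h1 : ‖(2 * (Real.pi : ℂ) * Complex.I * (w : ℂ)) * ((2 * (Real.pi : ℂ) * Complex.I * (w : ℂ)) *
      V (x, w))‖ ≤ 1000 / (1 + x ^ 2) := by
    rw [V_eq, ibp w (u0 x) (u1 x) (hu0 x) (cont_u1 x), ibp w (u1 x) (u2 x) (hu1 x) (cont_u2 x)]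
    · exact norm_int_le w _ _ (u2_bound x)
    · unfold u1; rw [sin_neg_half]; ring
    · unfold u1; rw [sin_half]; ring
    · unfold u0; rw [sin_neg_half]; ring
    · unfold u0; rw [sin_half]; ring
  have h2 : ‖2 * (Real.pi : ℂ) * Complex.I * (w : ℂ)‖ = 2 * Real.pi * |w| := by
    simp [abs_of_pos Real.pi_pos]
  rw [norm_mul, h2, norm_mul, h2] at h1
  have h3 : w ^ 2 * ‖V (x, w)‖ ≤ 1000 / (1 + x ^ 2) := by
    refine le_trans ?_ h1
    have : 2 * Real.pi * |w| * (2 * Real.pi * |w| * ‖V (x, w)‖) =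
      (4 * Real.pi ^ 2) * (w ^ 2 * ‖V (x, w)‖) := by
      rw [← sq_abs w]; ring
    rw [this]
    have h5 : 1 ≤ 4 * Real.pi ^ 2 := by nlinarith [Real.pi_gt_three]
    have h6 : 0 ≤ w ^ 2 * ‖V (x, w)‖ := by positivity
    nlinarith
  have h4 : (1 + w ^ 2) * ‖V (x, w)‖ ≤ 1002 * (1 + x ^ 2)⁻¹ := by
    have : (1:ℝ) / (1 + x ^ 2) = (1 + x ^ 2)⁻¹ := one_div _
    rw [div_eq_mul_inv] at h0 h3
    linarith
  have h5 : 0 < 1 + w ^ 2 := by positivity
  calc ‖V (x, w)‖ = ((1 + w ^ 2) * ‖V (x, w)‖) * (1 + w ^ 2)⁻¹ := by field_simp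
    _ ≤ (1002 * (1 + x ^ 2)⁻¹) * (1 + w ^ 2)⁻¹ := by gcongr
    _ = _ := by ring

lemma measurable_g : Measurable g := by
  rw [g_eq_indicator]
  exact (by fun_prop : Continuous (fun t : ℝ =>
    (((Real.sin (2 * Real.pi * t)) ^ 3 : ℝ) : ℂ))).measurable.indicator measurableSet_Icc

lemma integrable_V : Integrable V (volume : Measure (ℝ × ℝ)) := by
  have hb : Integrable (fun p : ℝ × ℝ => 1002 * ((1 + p.1 ^ 2)⁻¹ * (1 + p.2 ^ 2)⁻¹))
      (volume : Measure (ℝ × ℝ)) := by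
    rw [Measure.volume_eq_prod]
    exact (Integrable.mul_prod integrable_inv_one_add_sq integrable_inv_one_add_sq).const_mul _
  refine hb.mono' ?_ (ae_of_all _ fun p => V_bound p.1 p.2)
  have h : StronglyMeasurable (Function.uncurry (fun (p : ℝ × ℝ) (t : ℝ) => g t
        * Complex.exp (-(Real.pi : ℂ) * (((t - p.1) ^ 2 : ℝ) : ℂ))
        * Complex.exp (-2 * (Real.pi : ℂ) * Complex.I * (p.2 : ℂ) * (t : ℂ)))) := by
    apply Measurable.stronglyMeasurable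
    unfold Function.uncurry
    have := measurable_g
    fun_prop
  exact (h.integral_prod_right).aestronglyMeasurable

end Pool.Agent.H321R3.Painless
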