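import Mathlib
import Pool.Agent.H321R3.FSpace
import Pool.Agent.H321R3.PSeries

set_option autoImplicit false
set_option linter.unusedSectionVars false
open Filter Topology Set TopologicalSpace

namespace Pool.Agent.H321R3.UT

open MvPowerSeries Pool.Agent.H321R3.FS

variable {k : ℕ} {A : Subalgebra ℂ (MvPowerSeries (Fin k) ℂ)} [TopologicalSpace A]
  [IsTopologicalRing A] [ContinuousSMul ℂ A] [IsCompletelyMetrizableSpace A]
  {B : Type} [CommRing B] [Algebra ℂ B] [TopologicalSpace B] [IsTopologicalRing B]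
  [ContinuousSMul ℂ B] [IsCompletelyMetrizableSpace B]

/-- the separating space of `φ` -/
def Sep (φ : B ≃ₐ[ℂ] A) : Set A := {s | ∀ U ∈ 𝓝 (0 : B), ∀ V ∈ 𝓝 (0 : A), ∃ b ∈ U, φ b - s ∈ V}

/-- monomials in `A` -/
noncomputable def XA (hpoly : ∀ p : MvPolynomial (Fin k) ℂ, (p : MvPowerSeries (Fin k) ℂ) ∈ A)
    (J : Fin k →₀ ℕ) : A :=
  ⟨monomial J (1 : ℂ), by rw [← MvPolynomial.coe_monomial]; exact hpoly _⟩

lemma coe_XA (hpoly : ∀ p : MvPolynomial (Fin k) ℂ, (p : MvPowerSeries (Fin k) ℂ) ∈ A)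
    (J : Fin k →₀ ℕ) : ((XA hpoly J : A) : MvPowerSeries (Fin k) ℂ) = monomial J (1 : ℂ) := rfl

lemma XA_add (hpoly : ∀ p : MvPolynomial (Fin k) ℂ, (p : MvPowerSeries (Fin k) ℂ) ∈ A)
    (J L : Fin k →₀ ℕ) : XA hpoly J * XA hpoly L = XA hpoly (J + L) := by
  apply Subtype.ext
  show monomial J (1 : ℂ) * monomial L (1 : ℂ) = monomial (J + L) (1 : ℂ)
  rw [monomial_mul_monomial, mul_one]

/-- monomials in `B` -/
noncomputable def XB (hpoly : ∀ p : MvPolynomial (Fin k) ℂ, (p : MvPowerSeries (Fin k) ℂ) ∈ A)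
    (φ : B ≃ₐ[ℂ] A) (J : Fin k →₀ ℕ) : B := φ.symm (XA hpoly J)

lemma XB_add (hpoly : ∀ p : MvPolynomial (Fin k) ℂ, (p : MvPowerSeries (Fin k) ℂ) ∈ A)
    (φ : B ≃ₐ[ℂ] A) (J L : Fin k →₀ ℕ) :
    XB hpoly φ J * XB hpoly φ L = XB hpoly φ (J + L) := by
  unfold XB
  rw [← map_mul, XA_add]

lemma φ_XB (hpoly : ∀ p : MvPolynomial (Fin k) ℂ, (p : MvPowerSeries (Fin k) ℂ) ∈ A)
    (φ : B ≃ₐ[ℂ] A) (J : Fin k →₀ ℕ) : φ (XB hpoly φ J) = XA hpoly J := by
  unfold XB
  exact φ.apply_symm_apply _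

lemma coeff_XB_mul (hpoly : ∀ p : MvPolynomial (Fin k) ℂ, (p : MvPowerSeries (Fin k) ℂ) ∈ A)
    (φ : B ≃ₐ[ℂ] A) {J K : Fin k →₀ ℕ} (h : ¬ J ≤ K) (z : B) :
    coeff K ((φ (XB hpoly φ J * z) : A) : MvPowerSeries (Fin k) ℂ) = 0 := by
  rw [map_mul, φ_XB]
  show coeff K (monomial J (1 : ℂ) * ((φ z : A) : MvPowerSeries (Fin k) ℂ)) = 0
  rw [coeff_monomial_mul, if_neg h]

/-- the key claim: `h s` is a difference of a small element of `B` and a small element of `A` -/
theorem key (hpoly : ∀ p : MvPolynomial (Fin k) ℂ, (p : MvPowerSeries (Fin k) ℂ) ∈ A)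
    (hcoeff : ∀ n : Fin k →₀ ℕ,
      Continuous (fun a : A => coeff n (a : MvPowerSeries (Fin k) ℂ)))
    (φ : B ≃ₐ[ℂ] A) (h : MvPowerSeries (Fin k) ℂ) (s : A) (hs : s ∈ Sep φ)
    (U : Set B) (hU : U ∈ 𝓝 (0 : B)) (V : Set A) (hV : V ∈ 𝓝 (0 : A)) :
    ∃ b ∈ U, ∃ a ∈ V, ((φ b : A) : MvPowerSeries (Fin k) ℂ) - (a : MvPowerSeries (Fin k) ℂ) =
      h * s := by
  classical
  obtain ⟨e, he⟩ := Countable.exists_injective_nat (Fin k →₀ ℕ)
  set F : ℕ → Finset (Fin k →₀ ℕ) := fun n => (Finset.range n).preimage e he.injOn with hFdef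
  have hF : ∀ n J, J ∈ F n ↔ e J < n := by
    intro n J
    rw [hFdef]
    simp
  obtain ⟨VB, hVB, hVB2, hVBU⟩ := exists_basis hU
  obtain ⟨VA, hVA, hVA2, hVAV⟩ := exists_basis hV
  have hVBm : ∀ n, VB n ∈ 𝓝 (0 : B) := fun n => hVB.1.mem_of_mem trivial
  have hVAm : ∀ n, VA n ∈ 𝓝 (0 : A) := fun n => hVA.1.mem_of_mem trivial
  -- choice of the `b J`
  have hex : ∀ J : Fin k →₀ ℕ, ∃ b : B,
      (∀ J' ≤ J, coeff J h • (XB hpoly φ J' * b) ∈ VB (e J + 1)) ∧
      (∀ J' ≤ J, coeff J h • (XA hpoly J' * (φ b - s)) ∈ VA (e J + 1)) := by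
    intro J
    have hP : (⋂ J' ∈ D J, {b : B | coeff J h • (XB hpoly φ J' * b) ∈ VB (e J + 1)}) ∈
        𝓝 (0 : B) := by
      rw [Filter.biInter_finset_mem]
      intro J' _
      have h1 : Continuous fun b : B => coeff J h • (XB hpoly φ J' * b) := by fun_prop
      have h2 := h1.tendsto 0
      rw [mul_zero, smul_zero] at h2
      exact h2 (hVBm _)
    have hQ : (⋂ J' ∈ D J, {a : A | coeff J h • (XA hpoly J' * a) ∈ VA (e J + 1)}) ∈
        𝓝 (0 : A) := by
      rw [Filter.biInter_finset_mem]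
      intro J' _
      have h1 : Continuous fun a : A => coeff J h • (XA hpoly J' * a) := by fun_prop
      have h2 := h1.tendsto 0
      rw [mul_zero, smul_zero] at h2
      exact h2 (hVAm _)
    obtain ⟨b, hb1, hb2⟩ := hs _ hP _ hQ
    refine ⟨b, fun J' hJ' => ?_, fun J' hJ' => ?_⟩
    · have := Set.mem_iInter₂.1 hb1 J' (mem_D.2 hJ')
      exact this
    · have := Set.mem_iInter₂.1 hb2 J' (mem_D.2 hJ')
      exact this
  choose b hb1 hb2 using hex
  obtain ⟨β, hβU, hβ⟩ := seq_small hVB hVB2 e he F hF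
    (fun J => coeff J h • (XB hpoly φ J * b J)) (fun J => hb1 J J le_rfl)
  obtain ⟨α, hαV, hα⟩ := seq_small hVA hVA2 e he F hF
    (fun J => coeff J h • (XA hpoly J * (φ (b J) - s))) (fun J => hb2 J J le_rfl)
  refine ⟨β, hVBU hβU, α, hVAV hαV, ?_⟩
  ext K
  -- the index from which on `F n` contains `D K`
  set N : ℕ := (D K).sup e + 1 with hN
  have hDF : ∀ n ≥ N, D K ⊆ F n := by
    intro n hn J hJ
    rw [hF]
    have := Finset.le_sup (f := e) hJ
    omega
  have hfil : ∀ {G : Type} [AddCommMonoid G] (n : ℕ), n ≥ N → ∀ f : (Fin k →₀ ℕ) → G,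
      ∑ J ∈ F n, (if J ≤ K then f J else 0) = ∑ J ∈ D K, f J := by
    intro G _ n hn f
    rw [← Finset.sum_filter]
    refine Finset.sum_congr ?_ fun _ _ => rfl
    ext J
    rw [Finset.mem_filter, mem_D]
    exact ⟨fun hh => hh.2, fun hh => ⟨hDF n hn (mem_D.2 hh), hh⟩⟩
  -- the tails
  have hz : ∀ i : Fin k, ∃ z : B, Tendsto (fun n => ∑ J ∈ F n, (if sel K i J then
      coeff J h • (XB hpoly φ (J - Finsupp.single i (K i + 1)) * b J) else 0)) atTop (𝓝 z) := by
    intro i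
    obtain ⟨z, -, hz⟩ := seq_small hVB hVB2 e he F hF (fun J => if sel K i J then
      coeff J h • (XB hpoly φ (J - Finsupp.single i (K i + 1)) * b J) else 0) (fun J => by
        show (if sel K i J then
          coeff J h • (XB hpoly φ (J - Finsupp.single i (K i + 1)) * b J) else 0) ∈ _
        split_ifs
        · exact hb1 J _ tsub_le_self
        · exact mem_of_mem_nhds (hVBm _))
    exact ⟨z, hz⟩
  choose z hz using hz
  have hid : ∀ n ≥ N, ∑ J ∈ F n, coeff J h • (XB hpoly φ J * b J) =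
      ∑ J ∈ D K, coeff J h • (XB hpoly φ J * b J) +
      ∑ i, XB hpoly φ (Finsupp.single i (K i + 1)) * ∑ J ∈ F n, (if sel K i J then
      coeff J h • (XB hpoly φ (J - Finsupp.single i (K i + 1)) * b J) else 0) := by
    intro n hn
    have e1 : ∑ J ∈ F n, coeff J h • (XB hpoly φ J * b J) =
        ∑ J ∈ F n, ((if J ≤ K then coeff J h • (XB hpoly φ J * b J) else 0) +
          ∑ i, (if sel K i J then coeff J h • (XB hpoly φ J * b J) else 0)) :=
      Finset.sum_congr rfl fun J _ => (partition K J _).symm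
    rw [e1, Finset.sum_add_distrib, hfil n hn, Finset.sum_comm]
    congr 1
    refine Finset.sum_congr rfl fun i _ => ?_
    rw [Finset.mul_sum]
    refine Finset.sum_congr rfl fun J _ => ?_
    split_ifs with hsel
    · rw [mul_smul_comm, ← mul_assoc, XB_add, add_tsub_cancel_of_le (single_le_of_sel hsel)]
    · rw [mul_zero]
  have hβeq : β = ∑ J ∈ D K, coeff J h • (XB hpoly φ J * b J) +
      ∑ i, XB hpoly φ (Finsupp.single i (K i + 1)) * z i := by
    have h1 : Tendsto (fun n => ∑ J ∈ D K, coeff J h • (XB hpoly φ J * b J) +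
      ∑ i, XB hpoly φ (Finsupp.single i (K i + 1)) * ∑ J ∈ F n, (if sel K i J then
      coeff J h • (XB hpoly φ (J - Finsupp.single i (K i + 1)) * b J) else 0)) atTop
      (𝓝 (∑ J ∈ D K, coeff J h • (XB hpoly φ J * b J) +
      ∑ i, XB hpoly φ (Finsupp.single i (K i + 1)) * z i)) := by
      refine tendsto_const_nhds.add (tendsto_finsetSum _ fun i _ => ?_)
      exact (hz i).const_mul _
    refine tendsto_nhds_unique hβ (h1.congr' ?_)
    filter_upwards [eventually_ge_atTop N] with n hn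
    exact (hid n hn).symm
  have hβK : coeff K ((φ β : A) : MvPowerSeries (Fin k) ℂ) =
      ∑ J ∈ D K, coeff J h * coeff K (monomial J (1 : ℂ) * ((φ (b J) : A) : MvPowerSeries (Fin k) ℂ)) := by
    rw [hβeq, map_add, map_sum, map_sum]
    rw [Subalgebra.coe_add, map_add, AddSubmonoidClass.coe_finsetSum,
      AddSubmonoidClass.coe_finsetSum, map_sum, map_sum]
    have e2 : ∑ i : Fin k, coeff K ((φ (XB hpoly φ (Finsupp.single i (K i + 1)) * z i) : A) :
        MvPowerSeries (Fin k) ℂ) = 0 :=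
      Finset.sum_eq_zero fun i _ => coeff_XB_mul hpoly φ (not_single_le K i) _
    rw [e2, add_zero]
    refine Finset.sum_congr rfl fun J _ => ?_
    rw [map_smul, map_mul, φ_XB]
    show coeff K (coeff J h • (monomial J (1 : ℂ) * ((φ (b J) : A) : MvPowerSeries (Fin k) ℂ))) = _
    rw [map_smul, smul_eq_mul]
  have hαK : coeff K ((α : A) : MvPowerSeries (Fin k) ℂ) =
      ∑ J ∈ D K, coeff J h * coeff K (monomial J (1 : ℂ) *
        (((φ (b J) : A) : MvPowerSeries (Fin k) ℂ) - ((s : A) : MvPowerSeries (Fin k) ℂ))) := by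
    have h1 := ((hcoeff K).tendsto α).comp hα
    refine tendsto_nhds_unique h1 (tendsto_const_nhds.congr' ?_)
    filter_upwards [eventually_ge_atTop N] with n hn
    rw [Function.comp, AddSubmonoidClass.coe_finsetSum, map_sum, ← hfil n hn]
    refine Finset.sum_congr rfl fun J _ => ?_
    show _ = coeff K (coeff J h • (monomial J (1 : ℂ) *
      (((φ (b J) : A) : MvPowerSeries (Fin k) ℂ) - ((s : A) : MvPowerSeries (Fin k) ℂ))))
    rw [map_smul, smul_eq_mul]
    split_ifs with hJ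
    · rfl
    · rw [coeff_monomial_mul, if_neg hJ, mul_zero]
  rw [map_sub, hβK, hαK, coeff_mul_eq h s K, ← Finset.sum_sub_distrib]
  refine Finset.sum_congr rfl fun J _ => ?_
  rw [← mul_sub, ← map_sub, ← mul_sub, sub_sub_cancel]

end Pool.Agent.H321R3.UT
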