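import Mathlib
import Pool.Agent.H321R3.UniqA

set_option autoImplicit false
set_option linter.unusedSectionVars false
open Filter Topology Set TopologicalSpace

namespace Pool.Agent.H321R3.UT

open MvPowerSeries Pool.Agent.H321R3.FS

variable {k : ℕ} {A : Subalgebra ℂ (MvPowerSeries (Fin k) ℂ)} [TopologicalSpace A]
  [IsTopologicalRing A] [ContinuousSMul ℂ A] [IsCompletelyMetrizableSpace A]
  {B : Type} [CommRing B] [Algebra ℂ B] [TopologicalSpace B] [IsTopologicalRing B]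
  [ContinuousSMul ℂ B] [IsCompletelyMetrizableSpace B]

lemma Sep_zero (φ : B ≃ₐ[ℂ] A) : (0 : A) ∈ Sep φ := by
  intro U hU V hV
  refine ⟨0, mem_of_mem_nhds hU, ?_⟩
  rw [map_zero, sub_zero]
  exact mem_of_mem_nhds hV

lemma Sep_add (φ : B ≃ₐ[ℂ] A) {s t : A} (hs : s ∈ Sep φ) (ht : t ∈ Sep φ) : s + t ∈ Sep φ := by
  intro U hU V hV
  obtain ⟨U', hU', hU2⟩ := exists_add_nhds hU
  obtain ⟨V', hV', hV2⟩ := exists_add_nhds hV
  obtain ⟨b, hb, hb2⟩ := hs U' hU' V' hV'
  obtain ⟨c, hc, hc2⟩ := ht U' hU' V' hV'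
  refine ⟨b + c, hU2 b hb c hc, ?_⟩
  have := hV2 _ hb2 _ hc2
  rwa [show φ b - s + (φ c - t) = φ (b + c) - (s + t) by rw [map_add]; ring] at this

/-- the separating space as an ideal of the algebra of all power series -/
def SepI (hpoly : ∀ p : MvPolynomial (Fin k) ℂ, (p : MvPowerSeries (Fin k) ℂ) ∈ A)
    (hcoeff : ∀ n : Fin k →₀ ℕ,
      Continuous (fun a : A => coeff n (a : MvPowerSeries (Fin k) ℂ)))
    (φ : B ≃ₐ[ℂ] A) : Ideal (MvPowerSeries (Fin k) ℂ) where
  carrier := {f | ∃ h : f ∈ A, (⟨f, h⟩ : A) ∈ Sep φ}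
  add_mem' := by
    rintro f g ⟨hf, hf2⟩ ⟨hg, hg2⟩
    exact ⟨A.add_mem hf hg, Sep_add φ hf2 hg2⟩
  zero_mem' := ⟨A.zero_mem, Sep_zero φ⟩
  smul_mem' := by
    rintro h f ⟨hf, hf2⟩
    have hA : h * f ∈ A := by
      obtain ⟨b, -, a, -, hab⟩ := key hpoly hcoeff φ h ⟨f, hf⟩ hf2 univ univ_mem univ univ_mem
      have hab' : ((φ b : A) : MvPowerSeries (Fin k) ℂ) - (a : MvPowerSeries (Fin k) ℂ) =
        h * f := hab
      rw [← hab']
      exact A.sub_mem (φ b).2 a.2
    refine ⟨hA, fun U hU V hV => ?_⟩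
    obtain ⟨b, hb, a, ha, hab⟩ := key hpoly hcoeff φ h ⟨f, hf⟩ hf2 U hU V hV
    refine ⟨b, hb, ?_⟩
    have hab' : ((φ b : A) : MvPowerSeries (Fin k) ℂ) - (a : MvPowerSeries (Fin k) ℂ) =
      h * f := hab
    have : φ b - ⟨h * f, hA⟩ = a := by
      apply Subtype.ext
      show ((φ b : A) : MvPowerSeries (Fin k) ℂ) - h * f = a
      rw [← hab', sub_sub_cancel]
    show φ b - ⟨h * f, hA⟩ ∈ V
    rwa [this]

/-- the preimage of the separating space in `B` -/
def SepB (hpoly : ∀ p : MvPolynomial (Fin k) ℂ, (p : MvPowerSeries (Fin k) ℂ) ∈ A)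
    (hcoeff : ∀ n : Fin k →₀ ℕ,
      Continuous (fun a : A => coeff n (a : MvPowerSeries (Fin k) ℂ)))
    (φ : B ≃ₐ[ℂ] A) : Submodule ℂ B where
  carrier := {b | ((φ b : A) : MvPowerSeries (Fin k) ℂ) ∈ SepI hpoly hcoeff φ}
  add_mem' := by
    intro a b ha hb
    show ((φ (a + b) : A) : MvPowerSeries (Fin k) ℂ) ∈ SepI hpoly hcoeff φ
    rw [map_add]
    exact (SepI hpoly hcoeff φ).add_mem ha hb
  zero_mem' := by
    show ((φ 0 : A) : MvPowerSeries (Fin k) ℂ) ∈ SepI hpoly hcoeff φ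
    rw [map_zero]
    exact (SepI hpoly hcoeff φ).zero_mem
  smul_mem' := by
    intro c b hb
    show ((φ (c • b) : A) : MvPowerSeries (Fin k) ℂ) ∈ SepI hpoly hcoeff φ
    rw [map_smul]
    exact Submodule.smul_of_tower_mem (SepI hpoly hcoeff φ) c hb

variable (hpoly : ∀ p : MvPolynomial (Fin k) ℂ, (p : MvPowerSeries (Fin k) ℂ) ∈ A)
    (hcoeff : ∀ n : Fin k →₀ ℕ,
      Continuous (fun a : A => coeff n (a : MvPowerSeries (Fin k) ℂ)))
    (φ : B ≃ₐ[ℂ] A)

lemma mem_SepI {s : A} : ((s : A) : MvPowerSeries (Fin k) ℂ) ∈ SepI hpoly hcoeff φ ↔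
    s ∈ Sep φ := ⟨fun ⟨_, h⟩ => h, fun h => ⟨s.2, h⟩⟩

lemma mem_SepB {b : B} : b ∈ SepB hpoly hcoeff φ ↔
    ((φ b : A) : MvPowerSeries (Fin k) ℂ) ∈ SepI hpoly hcoeff φ := Iff.rfl

lemma mem_SepB' {b : B} : b ∈ SepB hpoly hcoeff φ ↔ φ b ∈ Sep φ := mem_SepI hpoly hcoeff φ

lemma mul_mem_SepB (a : B) {b : B} (hb : b ∈ SepB hpoly hcoeff φ) :
    a * b ∈ SepB hpoly hcoeff φ := by
  rw [mem_SepB] at *
  rw [map_mul]
  exact Ideal.mul_mem_left _ _ hb

lemma isClosed_SepB : IsClosed (SepB hpoly hcoeff φ : Set B) := by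
  rw [← closure_subset_iff_isClosed]
  intro b hb
  rw [SetLike.mem_coe, mem_SepB']
  intro U hU V hV
  obtain ⟨U', hU', hU2⟩ := exists_add_nhds hU
  have h1 : {c | b - c ∈ U'} ∈ 𝓝 b := tendsto_sub_left b hU'
  obtain ⟨c, hc1, hc2⟩ := mem_closure_iff_nhds.1 hb _ h1
  rw [SetLike.mem_coe, mem_SepB'] at hc2
  obtain ⟨d, hd, hd2⟩ := hc2 U' hU' V hV
  refine ⟨b - c + d, hU2 _ hc1 _ hd, ?_⟩
  have : φ (b - c + d) - φ b = φ d - φ c := by
    rw [map_add, map_sub]; ring
  rwa [this]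

instance : IsCompletelyMetrizableSpace (SepB hpoly hcoeff φ) :=
  (isClosed_SepB hpoly hcoeff φ).isCompletelyMetrizableSpace

/-- coefficients are continuous on the preimage of the separating space -/
theorem continuous_coeff_SepB (K : Fin k →₀ ℕ) :
    Continuous (fun b : SepB hpoly hcoeff φ =>
      coeff K ((φ (b : B) : A) : MvPowerSeries (Fin k) ℂ)) := by
  classical
  obtain ⟨n, s, hs⟩ := Submodule.fg_iff_exists_fin_generating_family.1
    (IsNoetherian.noetherian (SepI hpoly hcoeff φ))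
  have hsI : ∀ j, s j ∈ SepI hpoly hcoeff φ := fun j => by
    rw [← hs]; exact Submodule.subset_span ⟨j, rfl⟩
  set σ : Fin n → B := fun j => φ.symm ⟨s j, (hsI j).1⟩ with hσ
  have hφσ : ∀ j, ((φ (σ j) : A) : MvPowerSeries (Fin k) ℂ) = s j := by
    intro j
    rw [hσ]
    show ((φ (φ.symm ⟨s j, (hsI j).1⟩) : A) : MvPowerSeries (Fin k) ℂ) = s j
    rw [φ.apply_symm_apply]
  have hσB : ∀ j, σ j ∈ SepB hpoly hcoeff φ := by
    intro j
    rw [mem_SepB, hφσ]
    exact hsI j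
  let T0 : ((Fin k → SepB hpoly hcoeff φ) × ((D K × Fin n) → ℂ)) →ₗ[ℂ] B :=
    { toFun := fun p => ∑ i, XB hpoly φ (Finsupp.single i (K i + 1)) * (p.1 i : B) +
        ∑ q : D K × Fin n, p.2 q • (XB hpoly φ q.1 * σ q.2)
      map_add' := by
        intro p p'
        simp only [Prod.fst_add, Prod.snd_add, Pi.add_apply, Submodule.coe_add, mul_add, add_smul,
          Finset.sum_add_distrib]
        abel
      map_smul' := by
        intro c p
        simp only [Prod.smul_fst, Prod.smul_snd, Pi.smul_apply, Submodule.coe_smul, mul_smul_comm,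
          smul_assoc, ← Finset.smul_sum, RingHom.id_apply, smul_add] }
  have hT0 : ∀ p, T0 p ∈ SepB hpoly hcoeff φ := by
    intro p
    refine (SepB hpoly hcoeff φ).add_mem ?_ ?_
    · exact (SepB hpoly hcoeff φ).sum_mem fun i _ => mul_mem_SepB hpoly hcoeff φ _ (p.1 i).2
    · exact (SepB hpoly hcoeff φ).sum_mem fun q _ => (SepB hpoly hcoeff φ).smul_mem _
        (mul_mem_SepB hpoly hcoeff φ _ (hσB _))
  let T := T0.codRestrict (SepB hpoly hcoeff φ) hT0
  have hTc : Continuous T := by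
    refine Continuous.subtype_mk ?_ _
    show Continuous fun p : ((Fin k → SepB hpoly hcoeff φ) × ((D K × Fin n) → ℂ)) =>
      ∑ i, XB hpoly φ (Finsupp.single i (K i + 1)) * (p.1 i : B) +
        ∑ q : D K × Fin n, p.2 q • (XB hpoly φ q.1 * σ q.2)
    fun_prop
  have hTs : Function.Surjective T := by
    rintro ⟨b, hb⟩
    have hb' := (mem_SepB hpoly hcoeff φ).1 hb
    rw [← hs] at hb'
    obtain ⟨g, hg⟩ := Ideal.mem_span_range_iff_exists_fun.1 hb'
    choose q hq using fun j => division (g j) K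
    have hzI : ∀ i, ∑ j, q j i * s j ∈ SepI hpoly hcoeff φ := fun i =>
      Ideal.sum_mem _ fun j _ => Ideal.mul_mem_left _ _ (hsI j)
    have hφz : ∀ i, ((φ (φ.symm ⟨∑ j, q j i * s j, (hzI i).1⟩) : A) :
        MvPowerSeries (Fin k) ℂ) = ∑ j, q j i * s j := by
      intro i
      rw [φ.apply_symm_apply]
    refine ⟨(fun i => ⟨φ.symm ⟨∑ j, q j i * s j, (hzI i).1⟩, ?_⟩,
      fun p => coeff (p.1 : Fin k →₀ ℕ) (g p.2)), ?_⟩
    · rw [mem_SepB, hφz]
      exact hzI i
    · apply Subtype.ext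
      apply φ.injective
      apply Subtype.ext
      show ((φ (∑ i, XB hpoly φ (Finsupp.single i (K i + 1)) *
        (φ.symm ⟨∑ j, q j i * s j, (hzI i).1⟩ : B) +
        ∑ p : D K × Fin n, coeff (p.1 : Fin k →₀ ℕ) (g p.2) • (XB hpoly φ p.1 * σ p.2)) : A) :
          MvPowerSeries (Fin k) ℂ) = _
      rw [← hg, map_add, map_sum, map_sum, Subalgebra.coe_add, AddSubmonoidClass.coe_finsetSum,
        AddSubmonoidClass.coe_finsetSum]
      have e1 : ∀ i, ((φ (XB hpoly φ (Finsupp.single i (K i + 1)) *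
          (φ.symm ⟨∑ j, q j i * s j, (hzI i).1⟩ : B)) : A) : MvPowerSeries (Fin k) ℂ) =
          monomial (Finsupp.single i (K i + 1)) (1 : ℂ) * ∑ j, q j i * s j := by
        intro i
        rw [map_mul, φ_XB, φ.apply_symm_apply]
        rfl
      have e2 : ∀ p : D K × Fin n, ((φ (coeff (p.1 : Fin k →₀ ℕ) (g p.2) •
          (XB hpoly φ p.1 * σ p.2)) : A) : MvPowerSeries (Fin k) ℂ) =
          monomial (p.1 : Fin k →₀ ℕ) (coeff (p.1 : Fin k →₀ ℕ) (g p.2)) * s p.2 := by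
        intro p
        rw [map_smul, map_mul, φ_XB, ← hφσ p.2]
        show coeff (p.1 : Fin k →₀ ℕ) (g p.2) • (monomial (p.1 : Fin k →₀ ℕ) (1 : ℂ) *
          ((φ (σ p.2) : A) : MvPowerSeries (Fin k) ℂ)) = _
        rw [← smul_mul_assoc, ← map_smul, smul_eq_mul, mul_one]
      simp only [e1, e2]
      rw [Fintype.sum_prod_type, Finset.sum_comm (s := (Finset.univ : Finset (D K)))]
      have e3 : ∀ j, g j * s j = (∑ J ∈ D K, monomial J (coeff J (g j))) * s j +
          (∑ i, monomial (Finsupp.single i (K i + 1)) (1 : ℂ) * q j i) * s j := by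
        intro j
        rw [← add_mul]
        congr 1
        exact hq j
      simp only [e3]
      rw [Finset.sum_add_distrib, add_comm]
      congr 1
      · refine Finset.sum_congr rfl fun j _ => ?_
        rw [Finset.sum_mul]
        exact Finset.sum_coe_sort (D K) (fun J => monomial J (coeff J (g j)) * s j)
      · simp only [Finset.mul_sum, Finset.sum_mul]
        rw [Finset.sum_comm]
        refine Finset.sum_congr rfl fun j _ => Finset.sum_congr rfl fun i _ => ?_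
        rw [mul_assoc]
  have hTo : IsOpenMap T := open_mapping T hTc hTs
  have hTq : IsQuotientMap T := hTo.isQuotientMap hTc hTs
  rw [hTq.continuous_iff]
  have e4 : ((fun b : SepB hpoly hcoeff φ =>
      coeff K ((φ (b : B) : A) : MvPowerSeries (Fin k) ℂ)) ∘ T) =
      fun p : ((Fin k → SepB hpoly hcoeff φ) × ((D K × Fin n) → ℂ)) =>
        ∑ q : D K × Fin n, p.2 q *
          coeff K ((φ (XB hpoly φ q.1 * σ q.2) : A) : MvPowerSeries (Fin k) ℂ) := by
    funext p
    show coeff K ((φ (∑ i, XB hpoly φ (Finsupp.single i (K i + 1)) * (p.1 i : B) +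
        ∑ q : D K × Fin n, p.2 q • (XB hpoly φ q.1 * σ q.2)) : A) :
          MvPowerSeries (Fin k) ℂ) = _
    rw [map_add, map_sum, map_sum, Subalgebra.coe_add, map_add, AddSubmonoidClass.coe_finsetSum,
      AddSubmonoidClass.coe_finsetSum, map_sum, map_sum]
    have e5 : ∑ i : Fin k, coeff K ((φ (XB hpoly φ (Finsupp.single i (K i + 1)) *
        (p.1 i : B)) : A) : MvPowerSeries (Fin k) ℂ) = 0 :=
      Finset.sum_eq_zero fun i _ => coeff_XB_mul hpoly φ (not_single_le K i) _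
    rw [e5, zero_add]
    refine Finset.sum_congr rfl fun q _ => ?_
    rw [map_smul]
    show coeff K (p.2 q • ((φ (XB hpoly φ q.1 * σ q.2) : A) : MvPowerSeries (Fin k) ℂ)) = _
    rw [map_smul, smul_eq_mul]
  rw [e4]
  fun_prop

include hpoly hcoeff in
/-- the square of an element of the separating space vanishes -/
theorem sq_eq_zero {s : A} (hs : s ∈ Sep φ) :
    ((s : A) : MvPowerSeries (Fin k) ℂ) * ((s : A) : MvPowerSeries (Fin k) ℂ) = 0 := by
  ext K
  rw [map_zero]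
  have hsB : φ.symm s ∈ SepB hpoly hcoeff φ := by
    rw [mem_SepB', φ.apply_symm_apply]
    exact hs
  have h1 : Continuous fun b : B => coeff K (((φ b : A) : MvPowerSeries (Fin k) ℂ) * ((s : A) : MvPowerSeries (Fin k) ℂ)) := by
    have h2 : Continuous fun b : B => (⟨b * φ.symm s, mul_mem_SepB hpoly hcoeff φ b hsB⟩ :
        SepB hpoly hcoeff φ) := by
      refine Continuous.subtype_mk ?_ _
      fun_prop
    have h3 := (continuous_coeff_SepB hpoly hcoeff φ K).comp h2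
    refine h3.congr fun b => ?_
    show coeff K ((φ (b * φ.symm s) : A) : MvPowerSeries (Fin k) ℂ) = _
    rw [map_mul, φ.apply_symm_apply]
    rfl
  have h2 : Continuous fun a : A => coeff K (((a : A) : MvPowerSeries (Fin k) ℂ) * ((s : A) : MvPowerSeries (Fin k) ℂ)) := by
    have h3 : Continuous fun a : A => a * s := by fun_prop
    refine ((hcoeff K).comp h3).congr fun a => ?_
    rw [Function.comp, Subalgebra.coe_mul]
  by_contra hne
  have hpos : 0 < ‖coeff K (((s : A) : MvPowerSeries (Fin k) ℂ) * ((s : A) : MvPowerSeries (Fin k) ℂ))‖ / 2 :=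
    half_pos (norm_pos_iff.2 hne)
  have hU := h1.tendsto 0 (Metric.ball_mem_nhds _ hpos)
  have hV := h2.tendsto 0 (Metric.ball_mem_nhds _ hpos)
  obtain ⟨b, hb1, hb2⟩ := hs _ hU _ hV
  have hb1' : ‖coeff K (((φ b : A) : MvPowerSeries (Fin k) ℂ) * ((s : A) : MvPowerSeries (Fin k) ℂ)) -
      coeff K (((φ 0 : A) : MvPowerSeries (Fin k) ℂ) * ((s : A) : MvPowerSeries (Fin k) ℂ))‖ <
      ‖coeff K (((s : A) : MvPowerSeries (Fin k) ℂ) * ((s : A) : MvPowerSeries (Fin k) ℂ))‖ / 2 := by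
    rw [← dist_eq_norm]; exact hb1
  have hb2' : ‖coeff K ((((φ b - s : A)) : MvPowerSeries (Fin k) ℂ) * ((s : A) : MvPowerSeries (Fin k) ℂ)) -
      coeff K (((0 : A) : MvPowerSeries (Fin k) ℂ) * ((s : A) : MvPowerSeries (Fin k) ℂ))‖ <
      ‖coeff K (((s : A) : MvPowerSeries (Fin k) ℂ) * ((s : A) : MvPowerSeries (Fin k) ℂ))‖ / 2 := by
    rw [← dist_eq_norm]; exact hb2
  rw [map_zero, Subalgebra.coe_zero, zero_mul, map_zero, sub_zero] at hb1'
  rw [Subalgebra.coe_zero, zero_mul, map_zero, sub_zero, Subalgebra.coe_sub, sub_mul, map_sub]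
    at hb2'
  have h5 := norm_sub_norm_le (coeff K (((s : A) : MvPowerSeries (Fin k) ℂ) * ((s : A) : MvPowerSeries (Fin k) ℂ)))
    (coeff K (((φ b : A) : MvPowerSeries (Fin k) ℂ) * ((s : A) : MvPowerSeries (Fin k) ℂ)))
  rw [norm_sub_rev] at h5
  linarith

include hpoly hcoeff in
/-- the separating space is trivial -/
theorem sep_trivial {s : A} (hs : s ∈ Sep φ) : s = 0 := by
  have h1 := sq_eq_zero hpoly hcoeff φ hs
  have h2 : ((s : A) : MvPowerSeries (Fin k) ℂ) = 0 := by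
    rcases mul_eq_zero.1 h1 with h | h <;> exact h
  exact Subtype.ext h2

include hpoly hcoeff in
lemma isClosed_graph : IsClosed (φ.toLinearEquiv.toLinearMap.graph : Set (B × A)) := by
  rw [← closure_subset_iff_isClosed]
  rintro ⟨b, a⟩ hba
  rw [SetLike.mem_coe, LinearMap.mem_graph_iff]
  show a = φ b
  have h1 : a - φ b ∈ Sep φ := by
    intro U hU V hV
    have hU' : {c | c - b ∈ U} ∈ 𝓝 b := tendsto_sub_right b hU
    have hV' : {c | c - a ∈ V} ∈ 𝓝 a := tendsto_sub_right a hV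
    obtain ⟨⟨c, d⟩, ⟨hc, hd⟩, hcd⟩ := mem_closure_iff_nhds.1 hba _ (prod_mem_nhds hU' hV')
    rw [SetLike.mem_coe, LinearMap.mem_graph_iff] at hcd
    have hcd' : d = φ c := hcd
    refine ⟨c - b, hc, ?_⟩
    have : φ (c - b) - (a - φ b) = d - a := by
      rw [map_sub, hcd']; ring
    rw [this]
    exact hd
  exact sub_eq_zero.1 (sep_trivial hpoly hcoeff φ h1)

include hpoly hcoeff in
theorem continuous_both : Continuous φ ∧ IsOpenMap φ := by
  obtain ⟨G, hGdef⟩ : ∃ G : Submodule ℂ (B × A), G = φ.toLinearEquiv.toLinearMap.graph := ⟨_, rfl⟩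
  have hGcm : IsCompletelyMetrizableSpace G := by
    rw [hGdef]
    exact (isClosed_graph hpoly hcoeff φ).isCompletelyMetrizableSpace
  let p1 : G →ₗ[ℂ] B := (LinearMap.fst ℂ B A).comp G.subtype
  let p2 : G →ₗ[ℂ] A := (LinearMap.snd ℂ B A).comp G.subtype
  have hp1 : Continuous p1 := continuous_fst.comp continuous_subtype_val
  have hp2 : Continuous p2 := continuous_snd.comp continuous_subtype_val
  have hmem : ∀ b : B, ((b, φ b) : B × A) ∈ G := by
    intro b
    rw [hGdef, LinearMap.mem_graph_iff]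
    rfl
  have hG : ∀ g : G, φ (p1 g) = p2 g := by
    rintro ⟨⟨b, a⟩, h⟩
    rw [hGdef, LinearMap.mem_graph_iff] at h
    exact h.symm
  have hs1 : Function.Surjective p1 := fun b => ⟨⟨(b, φ b), hmem b⟩, rfl⟩
  have hs2 : Function.Surjective p2 := fun a => ⟨⟨(φ.symm a, φ (φ.symm a)), hmem _⟩,
    φ.apply_symm_apply a⟩
  have ho1 : IsOpenMap p1 := open_mapping (X := G) (Y := B) p1 hp1 hs1
  have ho2 : IsOpenMap p2 := open_mapping (X := G) (Y := A) p2 hp2 hs2
  constructor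
  · rw [(ho1.isQuotientMap hp1 hs1).continuous_iff]
    exact hp2.congr fun g => (hG g).symm
  · intro U hU
    have : φ '' U = p2 '' (p1 ⁻¹' U) := by
      ext a
      constructor
      · rintro ⟨b, hb, rfl⟩
        exact ⟨⟨(b, φ b), hmem b⟩, hb, rfl⟩
      · rintro ⟨g, hg, rfl⟩
        exact ⟨p1 g, hg, hG g⟩
    rw [this]
    exact ho2 _ (hU.preimage hp1)

end Pool.Agent.H321R3.UT
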